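import Pool.Agent.Lib.MP_7ed551_gt.Cy.A.Rad

/-! The collar and the symplectic section. -/

open scoped ContDiff Topology
open Set Real Filter
open Complex (I)

noncomputable section

namespace Pool.Agent.Lib.MP_7ed551_gt.Cy.FA

open Pool.Agent.Lib.MP_ccffa6_gt (Form1 Bil dF pb dF_apply dF_add dF_smul dF_pb dF_fderiv
  contDiff_dF contDiff_pb)

variable {r : ℝ} {m : ℕ} {Λ : Form1 E} {s : ℂ → ℂ} {c : ℝ → ℝ}

theorem Fb.bounds_aux (h : Fb r Λ) : ContDiff ℝ ∞ fun x => Aom (dF Λ x) := by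
  have a : ∀ u v, ContDiff ℝ ∞ fun x => dF Λ x u v := fun u v =>
    ((contDiff_dF h.far.sm).clm_apply contDiff_const).clm_apply contDiff_const
  have b : ∀ {g : E → ℝ}, ContDiff ℝ ∞ g → ContDiff ℝ ∞ fun x => (g x : ℂ) := fun hg =>
    Complex.ofRealCLM.contDiff.comp hg
  simp only [Aom, Complex.mk_eq_add_mul_I, div_eq_mul_inv]
  refine (((b (a _ _).neg).add ((b (a _ _)).mul contDiff_const)).add (contDiff_const.mul
    ((b (a _ _).neg).add ((b (a _ _)).mul contDiff_const)))).mul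
    ((b (contDiff_const.mul (a _ _))).inv fun x => Complex.ofReal_ne_zero.2 ?_)
  exact (mul_pos two_pos (h.fp x)).ne'

theorem Fb.bounds (h : Fb r Λ) : ∃ ν K : ℝ, 0 < ν ∧ ν ≤ 1 / 2 ∧ 0 < K ∧ ∀ x,
    2 * ν ≤ Pf (dF Λ x) / fib (dF Λ x) ∧ fib (dF Λ x) ≤ K ∧
      fib (dF Λ x) * ‖Aom (dF Λ x)‖ ^ 2 ≤ K := by
  obtain ⟨R, hR, hf⟩ := h.far.dF_far
  have c0 := (contDiff_dF h.far.sm).continuous
  have c1 := cont_fib.comp c0
  have c2 : Continuous fun x => Pf (dF Λ x) / fib (dF Λ x) :=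
    (cont_pf.comp c0).div c1 fun x => (h.fp x).ne'
  have c3 : Continuous fun x => fib (dF Λ x) * ‖Aom (dF Λ x)‖ ^ 2 :=
    c1.mul (h.bounds_aux.continuous.norm.pow 2)
  have hB := isCompact_closedBall (0 : E) R
  obtain ⟨y, -, hy⟩ := hB.exists_isMinOn ⟨0, by simp [hR.le]⟩ c2.continuousOn
  obtain ⟨K1, h1⟩ := hB.exists_bound_of_continuousOn c1.continuousOn
  obtain ⟨K2, h2⟩ := hB.exists_bound_of_continuousOn c3.continuousOn
  have p := div_pos (h.pf y) (h.fp y)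
  have m1 := min_le_left (Pf (dF Λ y) / fib (dF Λ y)) 1
  have m2 := min_le_right (Pf (dF Λ y) / fib (dF Λ y)) 1
  refine ⟨min (Pf (dF Λ y) / fib (dF Λ y)) 1 / 2, max 1 (max K1 K2), by positivity, by linarith,
    by positivity, fun x => ?_⟩
  rcases le_total R ‖x‖ with hx | hx
  · rw [(hf x hx).2, pf_omL, fib_omL, aom_omL]
    exact ⟨by linarith, le_max_left _ _, by simp⟩
  · have hx' := mem_closedBall_zero_iff.2 hx
    have a : Pf (dF Λ y) / fib (dF Λ y) ≤ Pf (dF Λ x) / fib (dF Λ x) := hy hx'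
    exact ⟨by linarith, le_max_of_le_right (le_max_of_le_left ((le_abs_self _).trans (h1 x hx'))),
      le_max_of_le_right (le_max_of_le_right ((le_abs_self _).trans (h2 x hx')))⟩

theorem Fb.aom (h : Fb r Λ) :
    (ContDiff ℝ ∞ fun x => Aom (dF Λ x)) ∧ HasCompactSupport fun x => Aom (dF Λ x) := by
  obtain ⟨R, -, hf⟩ := h.far.dF_far
  refine ⟨h.bounds_aux, HasCompactSupport.intro (isCompact_closedBall 0 R) fun x hx => ?_⟩
  rw [(hf x (not_le.1 (mt mem_closedBall_zero_iff.2 hx)).le).2, aom_omL]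

theorem exists_pre (hD : DichStmt) (hr : 0 < r) (h : Fb r Λ) :
    ∃ m s c, Dt r m Λ s c ∧ PreG r Λ s c := by
  obtain ⟨ν, K, hν, hν', hK, hb⟩ := h.bounds
  obtain ⟨c, ρ, c1, c2, hρ, hρ', c3, c4, c5⟩ := exists_collar hr hν (mul_pos two_pos hK).le
  let κ : ContDiffBump (0 : ℂ) := ⟨ρ, (ρ + r) / 2, hρ, by linarith⟩
  let b : ContDiffBump (0 : ℂ) := ⟨r + 1, r + 2, by linarith, by linarith⟩
  obtain ⟨ε, hε, hε'⟩ : ∃ ε : ℝ, 0 < ε ∧ 2 * K * ε ^ 2 < ν := by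
    refine ⟨min 1 (ν / (4 * K)), by positivity, ?_⟩
    have a1 : min 1 (ν / (4 * K)) ^ 2 ≤ 1 * (ν / (4 * K)) := by
      rw [sq]
      exact mul_le_mul (min_le_left _ _) (min_le_right _ _) (by positivity) one_pos.le
    have a2 : 2 * K * (1 * (ν / (4 * K))) = ν / 2 := by
      field_simp
      ring
    nlinarith
  have k1 : ContDiff ℝ ∞ fun x : E => κ x.2 := κ.contDiff.comp contDiff_snd
  obtain ⟨s, s1, s2, s3⟩ := hD (fun x => κ x.2 • Aom (dF Λ x)) r ε hr hε (k1.smul h.aom.1)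
    (HasCompactSupport.smul_left (f := fun x : E => κ x.2) h.aom.2)
    ⟨(ρ + r) / 2, by linarith, fun x hx => by
      rw [κ.zero_of_le_dist (by rwa [dist_zero_right]), zero_smul]⟩
  have e : ∀ z : ℂ, ‖z‖ ≤ r → (fun z => b z • s z) =ᶠ[𝓝 z] s := fun z hz =>
    (b.eventuallyEq_one_of_mem_ball (mem_ball_zero_iff.2 (hz.trans_lt (lt_add_one r)))).mono
      fun y hy => by simp only [hy, Pi.one_apply, one_smul]
  have e' : ∀ z : ℂ, ‖z‖ = r → b z • s z = s z := fun z hz => (e z hz.le).eq_of_nhds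
  obtain ⟨m, hm⟩ : ∃ m, Pos r m fun z => b z • s z := by
    rcases s3 with s3 | ⟨s3, m, g, g1, g2, g3, g4⟩
    · exact ⟨0, Or.inl ⟨rfl, fun z hz => (congrArg norm (e' z hz)).trans_lt (s3 z hz)⟩⟩
    · refine ⟨m, Or.inr ⟨g1, fun z hz => (s3 z hz).trans_eq (congrArg norm (e' z hz)).symm, g, g2,
        g3, fun θ => (e' _ ?_).trans (g4 θ)⟩⟩
      simp [Complex.norm_exp_ofReal_mul_I, abs_of_pos hr]
  refine ⟨m, fun z => b z • s z, c, ⟨h, b.contDiff.smul s1, ⟨r + 2, fun z hz => ?_⟩, hm, c1, c2,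
    fun y => by linarith [c3 y], c4, fun x => ?_⟩, fun z hz => ?_⟩
  · rw [b.zero_of_le_dist (by rwa [dist_zero_right]), zero_smul]
  · have a1 := (le_div_iff₀ (h.fp x)).1 (hb x).1
    nlinarith [mul_le_mul_of_nonneg_right (c3 (‖x.2‖ ^ 2)) (h.fp x).le, mul_pos hν (h.fp x)]
  · rw [(e z hz).fderiv_eq]
    simp only [(e z hz).eq_of_nhds]
    obtain ⟨b1, b2, b3⟩ := hb (s z, z)
    have f0 := h.fp (s z, z)
    have a1 := gr_ge (alt_dF Λ (s z, z)) f0 (fderiv ℝ s z)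
    rw [show (fderiv ℝ s z 1 + I * fderiv ℝ s z I) / 2 = dbar s z from rfl] at a1
    have a2 : ‖dbar s z - κ z • Aom (dF Λ (s z, z))‖ ≤ ε := s2 z hz
    generalize dF Λ (s z, z) = μ at a1 a2 b1 b2 b3 f0 ⊢
    have n0 := norm_nonneg (dbar s z - Aom μ)
    rcases le_total ‖z‖ ρ with q | q
    · rw [κ.one_of_mem_closedBall (mem_closedBall_zero_iff.2 q), one_smul] at a2
      have a3 := mul_le_mul b2 (pow_le_pow_left₀ n0 a2 2) (by positivity) hK.le
      nlinarith [c3 (‖z‖ ^ 2), mul_pos hK (pow_pos hε 2)]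
    · have a3 : ‖dbar s z - Aom μ‖ ≤ ε + ‖Aom μ‖ := by
        have t : dbar s z - Aom μ = dbar s z - κ z • Aom μ - (1 - κ z) • Aom μ := by
          rw [sub_smul, one_smul]
          ring
        rw [t]
        refine (norm_sub_le _ _).trans (add_le_add a2 ?_)
        rw [norm_smul, Real.norm_of_nonneg (sub_nonneg.2 κ.le_one)]
        exact mul_le_of_le_one_left (norm_nonneg _) (sub_le_self _ κ.nonneg)
      have a4 : ‖dbar s z - Aom μ‖ ^ 2 ≤ 2 * ε ^ 2 + 2 * ‖Aom μ‖ ^ 2 := by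
        nlinarith [pow_le_pow_left₀ n0 a3 2, sq_nonneg (ε - ‖Aom μ‖)]
      have a5 := c5 (‖z‖ ^ 2) ⟨pow_le_pow_left₀ hρ.le q 2, pow_le_pow_left₀ (norm_nonneg _) hz 2⟩
      nlinarith [mul_le_mul_of_nonneg_left a4 f0.le, mul_le_mul_of_nonneg_right b2 (sq_nonneg ε)]

theorem exists_good (hr : 0 < r) (h : Dt r m Λ s c) (hp : PreG r Λ s c) :
    ∃ c' ε, 0 < ε ∧ Dt r m Λ s c' ∧ GoodG ε Λ s c' := by
  have hs := h.sms.continuous
  have hB : Continuous fun p : E =>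
      gr (dF Λ (p.1 + s p.2, p.2)) (fderiv ℝ s p.2) + c (‖p.2‖ ^ 2) :=
    (cont_gr.comp (((contDiff_dF h.fb.far.sm).continuous.comp (by fun_prop)).prodMk
      ((h.sms.continuous_fderiv (by simp)).comp continuous_snd))).add
      (h.smc.continuous.comp (by fun_prop))
  obtain ⟨u, v, hu, hv, h0, h1, h2⟩ := generalized_tube_lemma (isCompact_singleton (x := (0 : ℂ)))
    (isCompact_closedBall (0 : ℂ) r) (isOpen_lt continuous_const hB :
      IsOpen {p : E | 0 < gr (dF Λ (p.1 + s p.2, p.2)) (fderiv ℝ s p.2) + c (‖p.2‖ ^ 2)}) (by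
      rintro ⟨w, z⟩ ⟨rfl, hz⟩
      simpa using hp z (mem_closedBall_zero_iff.1 hz))
  obtain ⟨ε, hε, h3⟩ := Metric.nhds_basis_closedBall.mem_iff.1 (hu.mem_nhds (h0 rfl))
  obtain ⟨δ, hδ, h4⟩ := (isCompact_closedBall (0 : ℂ) r).exists_cthickening_subset_open hv h1
  rw [cthickening_closedBall hδ.le hr.le] at h4
  obtain ⟨R1, hR1⟩ := h.far
  obtain ⟨R2, -, hR2⟩ := h.fb.far.dF_far
  obtain ⟨K, hK⟩ := ((isCompact_closedBall (0 : ℂ) ε).prod
    (isCompact_closedBall (0 : ℂ) (max R1 R2))).exists_bound_of_continuousOn hB.continuousOn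
  obtain ⟨d, d1, d2, d3, d4, d5⟩ := exists_outer (a := r ^ 2) (b := (δ + r) ^ 2) (by nlinarith)
    (max R1 R2 ^ 2) (le_max_right K 0)
  refine ⟨fun y => c y + d y, ε, hε, ⟨h.fb, h.sms, h.far, h.pos, h.smc.add d1, h.cpt.add d2,
    fun y => (h.low y).trans (le_add_of_nonneg_right (d3 y)), ?_, fun x => ?_⟩, fun x hx => ?_⟩
  · refine (intervalIntegral.integral_congr fun y hy => ?_).trans h.mass
    rw [uIcc_of_le (sq_nonneg r)] at hy
    simp only [d4 y hy.2, add_zero]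
  · have := mul_nonneg (d3 (‖x.2‖ ^ 2)) (h.fb.fp x).le
    linarith [h.pf x, add_mul (c (‖x.2‖ ^ 2)) (d (‖x.2‖ ^ 2)) (fib (dF Λ x))]
  · have e : ((x.1 - s x.2 + s x.2, x.2) : E) = x := Prod.ext (sub_add_cancel _ _) rfl
    have hw := mem_closedBall_zero_iff.2 hx
    have := d3 (‖x.2‖ ^ 2)
    rcases le_total ‖x.2‖ (δ + r) with h5 | h5
    · have h6 := h2 (mk_mem_prod (h3 hw) (h4 (mem_closedBall_zero_iff.2 h5)))
      simp only [mem_ofPred_eq, e] at h6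
      linarith
    rcases le_or_gt ‖x.2‖ (max R1 R2) with h6 | h6
    · have h7 := (abs_le.1 (hK _ (mk_mem_prod hw (mem_closedBall_zero_iff.2 h6)))).1
      simp only [e] at h7
      linarith [le_max_left K 0,
        d5 _ ⟨pow_le_pow_left₀ (by positivity) h5 2, pow_le_pow_left₀ (norm_nonneg _) h6 2⟩]
    · have h7 : s =ᶠ[𝓝 x.2] fun _ => 0 := ((isOpen_lt continuous_const
        continuous_norm).eventually_mem ((le_max_left _ _).trans_lt h6 : R1 < ‖x.2‖)).mono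
        fun y hy => hR1 y (le_of_lt hy)
      rw [(hR2 x (((le_max_right _ _).trans h6.le).trans (norm_snd_le x))).2, h7.fderiv_eq, gr_omL]
      simp only [fderiv_fun_const, Pi.zero_apply, zero_apply, w1, Complex.zero_re, Complex.zero_im]
      linarith [h.low (‖x.2‖ ^ 2)]

end Pool.Agent.Lib.MP_7ed551_gt.Cy.FA
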