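import Pool.Agent.Lib.MP_7ed551_gt.Cy.A.Prim

/-! Cutting off at infinity. -/

open scoped ContDiff Topology
open Set Real Filter
open Complex (I)

noncomputable section

namespace Pool.Agent.Lib.MP_7ed551_gt.Cy.FA

open Pool.Agent.Lib.MP_ccffa6_gt (Form1 Bil dF pb dF_apply dF_add dF_smul dF_pb dF_fderiv
  contDiff_dF contDiff_pb)

theorem contDiff_chi (S : ℝ) : ContDiff ℝ ∞ (chi S) :=
  smoothTransition.contDiff.comp (contDiff_const.sub (contDiff_nq.div_const _))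

theorem cut_near {S : ℝ} (hS : 0 < S) (κ : ℝ) (Λ : Form1 E) {x : E} (hx : nq x < S ^ 2) :
    Cut S κ Λ =ᶠ[𝓝 x] fun y => κ • Λ y := by
  filter_upwards [(isOpen_lt contDiff_nq.continuous continuous_const).mem_nhds hx] with y hy
  have : nq y / S ^ 2 < 1 := (div_lt_one (by positivity)).2 hy
  rw [Cut, chi, smoothTransition.one_of_one_le (by linarith), one_smul, add_sub_cancel]

theorem cut_far {S : ℝ} (hS : 0 < S) (κ : ℝ) (Λ : Form1 E) {x : E} (hx : 2 * S ≤ ‖x‖) :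
    Cut S κ Λ x = lam0 x := by
  have : 2 ≤ nq x / S ^ 2 := (le_div_iff₀ (by positivity)).2 (by nlinarith [sq_norm_le x])
  rw [Cut, chi, smoothTransition.zero_of_nonpos (by linarith), zero_smul, add_zero]

theorem cut_tame_aux (S : ℝ) (x v : E) : fderiv ℝ (chi S) x v =
    -(deriv smoothTransition (2 - nq x / S ^ 2) * (2 * om x (J0 v) / S ^ 2)) := by
  have n := (omL.hasFDerivAt (x := x)).clm_apply J0.hasFDerivAt
  simp only [omL_apply, om_J0] at n
  have d : HasFDerivAt (chi S) _ x :=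
    ((smoothTransition.contDiff (n := 1)).differentiable one_ne_zero
      (2 - nq x / S ^ 2)).hasDerivAt.comp_hasFDerivAt x ((n.mul_const (S ^ 2)⁻¹).const_sub 2)
  rw [d.fderiv]
  simp [omL_apply, om, w1, J0_apply]
  ring

theorem cut_tame : ∃ C : ℝ, 0 < C ∧ ∀ (S κ M : ℝ) (Λ : Form1 E) (x v : E), 0 < S → 0 < κ → κ ≤ 1 →
    DifferentiableAt ℝ Λ x → ‖Λ x - lam0 x‖ ≤ M → nq v / 2 ≤ dF Λ x v (J0 v) →
    (κ / 2 - C * M / S) * nq v ≤ dF (Cut S κ Λ) x v (J0 v) := by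
  obtain ⟨C, hC⟩ := (isCompact_Icc (a := (0 : ℝ)) (b := 2)).exists_bound_of_continuousOn
    ((smoothTransition.contDiff (n := 1)).continuous_deriv le_rfl).continuousOn
  have C0 := (norm_nonneg _).trans (hC 0 (by simp))
  refine ⟨8 * ‖omL‖ * C + 1, by positivity, fun S κ M Λ x v hS h0 h1 hΛ hM ht => ?_⟩
  have l := contDiff_lam0.differentiable (by simp) x
  have c := (contDiff_chi S).differentiable (by simp) x
  have g : DifferentiableAt ℝ (fun y => κ • Λ y - lam0 y) x := (hΛ.const_smul κ).sub l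
  have e : dF (fun y => κ • Λ y - lam0 y) x v (J0 v) = κ * dF Λ x v (J0 v) - nq v := by
    rw [← om_J0, ← dF_lam0 x]
    simp only [dF_apply, ((hΛ.hasFDerivAt.fun_const_smul κ).fun_sub l.hasFDerivAt).fderiv,
      sub_apply, smul_apply, smul_eq_mul]
    ring
  have j : om x (J0 (J0 v)) = -om x v := by
    simp [om, w1, J0_apply]
    ring
  have M0 := (norm_nonneg _).trans hM
  have q := sq_norm_le v
  have bd : ∀ u w : E, ‖u‖ = ‖v‖ → ‖w‖ = ‖v‖ → |om x u * (Λ x - lam0 x) w| ≤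
      ‖omL‖ * ‖x‖ * M * nq v := fun u w hu hw => by
    rw [abs_mul, ← omL_apply]
    refine (mul_le_mul (omL.le_opNorm₂ x u) ((Λ x - lam0 x).le_of_opNorm_le hM w) (abs_nonneg _)
      (by positivity)).trans ?_
    rw [hu, hw]
    exact (le_of_eq (by ring)).trans (mul_le_mul_of_nonneg_left q (by positivity))
  have k0 := smoothTransition.monotone.deriv_nonneg (x := 2 - nq x / S ^ 2)
  have k1 : deriv smoothTransition (2 - nq x / S ^ 2) * ‖x‖ ≤ C * (2 * S) := by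
    rcases lt_or_ge (2 - nq x / S ^ 2) 0 with h | h
    · rw [(show smoothTransition =ᶠ[𝓝 _] fun _ => 0 from (gt_mem_nhds h).mono fun y hy =>
        smoothTransition.zero_of_nonpos hy.le).deriv_eq, deriv_const, zero_mul]
      positivity
    · have a : nq x ≤ 2 * S ^ 2 := (div_le_iff₀ (by positivity)).1 (by linarith)
      refine mul_le_mul ((le_abs_self _).trans (hC _ ⟨h, sub_le_self _ ?_⟩))
        (abs_le_of_sq_le_sq' (by nlinarith [sq_norm_le x]) (by positivity)).2 (norm_nonneg _) C0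
      unfold nq
      positivity
  have b1 := abs_le.1 (bd _ _ (norm_J0 v) (norm_J0 v))
  have b2 := abs_le.1 (bd v v rfl rfl)
  rw [show Cut S κ Λ = fun y => lam0 y + chi S y • (κ • Λ y - lam0 y) from rfl,
    dF_add l (c.fun_smul g), add_apply, add_apply, dF_smul c g, e, dF_lam0, om_J0, cut_tame_aux,
    cut_tame_aux, j]
  simp only [sub_apply, smul_apply, smul_eq_mul, lam0_apply] at b1 b2 ⊢
  have x0 : 0 ≤ chi S x := smoothTransition.nonneg _
  have x1 : chi S x ≤ 1 := smoothTransition.le_one _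
  generalize deriv smoothTransition (2 - nq x / S ^ 2) = k at *
  have n0 := (sq_nonneg _).trans q
  have t1 : om x (J0 v) * (κ * Λ x (J0 v) - om x (J0 v) / 2) + om x v * (κ * Λ x v - om x v / 2) ≤
      2 * (‖x‖ * (‖omL‖ * M * nq v)) := by
    have : 0 ≤ ‖omL‖ * ‖x‖ * M * nq v := by positivity
    nlinarith [mul_le_mul_of_nonneg_left (add_le_add b1.2 b2.2) h0.le, mul_nonneg (sub_nonneg.2 h1)
      (add_nonneg (sq_nonneg (om x (J0 v))) (sq_nonneg (om x v)))]
  have t2 := mul_le_mul_of_nonneg_left ((mul_le_mul_of_nonneg_left t1 k0).trans ((by ring_nf; rfl :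
    _ ≤ 2 * (k * ‖x‖ * (‖omL‖ * M * nq v))).trans (mul_le_mul_of_nonneg_left
      (mul_le_mul_of_nonneg_right k1 (by positivity)) zero_le_two))) (by positivity : 0 ≤ 2 / S ^ 2)
  have t3 : κ / 2 * nq v ≤ nq v + chi S x * (κ * dF Λ x v (J0 v) - nq v) := by
    nlinarith [mul_le_mul_of_nonneg_left ht (mul_nonneg x0 h0.le), mul_nonneg (sub_nonneg.2 x1)
      (mul_nonneg n0 (by linarith : 0 ≤ 1 - κ / 2))]
  have t4 : 2 / S ^ 2 * (2 * (C * (2 * S) * (‖omL‖ * M * nq v))) =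
      8 * ‖omL‖ * C * M / S * nq v := by field_simp; ring
  have t5 : 0 ≤ M / S * nq v := by positivity
  linear_combination t2 + t3 + t4 + t5

theorem cut_rr {r : ℝ} (hr : 0 < r) {F : ℝ × E → E →L[ℝ] ℝ} (hF : ContDiff ℝ ∞ F) {κ b : ℝ → ℝ}
    (hκ : ContDiff ℝ ∞ κ) {κ₀ : ℝ} (h0 : 0 < κ₀) (h1 : ∀ t, κ₀ ≤ κ t ∧ κ t ≤ 1)
    (nd : ∀ t x, Pf (dF (fun y => F (t, y)) x) ≠ 0) (onL : ∀ t, OnL r (b t) fun y => F (t, y))
    (hb : ∀ t, κ t * b t = π * r ^ 2)
    (far : ∃ R M : ℝ, ∀ t x, R ≤ ‖x‖ → ‖F (t, x) - lam0 x‖ ≤ M ∧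
      ∀ v, nq v / 2 ≤ dF (fun y => F (t, y)) x v (J0 v)) :
    RR r (κ 0) (fun y => F (0, y)) (κ 1) fun y => F (1, y) := by
  obtain ⟨C, -, hT⟩ := cut_tame
  obtain ⟨R, M, hf⟩ := far
  filter_upwards [eventually_gt_atTop (2 * R), eventually_gt_atTop (2 * r),
    eventually_gt_atTop (C * M / (κ₀ / 2))] with S hR hS hM
  have S0 : 0 < S := by linarith
  have sm : ∀ t, ContDiff ℝ ∞ fun y => F (t, y) := fun t => hF.comp (contDiff_prodMk_right t)
  have k0 : ∀ t, 0 < κ t := fun t => h0.trans_le (h1 t).1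
  have nr : ∀ t (x : E), 2 * ‖x‖ < S → (Cut S (κ t) fun y => F (t, y)) =ᶠ[𝓝 x]
      fun y => κ t • F (t, y) := fun t x hx =>
    cut_near S0 _ _ (by nlinarith [nq_le x, norm_nonneg x])
  refine iso (b := π * r ^ 2) (F := fun p => Cut S (κ p.1) (fun y => F (p.1, y)) p.2) hr
    ((contDiff_lam0.comp contDiff_snd).add (((contDiff_chi S).comp contDiff_snd).smul
      (((hκ.comp contDiff_fst).smul hF).sub (contDiff_lam0.comp contDiff_snd)))) (fun t x => ?_)
    ⟨2 * S, fun t x hx => (cut_far S0 _ _ hx).trans (cut_far S0 _ _ hx).symm⟩ fun t =>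
    hb t ▸ ((onL t).smul (sm t) (κ t)).congr hr fun y hy => nr t y (by
      rw [Prod.norm_def, hy.1, hy.2, max_self]
      exact hS)
  have d := (sm t).differentiable (by simp) x
  rcases le_or_gt R ‖x‖ with hx | hx
  · refine pf_ne_of_tame (alt_dF _ _) fun v hv => lt_of_lt_of_le (mul_pos ?_
      ((pow_pos (norm_pos_iff.2 hv) 2).trans_le (sq_norm_le v)))
      (hT S (κ t) M _ x v S0 (k0 t) (h1 t).2 d (hf t x hx).1 ((hf t x hx).2 v))
    rw [div_lt_comm₀ (half_pos h0) S0] at hM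
    linarith [(h1 t).1]
  · have e : dF (Cut S (κ t) fun y => F (t, y)) x = κ t • dF (fun y => F (t, y)) x := by
      refine ContinuousLinearMap.ext fun u => ContinuousLinearMap.ext fun v => ?_
      simp only [dF_apply, (nr t x (by linarith)).fderiv_eq, fderiv_fun_const_smul d, smul_apply,
        smul_eq_mul, mul_sub]
    exact (congrArg Pf e).trans_ne ((pf_smul _ _).trans_ne (mul_ne_zero (pow_ne_zero 2 (k0 t).ne')
      (nd t x)))

theorem RR.symm {r κ κ' : ℝ} {Λ Λ' : Form1 E} (h : RR r κ Λ κ' Λ') : RR r κ' Λ' κ Λ :=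
  h.mono fun _ h => h.symm

theorem RR.trans {r κ κ' κ'' : ℝ} {Λ Λ' Λ'' : Form1 E} (h : RR r κ Λ κ' Λ')
    (h' : RR r κ' Λ' κ'' Λ'') : RR r κ Λ κ'' Λ'' :=
  (h.and h').mono fun _ h => h.1.trans h.2

theorem RR.rel {r : ℝ} {Λ Λ' : Form1 E} (h : RR r 1 Λ 1 Λ') (f : Far Λ) (f' : Far Λ') :
    Rel r Λ Λ' := by
  have key : ∀ {Λ : Form1 E}, Far Λ → ∀ᶠ S in atTop, Cut S 1 Λ = Λ := fun {Λ} ⟨_, R, hR⟩ => by
    filter_upwards [eventually_gt_atTop (2 * R), eventually_gt_atTop 0] with S hS S0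
    funext x
    rcases le_or_gt R ‖x‖ with hx | hx
    · rw [Cut, one_smul, hR x hx, sub_self, smul_zero, add_zero]
    · exact (cut_near S0 1 Λ (x := x)
        (by nlinarith [nq_le x, norm_nonneg x])).eq_of_nhds.trans (one_smul _ _)
  obtain ⟨S, h, e, e'⟩ := (h.and ((key f).and (key f'))).exists
  rwa [e, e'] at h

end Pool.Agent.Lib.MP_7ed551_gt.Cy.FA
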