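import Pool.Agent.Lib.MP_7ed551_gt.Cy.Iface
import Pool.Agent.Lib.MP_7ed551_gt.Cy.B.Cov
import Pool.Agent.Lib.MP_7ed551_gt.Polar

/-! Fibred tori: definitions. First coordinate: fibre, second coordinate: base. -/

open scoped ContDiff Topology
open Set Real Filter
open Complex (I)

noncomputable section

namespace Pool.Agent.Lib.MP_7ed551_gt.Cy.FA

open Pool.Agent.Lib.MP_ccffa6_gt (Form1 Bil dF pb dF_apply dF_add dF_smul dF_pb dF_fderiv
  contDiff_dF contDiff_pb)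

/-- The fibre density. -/
def fib (μ : Bil E) : ℝ := μ (1, 0) (I, 0)

/-- The Pfaffian. -/
def Pf (μ : Bil E) : ℝ :=
  μ (1, 0) (I, 0) * μ (0, 1) (0, I) - μ (1, 0) (0, 1) * μ (I, 0) (0, I) +
    μ (1, 0) (0, I) * μ (I, 0) (0, 1)

/-- The density on the graph of `L`. -/
def gr (μ : Bil E) (L : ℂ →L[ℝ] ℂ) : ℝ := μ (L 1, 1) (L I, I)

/-- The antilinear part of the horizontal lift. -/
def Aom (μ : Bil E) : ℂ :=
  ((⟨-μ (0, 1) (I, 0), μ (0, 1) (1, 0)⟩ : ℂ) + I * ⟨-μ (0, I) (I, 0), μ (0, I) (1, 0)⟩) /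
    (2 * fib μ : ℝ)

/-- Alternating forms. -/
def Alt (μ : Bil E) : Prop := ∀ u v, μ u v = -μ v u

/-- The square of the Euclidean norm. -/
def nq (v : E) : ℝ := ‖v.1‖ ^ 2 + ‖v.2‖ ^ 2

/-- A smooth form which is the Liouville form off a ball. -/
structure Far (Λ : Form1 E) : Prop where
  sm : ContDiff ℝ ∞ Λ
  far : ∃ R : ℝ, ∀ x, R ≤ ‖x‖ → Λ x = lam0 x

/-- The product torus is Lagrangian with both periods equal to `b`. -/
structure OnL (r b : ℝ) (Λ : Form1 E) : Prop where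
  lag : LagS r Λ
  pB : perB r Λ = b
  pF : perF r Λ = b

/-- Symplectic forms with symplectic fibres. -/
structure Fb (r : ℝ) (Λ : Form1 E) : Prop where
  far : Far Λ
  onL : OnL r (π * r ^ 2) Λ
  fp : ∀ x, 0 < fib (dF Λ x)
  pf : ∀ x, 0 < Pf (dF Λ x)

/-- A compactly supported diffeomorphism preserves the torus and maps `dΛ` to `dΛ'`. -/
def Rel (r : ℝ) (Λ Λ' : Form1 E) : Prop :=
  ∃ ψ ψ' : E → E, Dif ψ ψ' ∧ ψ '' Ls r = Ls r ∧
    ∀ x u v, dF Λ' (ψ x) (fderiv ℝ ψ x u) (fderiv ℝ ψ x v) = dF Λ x u v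

/-- The cut off function: one for `nq x ≤ S ^ 2`, zero for `2 * S ^ 2 ≤ nq x`. -/
def chi (S : ℝ) (x : E) : ℝ := smoothTransition (2 - nq x / S ^ 2)

/-- `κ Λ` near the origin, the Liouville form far away. -/
def Cut (S κ : ℝ) (Λ : Form1 E) : Form1 E := fun x => lam0 x + chi S x • (κ • Λ x - lam0 x)

/-- The cuts are related for all large radii. -/
def RR (r κ : ℝ) (Λ : Form1 E) (κ' : ℝ) (Λ' : Form1 E) : Prop :=
  ∀ᶠ S in atTop, Rel r (Cut S κ Λ) (Cut S κ' Λ')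

/-- A bounded radial form with density `c (‖z‖ ^ 2)`. -/
structure Rad (η : Form1 ℂ) (c : ℝ → ℝ) : Prop where
  sm : ContDiff ℝ ∞ η
  cont : Continuous c
  d : ∀ z u v, dF η z u v = c (‖z‖ ^ 2) * w1 u v
  val : ∀ z v, ‖z‖ ^ 2 * η z v = (∫ y in (0 : ℝ)..‖z‖ ^ 2, c y) * w1 z v / 2
  bd : ∃ M : ℝ, ∀ z, ‖η z‖ ≤ M

/-- A radial form with nonnegative density of mass one, supported in the disc of radius `ε`. -/
structure Bump (α : Form1 ℂ) (f : ℝ → ℝ) (ε : ℝ) : Prop where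
  rad : Rad α f
  pos : 0 < ε
  nn : ∀ y, 0 ≤ f y
  out : ∀ y, ε ^ 2 ≤ y → f y = 0
  mass : π * ∫ y in (0 : ℝ)..ε ^ 2, f y = 1

/-- The position of a section: inside (`m = 0`), or outside with winding number `-m`. -/
def Pos (r : ℝ) (m : ℕ) (s : ℂ → ℂ) : Prop :=
  (m = 0 ∧ ∀ z, ‖z‖ = r → ‖s z‖ < r) ∨
    (1 ≤ m ∧ (∀ z, ‖z‖ = r → r < ‖s z‖) ∧ ∃ g : ℝ → ℂ, Continuous g ∧
      (∀ θ, g (θ + 2 * π) = g θ) ∧ ∀ θ : ℝ, s (r * Complex.exp (θ * I)) = Complex.exp (g θ - m * θ * I))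

/-- The inflation form of the section `s`. -/
def sec (s : ℂ → ℂ) (α : Form1 ℂ) : Form1 E := pb (fun y : E => y.1 - s y.2) α

/-- The form pulled back from the base. -/
def bas (η : Form1 ℂ) : Form1 E := pb (fun y : E => y.2) η

/-- The inflated form. -/
def Tot (Λ : Form1 E) (η α : Form1 ℂ) (s : ℂ → ℂ) (t : ℝ) : Form1 E :=
  fun x => Λ x + bas η x + t • sec s α x

/-- The period added by the inflation. -/
def ext (m : ℕ) (t : ℝ) : ℝ := if m = 0 then t else 0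

/-- The scaling factor. -/
def kap (r : ℝ) (m : ℕ) (t : ℝ) : ℝ := π * r ^ 2 / (π * r ^ 2 + ext m t)

/-- The mass of the base form per unit of inflation. -/
def mas (m : ℕ) : ℝ := if m = 0 then 1 else m

/-- A family of sections which stays away from the torus. -/
structure Fam (r : ℝ) (m : ℕ) (ε : ℝ) (s : ℝ × ℂ → ℂ) : Prop where
  sm : ContDiff ℝ ∞ s
  far : ∃ R : ℝ, ∀ u z, R ≤ ‖z‖ → s (u, z) = 0
  pos : ∀ u ∈ Icc (0 : ℝ) 1, Pos r m fun z => s (u, z)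
  off : ∀ u ∈ Icc (0 : ℝ) 1, ∀ y ∈ Ls r, ε ≤ ‖y.1 - s (u, y.2)‖

/-- A fibred form, a section and a base density of mass zero inside. -/
structure Dt (r : ℝ) (m : ℕ) (Λ : Form1 E) (s : ℂ → ℂ) (c : ℝ → ℝ) : Prop where
  fb : Fb r Λ
  sms : ContDiff ℝ ∞ s
  far : ∃ R : ℝ, ∀ z, R ≤ ‖z‖ → s z = 0
  pos : Pos r m s
  smc : ContDiff ℝ ∞ c
  cpt : HasCompactSupport c
  low : ∀ y, -(1 / 2) ≤ c y
  mass : ∫ y in (0 : ℝ)..r ^ 2, c y = 0
  pf : ∀ x, 0 < Pf (dF Λ x) + c (‖x.2‖ ^ 2) * fib (dF Λ x)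

/-- The section is symplectic over the closed disc. -/
def PreG (r : ℝ) (Λ : Form1 E) (s : ℂ → ℂ) (c : ℝ → ℝ) : Prop :=
  ∀ z, ‖z‖ ≤ r → 0 < gr (dF Λ (s z, z)) (fderiv ℝ s z) + c (‖z‖ ^ 2)

/-- The translates of the section by at most `ε` are weakly symplectic. -/
def GoodG (ε : ℝ) (Λ : Form1 E) (s : ℂ → ℂ) (c : ℝ → ℝ) : Prop :=
  ∀ x : E, ‖x.1 - s x.2‖ ≤ ε → 0 ≤ gr (dF Λ x) (fderiv ℝ s x.2) + c (‖x.2‖ ^ 2)

/-- The convex combination of two differentials. -/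
def mix (u : ℝ) (Λ Λ' : Form1 E) (x : E) : Bil E := (1 - u) • dF Λ x + u • dF Λ' x

theorem alt_dF (Λ : Form1 E) (x : E) : Alt (dF Λ x) := fun u v => by
  rw [dF_apply, dF_apply, neg_sub]

theorem alt_mix (u : ℝ) (Λ Λ' : Form1 E) (x : E) : Alt (mix u Λ Λ' x) := fun a b => by
  simp only [mix, add_apply, smul_apply, smul_eq_mul]
  rw [alt_dF Λ x a b, alt_dF Λ' x a b]
  ring

theorem dF_lam0' (x : E) : dF lam0 x = omL := by
  ext u v <;> exact (dF_lam0 x _ _).trans (omL_apply _ _).symm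

theorem Far.dF_far {Λ : Form1 E} (h : Far Λ) :
    ∃ R : ℝ, 0 < R ∧ ∀ x, R ≤ ‖x‖ → Λ x = lam0 x ∧ dF Λ x = omL := by
  obtain ⟨R, hR⟩ := h.far
  refine ⟨max R 0 + 1, by positivity, fun x hx => ⟨hR x (by linarith [le_max_left R 0]), ?_⟩⟩
  have e : Λ =ᶠ[𝓝 x] lam0 := ((isOpen_lt continuous_const continuous_norm).eventually_mem
    (show R < ‖x‖ by linarith [le_max_left R 0])).mono fun y hy => hR y (le_of_lt hy)
  rw [← dF_lam0' x, dF, dF, e.fderiv_eq]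

theorem far_lam0 : Far lam0 := ⟨contDiff_lam0, 0, fun _ _ => rfl⟩

theorem std_mem {r : ℝ} (hr : 0 < r) (x : ℝ × ℝ) : std r x ∈ Ls r := range_std hr ▸ mem_range_self x

theorem hd_stdB (r θ φ : ℝ) :
    HasDerivAt (fun θ => std r (θ, φ)) (0, I * (std r (θ, φ)).2) θ :=
  ((hasDerivAt_const θ (r * Complex.exp (φ * I))).prodMk
    ((hd_exp θ).const_mul (r : ℂ))).congr_deriv (Prod.ext rfl (by simp only [std]; ring))

theorem hd_stdF (r θ φ : ℝ) :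
    HasDerivAt (fun φ => std r (θ, φ)) (I * (std r (θ, φ)).1, 0) φ :=
  (((hd_exp φ).const_mul (r : ℂ)).prodMk
    (hasDerivAt_const φ (r * Complex.exp (θ * I)))).congr_deriv
    (Prod.ext (by simp only [std]; ring) rfl)

theorem contDiff_std (r : ℝ) : ContDiff ℝ ∞ (std r) := by
  unfold std
  fun_prop

theorem sq_norm_le (v : E) : ‖v‖ ^ 2 ≤ nq v := by
  rw [Prod.norm_def, nq]
  rcases le_total ‖v.1‖ ‖v.2‖ with h | h
  · rw [max_eq_right h]
    exact le_add_of_nonneg_left (sq_nonneg _)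
  · rw [max_eq_left h]
    exact le_add_of_nonneg_right (sq_nonneg _)

theorem nq_le (v : E) : nq v ≤ 2 * ‖v‖ ^ 2 := by
  have h1 := pow_le_pow_left₀ (norm_nonneg _) (norm_fst_le v) 2
  have h2 := pow_le_pow_left₀ (norm_nonneg _) (norm_snd_le v) 2
  rw [nq]
  linarith

theorem om_J0 (v : E) : om v (J0 v) = nq v := by
  simp only [om, w1, J0_apply, nq, Complex.sq_norm, Complex.normSq_apply, Prod.smul_fst, Prod.smul_snd,
    smul_eq_mul, Complex.mul_re, Complex.mul_im, Complex.I_re, Complex.I_im]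
  ring

theorem norm_J0 (v : E) : ‖J0 v‖ = ‖v‖ := by rw [J0_apply, norm_smul, Complex.norm_I, one_mul]

theorem contDiff_nq : ContDiff ℝ ∞ nq :=
  ((contDiff_norm_sq ℝ).comp contDiff_fst).add ((contDiff_norm_sq ℝ).comp contDiff_snd)

end Pool.Agent.Lib.MP_7ed551_gt.Cy.FA
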