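import Pool.Agent.Lib.MP_7ed551_gt.Cy.A.Per

/-! Families of sections, large inflation. -/

open scoped ContDiff Topology
open Set Real Filter
open Complex (I)

noncomputable section

namespace Pool.Agent.Lib.MP_7ed551_gt.Cy.FA

open Pool.Agent.Lib.MP_ccffa6_gt (Form1 Bil dF pb dF_apply dF_add dF_smul dF_pb dF_fderiv
  contDiff_dF contDiff_pb)

variable {r : ℝ} {m : ℕ} {Λ Λ' : Form1 E} {s s' : ℂ → ℂ} {c c' : ℝ → ℝ}

theorem fam_of (hr : 0 < r) {S : ℝ × ℂ → ℂ} (h1 : ContDiff ℝ ∞ S)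
    (h2 : ∃ R : ℝ, ∀ u z, R ≤ ‖z‖ → S (u, z) = 0)
    (h3 : ∀ u ∈ Icc (0 : ℝ) 1, Pos r m fun z => S (u, z)) :
    ∃ ε₀, 0 < ε₀ ∧ ∀ ε, ε ≤ ε₀ → Fam r m ε S := by
  have hK : IsCompact (Ls r) := by
    have e : Ls r = Metric.sphere 0 r ×ˢ Metric.sphere 0 r := by
      ext y
      simp [Ls]
    exact e ▸ (isCompact_sphere 0 r).prod (isCompact_sphere 0 r)
  have hc := h1.continuous
  obtain ⟨p, hp, h4⟩ := (isCompact_Icc.prod hK).exists_isMinOn
    ⟨(0, std r 0), ⟨le_rfl, zero_le_one⟩, std_mem hr 0⟩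
    (f := fun p : ℝ × E => ‖p.2.1 - S (p.1, p.2.2)‖) (by fun_prop)
  refine ⟨_, norm_pos_iff.2 (sub_ne_zero.2 fun e : p.2.1 = S (p.1, p.2.2) => ?_),
    fun ε hε => ⟨h1, h2, h3, fun u hu y hy => hε.trans (h4 (a := (u, y)) ⟨hu, hy⟩)⟩⟩
  have h5 := (congrArg norm e).symm.trans hp.2.1
  rcases h3 p.1 hp.1 with ⟨-, h⟩ | ⟨-, h, -⟩
  exacts [(h _ hp.2.2).ne h5, (h _ hp.2.2).ne' h5]

theorem exists_fam (hr : 0 < r) (h : Dt r m Λ s c) (h' : Dt r m Λ' s' c') :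
    ∃ S : ℝ × ℂ → ℂ, ContDiff ℝ ∞ S ∧ (∃ R : ℝ, ∀ u z, R ≤ ‖z‖ → S (u, z) = 0) ∧
      (∀ u ∈ Icc (0 : ℝ) 1, Pos r m fun z => S (u, z)) ∧ (∀ z, S (0, z) = s z) ∧
      ∀ z, S (1, z) = s' z := by
  obtain ⟨R, hR⟩ := h.far
  obtain ⟨R', hR'⟩ := h'.far
  have a1 := h.sms
  have a2 := h'.sms
  have key : ∀ ℓ : ℂ → ℂ, ContDiff ℝ ∞ ℓ → (∀ u ∈ Icc (0 : ℝ) 1, Pos r m fun z =>
      s z * Complex.exp (u * ℓ z) + u * (s' z - s z * Complex.exp (ℓ z))) → _ := fun ℓ b1 b2 =>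
    show ∃ S : ℝ × ℂ → ℂ, ContDiff ℝ ∞ S ∧ (∃ R : ℝ, ∀ u z, R ≤ ‖z‖ → S (u, z) = 0) ∧
      (∀ u ∈ Icc (0 : ℝ) 1, Pos r m fun z => S (u, z)) ∧ (∀ z, S (0, z) = s z) ∧
      ∀ z, S (1, z) = s' z from
    ⟨fun p => s p.2 * Complex.exp (p.1 * ℓ p.2) + p.1 * (s' p.2 - s p.2 * Complex.exp (ℓ p.2)), by
      have b3 : ContDiff ℝ ∞ fun p : ℝ × ℂ => (p.1 : ℂ) :=
        Complex.ofRealCLM.contDiff.comp contDiff_fst
      have b4 := b1.comp (contDiff_snd (E := ℝ))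
      exact ((a1.comp contDiff_snd).mul (b3.mul b4).cexp).add
        (b3.mul ((a2.comp contDiff_snd).sub ((a1.comp contDiff_snd).mul b4.cexp))),
      ⟨max R R', fun u z hz => by
        simp [hR z (le_of_max_le_left hz), hR' z (le_of_max_le_right hz)]⟩,
      b2, fun z => by simp, fun z => by simp⟩
  have mx : ∀ {u a b t : ℝ}, u ∈ Icc (0 : ℝ) 1 → a < t → b < t → (1 - u) * a + u * b < t :=
    fun {_ a b t} hu ha hb => convex_Iio t (x := a) ha (y := b) hb (sub_nonneg.2 hu.2) hu.1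
      (sub_add_cancel _ _)
  rcases h.pos with ⟨m0, p1⟩ | ⟨m1, p1, g, g1, g2, g3⟩
  · rcases h'.pos with ⟨-, p2⟩ | ⟨m1, -⟩
    swap
    · omega
    refine key (fun _ => 0) contDiff_const fun u hu => Or.inl ⟨m0, fun z hz => ?_⟩
    have e : s z * Complex.exp (u * 0) + u * (s' z - s z * Complex.exp 0) =
        (1 - u) • s z + u • s' z := by
      simp
      ring
    refine (congrArg norm e).trans_lt ((norm_add_le _ _).trans_lt ?_)
    rw [norm_smul, norm_smul, norm_of_nonneg hu.1, norm_of_nonneg (sub_nonneg.2 hu.2)]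
    exact mx hu (p1 z hz) (p2 z hz)
  rcases h'.pos with ⟨m0, -⟩ | ⟨-, p2, g', k1, k2, k3⟩
  · omega
  have c0 : ContDiff ℝ ∞ fun θ : ℝ => (θ : ℂ) := Complex.ofRealCLM.contDiff
  have sm : ∀ {s : ℂ → ℂ} {g : ℝ → ℂ}, ContDiff ℝ ∞ s → Continuous g →
      (∀ θ : ℝ, s (r * Complex.exp (θ * I)) = Complex.exp (g θ - m * θ * I)) → ContDiff ℝ ∞ g :=
    fun {s g} b1 b2 b3 => by
    have b4 := contDiff_of_exp (g := fun θ => g θ - m * θ * I) (by fun_prop)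
      (funext b3 ▸ b1.comp (contDiff_const.mul (c0.mul contDiff_const).cexp))
    simpa using b4.add ((contDiff_const.mul c0).mul contDiff_const (f := fun θ : ℝ => (m * θ : ℂ))
      (g := fun _ => I))
  obtain ⟨G, G1, G2, -⟩ := arg_ext (V := ℝ) hr (F := fun p => g' p.2 - g p.2)
    (((sm a2 k1 k3).sub (sm a1 g1 g3)).comp contDiff_snd) fun _ θ => by simp only [g2, k2]
  refine key (fun z => G (0, z)) (G1.comp (contDiff_const.prodMk contDiff_id)) fun u hu => ?_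
  have e : ∀ θ : ℝ, s (r * Complex.exp (θ * I)) * Complex.exp (u * G (0, r * Complex.exp (θ * I))) +
      u * (s' (r * Complex.exp (θ * I)) -
        s (r * Complex.exp (θ * I)) * Complex.exp (G (0, r * Complex.exp (θ * I)))) =
      Complex.exp (g θ + u * (g' θ - g θ) - m * θ * I) := fun θ => by
    rw [G2, g3, k3, ← Complex.exp_add, ← Complex.exp_add,
      show g θ - m * θ * I + (g' θ - g θ) = g' θ - m * θ * I by ring, sub_self, mul_zero, add_zero]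
    congr 1
    ring
  refine Or.inr ⟨m1, fun z hz => ?_, fun θ => g θ + u * (g' θ - g θ), by fun_prop,
    fun θ => by simp only [g2, k2], e⟩
  have ez : (r : ℂ) * Complex.exp (Complex.arg z * I) = z := hz ▸ Complex.norm_mul_exp_arg_mul_I z
  have q1 := p1 z hz
  have q2 := p2 z hz
  rw [← ez, g3, Complex.norm_exp, ← log_lt_iff_lt_exp hr] at q1
  rw [← ez, k3, Complex.norm_exp, ← log_lt_iff_lt_exp hr] at q2
  have q3 := mx hu (neg_lt_neg q1) (neg_lt_neg q2)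
  rw [← ez]
  refine lt_of_lt_of_eq ?_ (congrArg norm (e _)).symm
  rw [Complex.norm_exp, ← log_lt_iff_lt_exp hr]
  simp only [Complex.sub_re, Complex.add_re, Complex.re_ofReal_mul] at q3 ⊢
  linarith

theorem exists_big (h : Dt r m Λ s c) (h' : Dt r m Λ' s' c') {S : ℝ × ℂ → ℂ} {ε : ℝ}
    (hS : Fam r m ε S) : ∃ R T : ℝ, 0 ≤ T ∧ ∀ u ∈ Icc (0 : ℝ) 1, ∀ (x : E) (d : ℝ), 0 ≤ d →
      (‖x.2‖ ≤ R → T ≤ d) →
      0 < Pf (mix u Λ Λ' x) + ((1 - u) * c (‖x.2‖ ^ 2) + u * c' (‖x.2‖ ^ 2) + d) *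
        fib (mix u Λ Λ' x) ∧
      0 ≤ gr (mix u Λ Λ' x) (fderiv ℝ (fun z => S (u, z)) x.2) +
        ((1 - u) * c (‖x.2‖ ^ 2) + u * c' (‖x.2‖ ^ 2) + d) := by
  obtain ⟨R0, p0, h0⟩ := h.fb.far.dF_far
  obtain ⟨R1, -, h1⟩ := h'.fb.far.dF_far
  obtain ⟨R2, h2⟩ := hS.far
  obtain ⟨R, r0, r1, r2⟩ : ∃ R, R0 ≤ R ∧ R1 ≤ R ∧ R2 ≤ R :=
    ⟨max R0 (max R1 R2), le_max_left _ _, le_max_of_le_right (le_max_left _ _),
      le_max_of_le_right (le_max_right _ _)⟩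
  have hm : ∀ u x, R ≤ ‖x‖ → mix u Λ Λ' x = omL := fun u x hx => by
    rw [mix, (h0 x (r0.trans hx)).2, (h1 x (r1.trans hx)).2]
    refine ContinuousLinearMap.ext fun a => ContinuousLinearMap.ext fun b => ?_
    simp only [add_apply, smul_apply, smul_eq_mul]
    ring
  have hf : ∀ u ∈ Icc (0 : ℝ) 1, ∀ x, 0 < fib (mix u Λ Λ' x) := fun u hu x => by
    have a := h.fb.fp x
    have b := h'.fb.fp x
    simp only [fib, mix, add_apply, smul_apply, smul_eq_mul] at a b ⊢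
    rcases le_total ((dF Λ x) (1, 0) (I, 0)) ((dF Λ' x) (1, 0) (I, 0)) with e | e <;>
      nlinarith [hu.1, hu.2]
  have a1 := (contDiff_dF h.fb.far.sm).continuous
  have a2 := (contDiff_dF h'.fb.far.sm).continuous
  have c2 : Continuous fun p : ℝ × E => fderiv ℝ (fun z => S (p.1, z)) p.2.2 :=
    Continuous.fderiv (n := ∞) (f := fun (p : ℝ × E) z => S (p.1, z))
      (hS.sm.comp (contDiff_fst.fst.prodMk contDiff_snd)) continuous_snd.snd (by simp)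
  have hK : IsCompact (Icc (0 : ℝ) 1 ×ˢ Metric.closedBall (0 : E) R) :=
    isCompact_Icc.prod (isCompact_closedBall _ _)
  obtain ⟨C, hC⟩ := hK.exists_bound_of_continuousOn (f := fun p : ℝ × E =>
      (Pf (mix p.1 Λ Λ' p.2) / fib (mix p.1 Λ Λ' p.2),
        gr (mix p.1 Λ Λ' p.2) (fderiv ℝ (fun z => S (p.1, z)) p.2.2)))
    (ContinuousOn.prodMk (ContinuousOn.div (Continuous.continuousOn (by
        simp only [Pf, mix, add_apply, smul_apply, smul_eq_mul]; fun_prop))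
      (Continuous.continuousOn (by
        simp only [fib, mix, add_apply, smul_apply, smul_eq_mul]; fun_prop)) fun p hp => (hf _ hp.1 _).ne')
      (Continuous.continuousOn (by
        simp only [gr, mix, add_apply, smul_apply, smul_eq_mul]; fun_prop)))
  refine ⟨R, |C| + 1, by positivity, fun u hu x d hd hT => ?_⟩
  have hc : -(1 / 2) ≤ (1 - u) * c (‖x.2‖ ^ 2) + u * c' (‖x.2‖ ^ 2) := by
    nlinarith [h.low (‖x.2‖ ^ 2), h'.low (‖x.2‖ ^ 2), hu.1, hu.2]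
  generalize (1 - u) * c (‖x.2‖ ^ 2) + u * c' (‖x.2‖ ^ 2) = k at hc
  by_cases hx : ‖x.2‖ ≤ R
  · obtain ⟨y, y1, y2, y3⟩ : ∃ y : E, ‖y‖ ≤ R ∧ y.2 = x.2 ∧ mix u Λ Λ' y = mix u Λ Λ' x := by
      rcases le_total ‖x‖ R with e | e
      · exact ⟨x, e, rfl, rfl⟩
      · have : ‖(((R : ℂ), x.2) : E)‖ = R := by
          rw [Prod.norm_def, Complex.norm_real, Real.norm_of_nonneg (p0.le.trans r0),
            max_eq_left hx]
        exact ⟨(R, x.2), this.le, rfl, by rw [hm u x e, hm u _ this.ge]⟩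
    have h3 := hC (u, y) ⟨hu, mem_closedBall_zero_iff.2 y1⟩
    simp only [y2, y3, Prod.norm_def, max_le_iff, Real.norm_eq_abs, abs_le] at h3
    have h4 := (le_div_iff₀ (hf u hu x)).1 h3.1.1
    have h5 := le_abs_self C
    have h6 := hT hx
    exact ⟨by nlinarith [hf u hu x], by linarith [h3.2.1]⟩
  · have e : (fun z => S (u, z)) =ᶠ[𝓝 x.2] fun _ => 0 :=
      ((isOpen_lt continuous_const continuous_norm).eventually_mem (not_le.1 hx)).mono
        fun z hz => h2 u z (r2.trans (le_of_lt hz))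
    rw [hm u x ((not_le.1 hx).le.trans (norm_snd_le x)), e.fderiv_eq, pf_omL, fib_omL, gr_omL]
    simp only [fderiv_fun_const, Pi.zero_apply, zero_apply, w1,
      Complex.zero_re, zero_mul, Complex.zero_im, sub_zero]
    exact ⟨by linarith, by linarith⟩

end Pool.Agent.Lib.MP_7ed551_gt.Cy.FA
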