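import Pool.Agent.Lib.MP_7ed551_gt.Cy.A.Defs
import Pool.Agent.Lib.MP_7ed551_gt.Flow

/-! From symplectomorphisms to Hamiltonian isotopies. -/

open scoped ContDiff Topology
open Set Real Filter
open Complex (I)

noncomputable section

namespace Pool.Agent.Lib.MP_7ed551_gt.Cy.FA

open Pool.Agent.Lib.MP_ccffa6_gt (Form1 Bil dF pb dF_apply dF_add dF_smul dF_pb dF_fderiv
  contDiff_dF contDiff_pb)

def ham_trans_a (c t : ℝ) : ℝ := smoothTransition (4 * t - c)

theorem ham_trans_sm (c : ℝ) : ContDiff ℝ ∞ (ham_trans_a c) :=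
  smoothTransition.contDiff.comp (by fun_prop)

theorem ham_trans_lo {c t : ℝ} (h : 4 * t < c) : ham_trans_a c =ᶠ[𝓝 t] fun _ => 0 :=
  ((isOpen_lt (by fun_prop : Continuous fun t : ℝ => 4 * t) continuous_const).eventually_mem h).mono
    fun s hs => smoothTransition.zero_of_nonpos (sub_nonpos.2 (le_of_lt hs))

theorem ham_trans_hi {c t : ℝ} (h : c + 1 < 4 * t) : ham_trans_a c =ᶠ[𝓝 t] fun _ => 1 :=
  ((isOpen_lt continuous_const (by fun_prop : Continuous fun t : ℝ => 4 * t)).eventually_mem h).mono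
    fun s hs => smoothTransition.one_of_one_le (by have : c + 1 < 4 * s := hs; linarith)

theorem ham_trans_H {H : ℝ × E → ℝ} (hH : ContDiff ℝ ∞ H) (hc : HasCompactSupport H) (c : ℝ) :
    (ContDiff ℝ ∞ fun p : ℝ × E => deriv (ham_trans_a c) p.1 * H (ham_trans_a c p.1, p.2)) ∧
      HasCompactSupport fun p : ℝ × E => deriv (ham_trans_a c) p.1 * H (ham_trans_a c p.1, p.2) := by
  refine ⟨(((ham_trans_sm c).iterate_deriv 1).comp contDiff_fst).mul
    (hH.comp (((ham_trans_sm c).comp contDiff_fst).prodMk contDiff_snd)), ?_⟩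
  refine HasCompactSupport.intro ((isCompact_Icc (a := c / 4) (b := (c + 1) / 4)).prod
    (hc.isCompact.image continuous_snd)) fun p hp => ?_
  by_cases h1 : 4 * p.1 < c
  · simp [(ham_trans_lo h1).deriv_eq]
  by_cases h2 : c + 1 < 4 * p.1
  · simp [(ham_trans_hi h2).deriv_eq]
  rw [image_eq_zero_of_notMem_tsupport (f := H), mul_zero]
  exact fun e => hp ⟨⟨by linarith, by linarith⟩, _, e, rfl⟩

theorem ham_trans_d {H : ℝ × E → ℝ} {φ : ℝ → E → E}
    (h : ∀ x, ∀ t ∈ Icc (0 : ℝ) 1, ∃ v, HasDerivWithinAt (fun s => φ s x) v (Icc 0 1) t ∧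
      ∀ w, om v w = fderiv ℝ (fun y => H (t, y)) (φ t x) w) (c : ℝ) (x : E) (t : ℝ) :
    ∃ v, HasDerivAt (fun s => φ (ham_trans_a c s) x) v t ∧ ∀ w, om v w = fderiv ℝ
      (fun y => deriv (ham_trans_a c) t * H (ham_trans_a c t, y)) (φ (ham_trans_a c t) x) w := by
  have m : ∀ s, ham_trans_a c s ∈ Icc (0 : ℝ) 1 := fun s =>
    ⟨smoothTransition.nonneg _, smoothTransition.le_one _⟩
  obtain ⟨v, hv, e⟩ := h x _ (m t)
  refine ⟨_, hv.scomp_hasDerivAt t ((ham_trans_sm c).differentiable (by simp) t).hasDerivAt m,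
    fun w => ?_⟩
  have := fderiv_const_smul_field (𝕜 := ℝ) (f := fun y => H (ham_trans_a c t, y))
    (deriv (ham_trans_a c) t)
  rw [show (fun y => deriv (ham_trans_a c) t * H (ham_trans_a c t, y)) =
    deriv (ham_trans_a c) t • fun y => H (ham_trans_a c t, y) from rfl, this, Pi.smul_apply,
    smul_apply, ← e]
  simp only [om, w1, Prod.smul_fst, Prod.smul_snd, Complex.smul_re, Complex.smul_im, smul_eq_mul]
  ring

theorem ham_trans {L L' L'' : Set E} (h : HamIso L L') (h' : HamIso L' L'') : HamIso L L'' := by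
  obtain ⟨H, φ, s1, c1, z1, d1, rfl⟩ := h
  obtain ⟨G, ψ, s2, c2, z2, d2, rfl⟩ := h'
  obtain ⟨s3, c3⟩ := ham_trans_H s1 c1 (1 / 2)
  obtain ⟨s4, c4⟩ := ham_trans_H s2 c2 (5 / 2)
  refine ⟨_, fun t x => ψ (ham_trans_a (5 / 2) t) (φ (ham_trans_a (1 / 2) t) x), s3.add s4,
    c3.add c4, fun x => ?_, fun x t _ => ?_, ?_⟩
  · simp only [(ham_trans_lo (c := 5 / 2) (t := 0) (by norm_num)).self_of_nhds,
      (ham_trans_lo (c := 1 / 2) (t := 0) (by norm_num)).self_of_nhds, z1, z2]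
  · by_cases ht : 4 * t < 5 / 2
    · have e := ham_trans_lo ht
      obtain ⟨v, hv, ev⟩ := ham_trans_d d1 (1 / 2) x t
      refine ⟨v, (hv.congr_of_eventuallyEq (e.mono fun s hs => ?_)).hasDerivWithinAt, fun w => ?_⟩
      · simp only [hs, z2]
      · simp only [ev, e.deriv_eq, e.self_of_nhds, z2, deriv_const, zero_mul, add_zero]
    · have e := ham_trans_hi (c := 1 / 2) (t := t) (by linarith)
      obtain ⟨v, hv, ev⟩ := ham_trans_d d2 (5 / 2) (φ 1 x) t
      refine ⟨v, (hv.congr_of_eventuallyEq (e.mono fun s hs => ?_)).hasDerivWithinAt, fun w => ?_⟩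
      · simp only [hs]
      · simp only [ev, e.deriv_eq, e.self_of_nhds, deriv_const, zero_mul, zero_add]
  · simp only [(ham_trans_hi (c := 5 / 2) (t := 1) (by norm_num)).self_of_nhds,
      (ham_trans_hi (c := 1 / 2) (t := 1) (by norm_num)).self_of_nhds, image_image]

theorem ham_of_symp_aux {F F' : E → E} (h : Dif F F') (x w : E) :
    fderiv ℝ F x (fderiv ℝ F' (F x) w) = w := by
  have h1 := (h.sm.differentiable (by simp) (F' (F x))).hasFDerivAt.comp (F x)
    (h.sm'.differentiable (by simp) (F x)).hasFDerivAt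
  rw [show F ∘ F' = id from funext h.right, h.left] at h1
  exact DFunLike.congr_fun (h1.unique (hasFDerivAt_id _)) w

theorem ham_of_symp {F F' : E → E} (h : Dif F F')
    (hs : ∀ x u v, om (fderiv ℝ F x u) (fderiv ℝ F x v) = om u v) {K : Set E} (hK : IsCompact K) :
    HamIso K (F '' K) := by
  obtain ⟨R, hR⟩ := h.far
  obtain ⟨C, hC⟩ := hK.isBounded.exists_norm_le
  obtain ⟨v, hv⟩ := NormedSpace.exists_lt_norm ℝ E (R + C)
  have c1 := h.sm
  have c2 := h.sm'
  have hG : ContDiff ℝ ∞ fun q : ℝ × E => omL v q.2 - omL v (F' (q.2 + (1 - q.1) • v)) := by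
    fun_prop
  have k := hamIso_of_curves (Γ := fun s x => F (x + (1 - s) • v) - (1 - s) • v) hK isOpen_univ
    hG.contDiffOn (by have := c1.continuous; fun_prop) (fun _ _ _ _ => mem_univ _) fun x _ s _ => by
      have d0 : HasDerivAt (fun s : ℝ => (1 - s) • v) (-v) s := by
        simpa using ((hasDerivAt_id s).const_sub 1).smul_const v
      refine ⟨_, ((c1.differentiable (by simp) _).hasFDerivAt.comp_hasDerivAt s
        (d0.const_add x)).sub d0, fun w => ?_⟩
      have d1 := (omL v).hasFDerivAt.fun_sub ((omL v).hasFDerivAt.comp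
        (F (x + (1 - s) • v) - (1 - s) • v) ((c2.differentiable (by simp) _).hasFDerivAt.comp _
          ((hasFDerivAt_id _).add_const ((1 - s) • v))))
      rw [← fderiv_slice (hG.differentiable (by simp) _)]
      refine Eq.trans ?_ (DFunLike.congr_fun d1.fderiv w).symm
      have e := hs (x + (1 - s) • v) v (fderiv ℝ F' (F (x + (1 - s) • v)) w)
      rw [ham_of_symp_aux h, ← omL_apply, ← omL_apply] at e
      simp [← omL_apply, e, neg_add_eq_sub]
  have e : (fun x => F (x + (1 - (0 : ℝ)) • v) - (1 - (0 : ℝ)) • v) '' K = K := by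
    refine (image_congr fun x hx => ?_).trans (image_id K)
    have := norm_sub_norm_le v (-x)
    rw [sub_neg_eq_add, add_comm, norm_neg] at this
    rw [sub_zero, one_smul, hR _ (by linarith [hC x hx]), add_sub_cancel_right, id]
  rw [e] at k
  simpa using k

theorem isCompact_Ls (r : ℝ) : IsCompact (Ls r) := by
  exact cov_compact (C := r) ((isClosed_eq (f := fun y : E => ‖y.1‖) (by fun_prop)
    continuous_const).inter (isClosed_eq (f := fun y : E => ‖y.2‖) (by fun_prop) continuous_const))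
    fun x hx => max_le hx.1.le hx.2.le

theorem ham_of_rel {r : ℝ} {Φ Φ' Ψ Ψ' : E → E} (hΦ : Dif Φ Φ') (hΨ : Dif Ψ Ψ')
    (h : Rel r (pb Φ lam0) (pb Ψ lam0)) : HamIso (Φ '' Ls r) (Ψ '' Ls r) := by
  obtain ⟨ψ, ψ', h1, h2, h3⟩ := h
  have k := ham_of_symp (hΨ.comp (h1.comp hΦ.symm)) (fun y u v => ?_)
    ((isCompact_Ls r).image hΦ.sm.continuous)
  · rw [image_image] at k
    simp only [hΦ.left] at k
    rwa [← image_image Ψ ψ, h2] at k
  obtain ⟨x, rfl⟩ : ∃ x, Φ x = y := ⟨_, hΦ.right y⟩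
  have d := (hΨ.sm.differentiable (by simp) _).hasFDerivAt.comp (Φ x)
    ((h1.sm.differentiable (by simp) _).hasFDerivAt.comp (Φ x)
      (hΦ.sm'.differentiable (by simp) (Φ x)).hasFDerivAt)
  have e := h3 x (fderiv ℝ Φ' (Φ x) u) (fderiv ℝ Φ' (Φ x) v)
  have l := contDiff_lam0.differentiable (by simp)
  rw [dF_pb (hΨ.sm.contDiffAt.of_le (by norm_cast)) (l _),
    dF_pb (hΦ.sm.contDiffAt.of_le (by norm_cast)) (l _), dF_lam0, dF_lam0,
    ham_of_symp_aux hΦ, ham_of_symp_aux hΦ] at e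
  rw [HasFDerivAt.fderiv (f := fun y => Ψ (ψ (Φ' y))) d, Function.comp_apply, hΦ.left]
  exact e

end Pool.Agent.Lib.MP_7ed551_gt.Cy.FA
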