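import Pool.Agent.Lib.MP_7ed551_gt.Cy.A.Mas
import Pool.Agent.Lib.MP_7ed551_gt.Cy.A.Fam
import Pool.Agent.Lib.MP_7ed551_gt.Cy.A.Col

/-! Inflation. -/

open scoped ContDiff Topology
open Set Real Filter
open Complex (I)

noncomputable section

namespace Pool.Agent.Lib.MP_7ed551_gt.Cy.FA

open Pool.Agent.Lib.MP_ccffa6_gt (Form1 Bil dF pb dF_apply dF_add dF_smul dF_pb dF_fderiv
  contDiff_dF contDiff_pb)

variable {r ε T : ℝ} {m : ℕ} {Λ Λ' : Form1 E} {s s' : ℂ → ℂ} {c c' c₀ f : ℝ → ℝ}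
  {η η₀ α : Form1 ℂ}

theorem mix_self (u : ℝ) (Λ : Form1 E) (x : E) : mix u Λ Λ x = dF Λ x := by
  refine ContinuousLinearMap.ext fun a => ContinuousLinearMap.ext fun b => ?_
  simp only [mix, add_apply, smul_apply, smul_eq_mul]
  ring

theorem mas_ge (m : ℕ) : 1 ≤ mas m := by
  unfold mas
  split_ifs with h
  · exact le_rfl
  · exact Nat.one_le_cast.2 (Nat.pos_of_ne_zero h)

theorem Rad.mass (r1 : Rad η c) (r0 : Rad η₀ c₀) (m1 : ∫ y in (0 : ℝ)..r ^ 2, c y = 0)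
    (m0 : (π * ∫ y in (0 : ℝ)..r ^ 2, c₀ y) = 1) (k : ℝ) :
    (π * ∫ y in (0 : ℝ)..r ^ 2, (c y + k * c₀ y)) = k := by
  rw [intervalIntegral.integral_add (r1.cont.intervalIntegrable _ _)
    ((r0.cont.const_mul k).intervalIntegrable _ _), m1, intervalIntegral.integral_const_mul]
  linear_combination k * m0

theorem inflate (hr : 0 < r) (h : Dt r m Λ s c) (hg : GoodG ε Λ s c)
    (hf : Fam r m ε fun p => s p.2) (r1 : Rad η c) (r0 : Rad η₀ c₀) (hα : Bump α f ε)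
    (n0 : ∀ y, 0 ≤ c₀ y) (m0 : (π * ∫ y in (0 : ℝ)..r ^ 2, c₀ y) = 1) (hT : 0 ≤ T) :
    RR r 1 Λ (kap r m T) (Tot Λ (fun z => η z + (mas m * T) • η₀ z) α s T) := by
  have k0 : kap r m 0 = 1 := by
    rw [kap, ext, ite_self, add_zero, div_self (by positivity)]
  have k1 : 0 ≤ mas m * T := mul_nonneg (zero_le_one.trans (mas_ge m)) hT
  have a := master hr h.fb.far h.fb.far h.fb.onL h.fb.onL rad_zero r1 hα le_rfl le_rfl
    (fun _ => by norm_num) h.low (by simp) (by rw [h.mass, mul_zero, mul_zero]) hf fun u hu x => by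
      have h1 := mul_nonneg (sub_nonneg.2 hu.2) (h.fb.pf x).le
      have h2 := mul_nonneg hu.1 (h.pf x).le
      rw [mix_self]
      rcases hu.1.eq_or_lt with e | e
      · simpa [← e] using h.fb.pf x
      · linarith [mul_pos e (h.pf x)]
  have b := master hr h.fb.far h.fb.far h.fb.onL h.fb.onL r1 (r1.add (r0.smul (mas m * T))) hα
    le_rfl hT h.low (fun y => (h.low y).trans (le_add_of_nonneg_right (mul_nonneg k1 (n0 y))))
    (by rw [h.mass, mul_zero, mul_zero]) (r1.mass r0 h.mass m0 _) hf fun u hu x => by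
      have h1 := mul_nonneg hu.1 (mul_nonneg k1 (n0 (‖x.2‖ ^ 2)))
      have h2 := mul_nonneg h1 (h.fb.fp x).le
      have h3 : 0 ≤ f (‖x.1 - s x.2‖ ^ 2) * (gr (dF Λ x) (fderiv ℝ s x.2) + c (‖x.2‖ ^ 2) +
          u * (mas m * T * c₀ (‖x.2‖ ^ 2))) := by
        rcases le_total ‖x.1 - s x.2‖ ε with e | e
        · exact mul_nonneg (hα.nn _) (add_nonneg (hg x e) h1)
        · rw [hα.out _ (pow_le_pow_left₀ hα.pos.le e 2), zero_mul]
      rw [mix_self]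
      linarith [h.pf x, mul_nonneg (mul_nonneg hu.1 hT) h3]
  rw [tot_zero, k0] at a
  exact a.trans (k0 ▸ b)

theorem rel_of_pre (hr : 0 < r) (h : Dt r m Λ s c) (hp : PreG r Λ s c) (h' : Dt r m Λ' s' c')
    (hp' : PreG r Λ' s' c') : Rel r Λ Λ' := by
  obtain ⟨c₁, ε₁, e1, d1, g1⟩ := exists_good hr h hp
  obtain ⟨c₂, ε₂, e2, d2, g2⟩ := exists_good hr h' hp'
  obtain ⟨S, s1, s2, s3, s4, s5⟩ := exists_fam hr d1 d2
  obtain ⟨δ₀, p0, q0⟩ := fam_of hr s1 s2 s3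
  obtain ⟨δ₁, p1, q1⟩ := fam_of hr (S := fun p => s p.2) (d1.sms.comp contDiff_snd)
    (d1.far.imp fun _ h _ => h) fun _ _ => d1.pos
  obtain ⟨δ₂, p2, q2⟩ := fam_of hr (S := fun p => s' p.2) (d2.sms.comp contDiff_snd)
    (d2.far.imp fun _ h _ => h) fun _ _ => d2.pos
  obtain ⟨ε, e0, he⟩ : ∃ ε, 0 < ε ∧ ε ≤ min (min ε₁ ε₂) (min δ₀ (min δ₁ δ₂)) :=
    ⟨_, by positivity, le_rfl⟩
  simp only [le_min_iff] at he
  obtain ⟨⟨a1, a2⟩, a3, a4, a5⟩ := he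
  obtain ⟨α, f, hα⟩ := exists_bump e0
  obtain ⟨R, T, hT, big⟩ := exists_big d1 d2 (q0 ε a3)
  obtain ⟨c₀, b1, b2, n0, m0, b3⟩ := exists_plateau hr R
  obtain ⟨η₀, r0⟩ := exists_rad b1 b2
  obtain ⟨η₁, r1⟩ := exists_rad d1.smc d1.cpt
  obtain ⟨η₂, r2⟩ := exists_rad d2.smc d2.cpt
  have t0 : 0 ≤ π * r ^ 2 * T := by positivity
  have k1 := mul_nonneg (zero_le_one.trans (mas_ge m)) t0
  have a := master hr h.fb.far h'.fb.far h.fb.onL h'.fb.onL (r1.add (r0.smul _))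
    (r2.add (r0.smul _)) hα t0 t0
    (fun y => (d1.low y).trans (le_add_of_nonneg_right (mul_nonneg k1 (n0 y))))
    (fun y => (d2.low y).trans (le_add_of_nonneg_right (mul_nonneg k1 (n0 y))))
    (r1.mass r0 d1.mass m0 _) (r2.mass r0 d2.mass m0 _) (q0 ε a3) fun u hu x => by
      obtain ⟨h1, h2⟩ := big u hu x _ (mul_nonneg k1 (n0 (‖x.2‖ ^ 2))) fun e => by
        rw [b3 _ e, mul_assoc, mul_one_div, mul_div_cancel_left₀ _ (by positivity)]
        exact le_mul_of_one_le_left hT (mas_ge m)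
      linarith [mul_nonneg (mul_nonneg t0 (hα.nn (‖x.1 - S (u, x.2)‖ ^ 2))) h2]
  simp only [s4, s5] at a
  exact ((inflate hr d1 (fun x e => g1 x (e.trans a1)) (q1 ε a4) r1 r0 hα n0 m0 t0).trans (a.trans
    (inflate hr d2 (fun x e => g2 x (e.trans a2)) (q2 ε a5) r2 r0 hα n0 m0 t0).symm)).rel
    h.fb.far h'.fb.far

end Pool.Agent.Lib.MP_7ed551_gt.Cy.FA
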