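import Pool.Agent.Lib.MP_7ed551_gt.Cy.A.Defs

/-! Linear algebra of two-forms on `E`. -/

open scoped ContDiff Topology
open Set Real Filter
open Complex (I)

noncomputable section

namespace Pool.Agent.Lib.MP_7ed551_gt.Cy.FA

open Pool.Agent.Lib.MP_ccffa6_gt (Form1 Bil dF pb dF_apply dF_add dF_smul dF_pb dF_fderiv
  contDiff_dF contDiff_pb)

variable {μ Ω : Bil E}

theorem bil_left_aux (u : E) : u = u.1.re • ((1, 0) : E) + u.1.im • ((I, 0) : E) +
    u.2.re • ((0, 1) : E) + u.2.im • ((0, I) : E) := by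
  ext <;> simp

theorem bil_left (μ : Bil E) (u v : E) : μ u v = u.1.re * μ (1, 0) v + u.1.im * μ (I, 0) v +
    u.2.re * μ (0, 1) v + u.2.im * μ (0, I) v := by
  conv_lhs => rw [bil_left_aux u]
  simp only [map_add, map_smul, add_apply, smul_apply, smul_eq_mul]

theorem bil_right (μ : Bil E) (u v : E) : μ u v = v.1.re * μ u (1, 0) + v.1.im * μ u (I, 0) +
    v.2.re * μ u (0, 1) + v.2.im * μ u (0, I) := by
  conv_lhs => rw [bil_left_aux v]
  simp only [map_add, map_smul, smul_eq_mul]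

theorem fib_omL : fib omL = 1 := by
  simp [fib, omL_apply, om, w1]

theorem pf_omL : Pf omL = 1 := by
  simp [Pf, omL_apply, om, w1]

theorem aom_omL : Aom omL = 0 := by
  simp [Aom, omL_apply, om, w1, Complex.ext_iff]

theorem gr_omL (L : ℂ →L[ℝ] ℂ) : gr omL L = 1 + w1 (L 1) (L I) := by
  simp [gr, omL_apply, om, w1, add_comm]

theorem pf_smul (k : ℝ) (μ : Bil E) : Pf (k • μ) = k ^ 2 * Pf μ := by
  simp only [Pf, smul_apply, smul_eq_mul]
  ring

theorem pf_ne_iff_aux (h : Alt μ) (u v : E) : μ u v =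
    μ (1, 0) (I, 0) * (u.1.re * v.1.im - u.1.im * v.1.re) +
    μ (1, 0) (0, 1) * (u.1.re * v.2.re - u.2.re * v.1.re) +
    μ (1, 0) (0, I) * (u.1.re * v.2.im - u.2.im * v.1.re) +
    μ (I, 0) (0, 1) * (u.1.im * v.2.re - u.2.re * v.1.im) +
    μ (I, 0) (0, I) * (u.1.im * v.2.im - u.2.im * v.1.im) +
    μ (0, 1) (0, I) * (u.2.re * v.2.im - u.2.im * v.2.re) := by
  have z : ∀ x, μ x x = 0 := fun x => by linarith [h x x]
  rw [bil_left, bil_right μ (1, 0), bil_right μ (I, 0), bil_right μ (0, 1), bil_right μ (0, I),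
    z, z, z, z, h (I, 0) (1, 0), h (0, 1) (1, 0), h (0, I) (1, 0), h (0, 1) (I, 0),
    h (0, I) (I, 0), h (0, I) (0, 1)]
  ring

theorem pf_ne_iff (h : Alt μ) : Pf μ ≠ 0 ↔ Function.Injective μ := by
  rw [injective_iff_map_eq_zero]
  have e := pf_ne_iff_aux h
  rw [Pf]
  generalize μ (1, 0) (I, 0) = a, μ (1, 0) (0, 1) = b, μ (1, 0) (0, I) = c, μ (I, 0) (0, 1) = d,
    μ (I, 0) (0, I) = f, μ (0, 1) (0, I) = g at e
  refine ⟨fun h0 u hu => ?_, fun hi h0 => ?_⟩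
  · have e1 := e u (1, 0)
    have e2 := e u (I, 0)
    have e3 := e u (0, 1)
    have e4 := e u (0, I)
    simp only [hu, zero_apply, Complex.one_re, Complex.one_im, Complex.I_re, Complex.I_im,
      Complex.zero_re, Complex.zero_im] at e1 e2 e3 e4
    refine Prod.ext (Complex.ext ?_ ?_) (Complex.ext ?_ ?_) <;> refine mul_left_cancel₀ h0 ?_ <;>
      simp only [Prod.fst_zero, Prod.snd_zero, Complex.zero_re, Complex.zero_im]
    · linear_combination -g * e2 + f * e3 - d * e4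
    · linear_combination g * e1 - c * e3 + b * e4
    · linear_combination -f * e1 + c * e2 - a * e4
    · linear_combination d * e1 - b * e2 + a * e3
  · have k : ∀ u : E, (∀ v, μ u v = 0) → u.1.re = 0 ∧ u.1.im = 0 ∧ u.2.re = 0 ∧ u.2.im = 0 :=
      fun u hu => by simp [hi u (ContinuousLinearMap.ext hu)]
    have h1 := k (⟨0, g⟩, ⟨-f, d⟩) fun v => by
      rw [e]; linear_combination -v.1.re * h0
    have h2 := k (⟨g, 0⟩, ⟨-c, b⟩) fun v => by
      rw [e]; linear_combination v.1.im * h0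
    have h3 := k (⟨f, -c⟩, ⟨0, a⟩) fun v => by
      rw [e]; linear_combination -v.2.re * h0
    simp only [neg_eq_zero] at h1 h2 h3
    exact one_ne_zero (k (1, 0) fun v => by simp [e, h1, h2, h3]).1

theorem pf_ne_of_tame (h : Alt μ) (ht : ∀ v, v ≠ 0 → 0 < μ v (J0 v)) : Pf μ ≠ 0 := by
  refine (pf_ne_iff h).2 ((injective_iff_map_eq_zero _).2 fun v hv => by_contra fun h0 => ?_)
  simpa [hv] using ht v h0

theorem pf_add (h : Alt μ) (c t : ℝ) (L : ℂ →L[ℝ] ℂ)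
    (e : ∀ u v, Ω u v = μ u v + c * w1 u.2 v.2 + t * w1 (u.1 - L u.2) (v.1 - L v.2)) :
    Pf Ω = Pf μ + c * fib μ + t * (gr μ L + c) := by
  rw [gr, pf_ne_iff_aux h (L 1, 1)]
  simp only [Pf, fib, e, w1, map_zero, sub_zero, zero_sub, Complex.one_re, Complex.one_im,
    Complex.I_re, Complex.I_im, Complex.zero_re, Complex.zero_im, Complex.neg_re, Complex.neg_im]
  ring

theorem gr_ge (h : Alt μ) (h0 : 0 < fib μ) (L : ℂ →L[ℝ] ℂ) :
    Pf μ / fib μ - fib μ * ‖(L 1 + I * L I) / 2 - Aom μ‖ ^ 2 ≤ gr μ L := by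
  rw [gr, pf_ne_iff_aux h (L 1, 1), Aom, h (0, 1) (1, 0), h (0, I) (1, 0), h (0, 1) (I, 0),
    h (0, I) (I, 0), Pf, Complex.sq_norm, Complex.normSq_apply]
  rw [fib] at h0 ⊢
  generalize μ (1, 0) (I, 0) = a, μ (1, 0) (0, 1) = b, μ (1, 0) (0, I) = c, μ (I, 0) (0, 1) = d,
    μ (I, 0) (0, I) = f, μ (0, 1) (0, I) = g, L 1 = p, L I = q at *
  simp only [Complex.sub_re, Complex.sub_im, Complex.div_ofReal_re, Complex.div_ofReal_im,
    Complex.div_ofNat_re, Complex.div_ofNat_im, Complex.add_re, Complex.add_im, Complex.mul_re,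
    Complex.mul_im, Complex.one_re, Complex.one_im, Complex.I_re, Complex.I_im]
  rw [← sub_nonneg]
  refine le_of_le_of_eq (div_nonneg (add_nonneg (sq_nonneg (a * (p.re + q.im) - d + c))
    (sq_nonneg (a * (p.im - q.re) + b + f))) (by positivity : 0 ≤ 4 * a)) ?_
  field_simp
  ring

theorem lag_perp_aux (h : Alt μ) (h0 : Pf μ ≠ 0) {T : E →L[ℝ] E} (hT : Function.Injective T)
    (e : ∀ u v, Ω u v = μ (T u) (T v)) : Pf Ω ≠ 0 := by
  refine (pf_ne_iff fun u v => by rw [e, e, h]).2 ((injective_iff_map_eq_zero _).2 fun u hu => ?_)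
  refine (map_eq_zero_iff T hT).1 ((map_eq_zero_iff μ ((pf_ne_iff h).1 h0)).1
    (ContinuousLinearMap.ext fun w => ?_))
  obtain ⟨v, rfl⟩ := (LinearMap.injective_iff_surjective (f := (T : E →ₗ[ℝ] E))).1 hT w
  exact (e u v).symm.trans (by rw [hu]; rfl)

theorem lag_perp (h : Alt μ) (h0 : Pf μ ≠ 0) {y X : E} (h1 : y.1 ≠ 0) (h2 : y.2 ≠ 0)
    (hl : μ (0, I * y.2) (I * y.1, 0) = 0) (e1 : μ X (0, I * y.2) = 0)
    (e2 : μ X (I * y.1, 0) = 0) : ∃ a b : ℝ, X = (a * (I * y.1), b * (I * y.2)) := by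
  let T : E →L[ℝ] E := (ContinuousLinearMap.mul ℝ ℂ y.1).prodMap (ContinuousLinearMap.mul ℝ ℂ y.2)
  have hT : ∀ a b, T (a, b) = (a * y.1, b * y.2) := fun a b => Prod.ext (mul_comm _ _) (mul_comm _ _)
  obtain ⟨ν, e⟩ : ∃ ν : Bil E, ∀ u v, ν u v = μ (T u) (T v) := ⟨μ.bilinearComp T T, fun _ _ => rfl⟩
  have hp := lag_perp_aux h h0 (T := T) (fun u v huv => Prod.ext
    (mul_left_cancel₀ h1 (congrArg Prod.fst huv)) (mul_left_cancel₀ h2 (congrArg Prod.snd huv))) e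
  have al : Alt ν := fun u v => by rw [e, e, h]
  obtain ⟨p, q, rfl⟩ : ∃ p q, X = T (p, q) :=
    ⟨X.1 / y.1, X.2 / y.2, by rw [hT, div_mul_cancel₀ _ h1, div_mul_cancel₀ _ h2]⟩
  have f0 : ν (0, I) (I, 0) = 0 := by rwa [e, hT, hT, zero_mul, zero_mul]
  have f1 : ν (p, q) (0, I) = 0 := by rwa [e, hT 0, zero_mul]
  have f2 : ν (p, q) (I, 0) = 0 := by rwa [e, hT I, zero_mul]
  rw [bil_left] at f1 f2
  have g1 : ν (0, I) (0, I) = 0 := by linarith [al (0, I) (0, I)]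
  have g2 : ν (I, 0) (I, 0) = 0 := by linarith [al (I, 0) (I, 0)]
  have g3 : ν (I, 0) (0, I) = 0 := by linarith [al (I, 0) (0, I)]
  rw [g1, g3] at f1
  rw [g2, f0, al (0, 1)] at f2
  rw [Pf, g3] at hp
  have p0 : p.re = 0 := (mul_eq_zero.1 (by
    linear_combination ν (I, 0) (0, 1) * f1 + ν (0, 1) (0, I) * f2)).resolve_right hp
  have q0 : q.re = 0 := (mul_eq_zero.1 (by
    linear_combination ν (1, 0) (I, 0) * f1 - ν (1, 0) (0, I) * f2)).resolve_right hp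
  refine ⟨p.im, q.im, (hT p q).trans (Prod.ext ?_ ?_)⟩
  · simp [← mul_assoc, Complex.ext_iff, p0]
  · simp [← mul_assoc, Complex.ext_iff, q0]

theorem pos_of_ne {V : Type} [NormedAddCommGroup V] [NormedSpace ℝ V] {g : V → ℝ}
    (hg : Continuous g) (h0 : ∀ x, g x ≠ 0) {x₀ : V} (h1 : 0 < g x₀) (x : V) : 0 < g x :=
  not_le.1 fun h => (intermediate_value_univ x x₀ hg ⟨h, h1.le⟩).elim h0

theorem jac_pos {h : ℂ → ℂ} (hs : ContDiff ℝ ∞ h) (hi : ∀ z, Function.Injective (fderiv ℝ h z))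
    (hf : ∃ R : ℝ, ∀ z, R ≤ ‖z‖ → h z = z) (z : ℂ) :
    0 < w1 (fderiv ℝ h z 1) (fderiv ℝ h z I) := by
  obtain ⟨R, hR⟩ := hf
  have hc := hs.continuous_fderiv (by simp)
  refine pos_of_ne (g := fun z => w1 (fderiv ℝ h z 1) (fderiv ℝ h z I)) (by unfold w1; fun_prop)
    (fun z e => ?_) (x₀ := ((|R| + 1 : ℝ) : ℂ)) ?_ z
  · have k : ∀ a b : ℝ, a • fderiv ℝ h z 1 + b • fderiv ℝ h z I = 0 → a = 0 := fun a b h' => by
      rw [← map_smul, ← map_smul, ← map_add, map_eq_zero_iff _ (hi z)] at h'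
      simpa using congrArg Complex.re h'
    rw [w1] at e
    refine Complex.I_ne_zero ((map_eq_zero_iff _ (hi z)).1 (Complex.ext
      (k _ (-(fderiv ℝ h z 1).re) ?_) (k _ (-(fderiv ℝ h z 1).im) ?_))) <;>
    refine Complex.ext ?_ ?_ <;> simp <;> linarith
  · have e : h =ᶠ[𝓝 ((|R| + 1 : ℝ) : ℂ)] id :=
      ((isOpen_lt continuous_const continuous_norm).eventually_mem (show R < _ by
        rw [Complex.norm_real, Real.norm_of_nonneg (by positivity)]
        linarith [le_abs_self R])).mono fun y hy => hR y (le_of_lt hy)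
    simp only [e.fderiv_eq, fderiv_id]
    simp [w1]

theorem cont_fib : Continuous fib := by
  unfold fib
  fun_prop

theorem cont_pf : Continuous Pf := by
  unfold Pf
  fun_prop

theorem cont_gr : Continuous fun p : Bil E × (ℂ →L[ℝ] ℂ) => gr p.1 p.2 := by
  unfold gr
  fun_prop

theorem Far.pb {Λ : Form1 E} (h : Far Λ) {Φ Φ' : E → E} (hΦ : Dif Φ Φ') : Far (pb Φ Λ) := by
  obtain ⟨R, hR⟩ := h.far
  obtain ⟨S, hS⟩ := hΦ.far
  refine ⟨contDiff_pb hΦ.sm h.sm, max R S + 1, fun x hx => ?_⟩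
  have e : Φ =ᶠ[𝓝 x] id := ((isOpen_lt continuous_const continuous_norm).eventually_mem
    (show S < ‖x‖ by linarith [le_max_right R S])).mono fun y hy => hS y (le_of_lt hy)
  rw [Pool.Agent.Lib.MP_ccffa6_gt.pb, e.fderiv_eq, e.eq_of_nhds, fderiv_id, id,
    hR x (by linarith [le_max_left R S]), ContinuousLinearMap.comp_id]

theorem Far.pf_pb {Λ : Form1 E} (h : Far Λ) (h0 : ∀ x, Pf (dF Λ x) ≠ 0) {Φ Φ' : E → E}
    (hΦ : Dif Φ Φ') (x : E) : 0 < Pf (dF (Pool.Agent.Lib.MP_ccffa6_gt.pb Φ Λ) x) := by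
  obtain ⟨R, r0, hR⟩ := (h.pb hΦ).dF_far
  refine pos_of_ne (cont_pf.comp (contDiff_dF (h.pb hΦ).sm).continuous)
    (fun y => lag_perp_aux (alt_dF Λ _) (h0 (Φ y)) (hΦ.inj_fderiv y)
      (dF_pb (hΦ.sm.contDiffAt.of_le (by norm_cast)) (h.sm.differentiable (by simp) _)))
    (x₀ := ((R : ℂ), 0)) ?_ x
  rw [Function.comp, (hR _ (by simp [Prod.norm_def, le_abs_self])).2, pf_omL]
  exact one_pos

end Pool.Agent.Lib.MP_7ed551_gt.Cy.FA
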