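import Pool.Agent.Lib.MP_7ed551_gt.Cy.A.Defs
import Pool.Agent.Lib.MP_7ed551_gt.Dich

/-! The model tori. -/

open scoped ContDiff Topology
open Set Real Filter
open Complex (I)

noncomputable section

namespace Pool.Agent.Lib.MP_7ed551_gt.Cy.FA

open Pool.Agent.Lib.MP_ccffa6_gt (Form1 Bil dF pb dF_apply dF_add dF_smul dF_pb dF_fderiv
  contDiff_dF contDiff_pb)

/-- The loop of centres. -/
def pm (r : ℝ) (m : ℕ) (θ : ℝ) : ℂ := 2 * r * Complex.exp (-(m * θ * I))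

/-- The height. -/
def km (r : ℝ) (m : ℕ) (θ : ℝ) (w : ℂ) : ℝ :=
  r ^ 2 / 2 + 2 * m * r ^ 2 + w1 (-(m * I) * pm r m θ) w

/-- The model torus. -/
def Tm (r : ℝ) (m : ℕ) (x : ℝ × ℝ) : E :=
  (r * Complex.exp (x.2 * I) + pm r m x.1, √(2 * km r m x.1 (r * Complex.exp (x.2 * I))) * Complex.exp (x.1 * I))

variable {r : ℝ} {m : ℕ}

theorem hd_pm (r : ℝ) (m : ℕ) (θ : ℝ) : HasDerivAt (pm r m) (-(m * I) * pm r m θ) θ :=
  ((((hasDerivAt_id θ).ofReal_comp.const_mul (m : ℂ)).mul_const I).neg.cexp.const_mul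
    (2 * r : ℂ)).congr_deriv (by simp [pm]; ring)

theorem norm_pm (hr : 0 < r) (θ : ℝ) : ‖pm r m θ‖ = 2 * r := by
  simp [pm, Complex.norm_exp, abs_of_pos hr]

theorem pm_per (r : ℝ) (m : ℕ) (θ : ℝ) : pm r m (θ + 2 * π) = pm r m θ := by
  rw [pm, pm, ← (Complex.exp_periodic.nat_mul m) (-(m * (θ + 2 * π : ℝ) * I))]
  push_cast
  ring_nf

theorem km_mem (hr : 0 < r) (θ : ℝ) {w : ℂ} (hw : ‖w‖ = r) :
    km r m θ w ∈ Icc (r ^ 2 / 2) (r ^ 2 / 2 + 4 * m * r ^ 2) := by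
  have h := Complex.abs_im_le_norm (starRingEnd ℂ (-(m * I) * pm r m θ) * w)
  have e : (starRingEnd ℂ (-(m * I) * pm r m θ) * w).im = w1 (-(m * I) * pm r m θ) w := by
    rw [Complex.mul_im, Complex.conj_re, Complex.conj_im, w1]
    ring
  rw [e, norm_mul, Complex.norm_conj, norm_mul, norm_neg, norm_mul, norm_pm hr, hw, Complex.norm_I,
    Complex.norm_natCast, abs_le] at h
  constructor <;> rw [km] <;> linarith [h.1, h.2]

theorem mod_ham (hr : 0 < r) {lam : ℝ} (hl : π * r ^ 2 = 2 * lam) :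
    HamIso (range (Tm r m)) (clifford lam) ∨ HamIso (range (Tm r m)) (chekanov lam) := by
  have hk : ∀ θ w, kk (pm r m) (fun _ => r) (fun _ => 0) (fun _ => r) (fun θ => r ^ 2 / 2 * θ) θ w =
      km r m θ (r * w) := fun θ w => by
    have h := sq_nrm (pm r m θ)
    rw [norm_pm hr] at h
    rw [kk_eq (hd_pm r m θ) (hd_lin _ _), qq_round, NN_round, km]
    simp [w1]
    linear_combination (-(m : ℝ) / 2) * h
  have e : TT (pm r m) (fun _ => r) (fun _ => 0) (fun _ => r) (fun θ => r ^ 2 / 2 * θ) =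
      range (Tm r m) := by
    ext y
    simp only [TT, hk, NN_round, mem_image, mem_range]
    constructor
    · rintro ⟨x, hx, rfl⟩
      have h := Complex.norm_mul_exp_arg_mul_I x.2
      rw [mem_sphere_zero_iff_norm.1 hx.2, Complex.ofReal_one, one_mul] at h
      exact ⟨(x.1, Complex.arg x.2), by rw [Tm, h, add_comm]⟩
    · rintro ⟨x, rfl⟩
      obtain ⟨θ, h1, h2⟩ := exists_angle (Complex.exp (x.1 * I))
      rw [Complex.norm_exp_ofReal_mul_I, Complex.ofReal_one, one_mul] at h2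
      refine ⟨(θ, Complex.exp (x.2 * I)), ⟨h1, by simp⟩, ?_⟩
      simp only [Tm, km, h2, per_of_exp (pm_per r m) h2, add_comm]
  rw [← e]
  refine dichotomy (δ := r ^ 2) (by positivity) hl (by unfold pm; fun_prop) contDiff_const
    contDiff_const contDiff_const (by fun_prop) (fun _ => hr) (fun _ => (sq r).symm) (pm_per r m)
    (fun _ => rfl) (fun _ => rfl) (fun _ => rfl) (fun θ => by ring) fun θ w hw => ?_
  rw [hk]
  exact lt_of_lt_of_le (by positivity) (km_mem hr θ (by simp [hw, abs_of_pos hr])).1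

theorem mod_onL_rot (a b : ℂ) (θ : ℝ) :
    w1 (a * Complex.exp (θ * I)) (b * Complex.exp (θ * I)) = w1 a b := by
  simp only [w1, Complex.mul_re, Complex.mul_im, Complex.exp_ofReal_mul_I_re,
    Complex.exp_ofReal_mul_I_im]
  linear_combination (a.re * b.im - a.im * b.re) * sin_sq_add_cos_sq θ

theorem mod_onL_pos (hr : 0 < r) (θ φ : ℝ) : 0 < 2 * km r m θ (r * Complex.exp (φ * I)) := by
  have := (km_mem (m := m) hr θ (w := r * Complex.exp (φ * I))
    (by simp [Complex.norm_exp_ofReal_mul_I, abs_of_pos hr])).1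
  nlinarith

theorem mod_onL_B (hr : 0 < r) {Ψ : E → E} (hΨ : ContDiff ℝ ∞ Ψ)
    (h : ∀ x, Ψ (std r x) = Tm r m x) (θ φ : ℝ) : ∃ a : ℝ,
    fderiv ℝ Ψ (std r (θ, φ)) (0, I * (std r (θ, φ)).2) = (-(m * I) * pm r m θ,
      (a + √(2 * km r m θ (r * Complex.exp (φ * I))) * I) * Complex.exp (θ * I)) := by
  have h1 := ((((hd_w1 ((hd_pm r m θ).const_mul (-(m * I))) (hasDerivAt_const θ
    (r * Complex.exp (φ * I)))).const_add (r ^ 2 / 2 + 2 * m * r ^ 2)).const_mul 2).sqrt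
    (mod_onL_pos hr θ φ).ne').ofReal_comp.fun_mul (hd_exp θ)
  have h2 := (hΨ.differentiable (by simp) _).hasFDerivAt.comp_hasDerivAt θ (hd_stdB r θ φ)
  simp only [Function.comp_def, h, Tm, km] at h2
  exact ⟨_, (h2.unique (((hd_pm r m θ).const_add _).prodMk h1)).trans (Prod.ext rfl (by
    simp only [km]
    rw [add_mul, mul_right_comm _ I, mul_assoc _ _ I]))⟩

theorem mod_onL_F (hr : 0 < r) {Ψ : E → E} (hΨ : ContDiff ℝ ∞ Ψ)
    (h : ∀ x, Ψ (std r x) = Tm r m x) (θ φ : ℝ) : ∃ b : ℝ,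
    √(2 * km r m θ (r * Complex.exp (φ * I))) * b =
      w1 (-(m * I) * pm r m θ) (r * (Complex.exp (φ * I) * I)) ∧
    fderiv ℝ Ψ (std r (θ, φ)) (I * (std r (θ, φ)).1, 0) =
      (r * (Complex.exp (φ * I) * I), b * Complex.exp (θ * I)) := by
  have h0 := mod_onL_pos (m := m) hr θ φ
  have h1 := ((((hd_w1 (hasDerivAt_const φ (-(m * I) * pm r m θ)) ((hd_exp φ).const_mul
    (r : ℂ))).const_add (r ^ 2 / 2 + 2 * m * r ^ 2)).const_mul 2).sqrt
    h0.ne').ofReal_comp.mul_const (Complex.exp (θ * I))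
  have h2 := (hΨ.differentiable (by simp) _).hasFDerivAt.comp_hasDerivAt φ (hd_stdF r θ φ)
  simp only [Function.comp_def, h, Tm, km] at h2
  refine ⟨_, ?_, h2.unique ((((hd_exp φ).const_mul (r : ℂ)).add_const _).prodMk h1)⟩
  rw [mul_div_mul_left _ _ two_ne_zero]
  exact (mul_div_cancel₀ _ (sqrt_pos.2 h0).ne').trans (by simp [w1])

theorem mod_onL_int {f g : ℝ → ℝ} (hf : Continuous f) (hg : ∀ t, HasDerivAt g (f t) t)
    (hp : g (2 * π) = g 0) : ∫ t in (0 : ℝ)..2 * π, (r ^ 2 / 2 + f t / 2) = π * r ^ 2 := by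
  rw [intervalIntegral.integral_add (by simp) ((hf.div_const 2).intervalIntegrable _ _),
    intervalIntegral.integral_div 2 f,
    intervalIntegral.integral_eq_sub_of_hasDerivAt (fun t _ => hg t) (hf.intervalIntegrable _ _), hp]
  simp
  ring

theorem mod_onL (hr : 0 < r) {Ψ : E → E} (hΨ : ContDiff ℝ ∞ Ψ) (h : ∀ x, Ψ (std r x) = Tm r m x) :
    OnL r (π * r ^ 2) (pb Ψ lam0) := by
  refine ⟨fun y hy => ?_, ?_, ?_⟩
  · obtain ⟨⟨θ, φ⟩, rfl⟩ : y ∈ range (std r) := range_std hr ▸ hy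
    obtain ⟨a, ha⟩ := mod_onL_B hr hΨ h θ φ
    obtain ⟨b, hb, hb'⟩ := mod_onL_F hr hΨ h θ φ
    rw [dF_pb (hΨ.contDiffAt.of_le (by norm_cast))
      (contDiff_lam0.differentiable (by simp) _), dF_lam0, ha, hb', om, mod_onL_rot, ← hb]
    simp [w1]
  · have hc : Continuous (pm r m) := by
      unfold pm
      fun_prop
    rw [← mod_onL_int (r := r) (f := fun θ => w1 (-(m * I) * pm r m θ) r)
      (g := fun θ => w1 (pm r m θ) r) (by unfold w1; fun_prop)
      (fun t => by simpa [w1] using hd_w1 (hd_pm r m t) (hasDerivAt_const t (r : ℂ)))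
      (by simp [pm, Complex.exp_neg, Complex.exp_nat_mul_two_pi_mul_I, mul_assoc (m : ℂ)])]
    refine intervalIntegral.integral_congr fun θ _ => ?_
    obtain ⟨a, ha⟩ := mod_onL_B hr hΨ h θ 0
    have h1 := mul_self_sqrt (mod_onL_pos (m := m) hr θ 0).le
    have h2 : (pm r m θ).re ^ 2 + (pm r m θ).im ^ 2 = 4 * r ^ 2 := by
      have : ‖pm r m θ‖ = 2 * r := by simp [pm, Complex.norm_exp, hr.le]
      rw [sq, sq, ← Complex.normSq_apply, ← Complex.sq_norm, this]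
      ring
    simp only [pb, ContinuousLinearMap.comp_apply, ha, h, lam0_apply, om, Tm, mod_onL_rot]
    generalize √(2 * km r m θ (r * Complex.exp ((0 : ℝ) * I))) = R at h1 ⊢
    simp [w1, km] at h1 ⊢
    linear_combination h1 / 2 - m / 2 * h2
  · rw [← mod_onL_int (r := r) (f := fun φ => w1 (pm r m 0) (r * (Complex.exp (φ * I) * I)))
      (g := fun φ => w1 (pm r m 0) (r * Complex.exp (φ * I))) (by unfold w1; fun_prop)
      (fun t => by simpa [w1] using hd_w1 (hasDerivAt_const t (pm r m 0)) ((hd_exp t).const_mul (r : ℂ)))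
      (by simp)]
    refine intervalIntegral.integral_congr fun φ _ => ?_
    obtain ⟨b, -, hb⟩ := mod_onL_F hr hΨ h 0 φ
    simp only [pb, ContinuousLinearMap.comp_apply, hb, h, lam0_apply, om, Tm, mod_onL_rot]
    simp [w1, Complex.exp_ofReal_mul_I_re, Complex.exp_ofReal_mul_I_im]
    linear_combination r ^ 2 / 2 * sin_sq_add_cos_sq φ

theorem mod_len_aux {f : E → ℝ} {K U : Set E} (hK : IsClosed K) (hU : IsOpen U) (hKU : K ⊆ U)
    {R : ℝ} (hR : K ⊆ Metric.ball 0 R) (hf : ContDiffOn ℝ ∞ f U) :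
    ∃ l : E → ℝ, ContDiff ℝ ∞ l ∧ HasCompactSupport l ∧ EqOn l f K := by
  obtain ⟨g, hg⟩ := exists_contMDiffMap_forall_mem_convex_of_local (n := ⊤)
    (modelWithCornersSelf ℝ E)
    (t := fun x => {y : ℝ | (x ∈ K → y = f x) ∧ (x ∉ Metric.ball (0 : E) R → y = 0)})
    (fun x a ha b hb s t _ _ h => ⟨fun hx => by
      rw [ha.1 hx, hb.1 hx, ← add_smul, h, one_smul], fun hx => by simp [ha.2 hx, hb.2 hx]⟩)
    fun x => by
      by_cases hx : x ∈ K
      · exact ⟨U ∩ Metric.ball 0 R, (hU.inter Metric.isOpen_ball).mem_nhds ⟨hKU hx, hR hx⟩, f,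
          (hf.mono inter_subset_left).contMDiffOn, fun y hy => ⟨fun _ => rfl, fun h => (h hy.2).elim⟩⟩
      · exact ⟨Kᶜ, hK.isOpen_compl.mem_nhds hx, fun _ => 0, contMDiffOn_const,
          fun y hy => ⟨fun h => (hy h).elim, fun _ => rfl⟩⟩
  exact ⟨g, g.contMDiff.contDiff, HasCompactSupport.intro (isCompact_closedBall 0 R)
    fun x hx => (hg x).2 fun h => hx (Metric.ball_subset_closedBall h), fun x hx => (hg x).1 hx⟩

theorem mod_len (hr : 0 < r) (m : ℕ) : ∃ l : E → ℝ, ContDiff ℝ ∞ l ∧ HasCompactSupport l ∧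
    ∀ (θ ρ : ℝ) (w : ℂ), ‖w‖ = r → r ≤ ρ → ρ ^ 2 ≤ r ^ 2 + 8 * m * r ^ 2 →
      l (w + pm r m θ, ρ * Complex.exp (θ * I)) = Real.log (2 * km r m θ w / r ^ 2) / 2 := by
  let P : E → ℂ := fun x => 2 * r * ((‖x.2‖ : ℂ) / x.2) ^ m
  let Q : E → ℝ := fun x => r ^ 2 / 2 + 2 * m * r ^ 2 + w1 (-(m * I) * P x) (x.1 - P x)
  let V : Set E := {x | x.2 ≠ 0}
  have hV : IsOpen V := isOpen_ne_fun continuous_snd continuous_const
  have hP : ContDiffOn ℝ ∞ P V := contDiffOn_const.mul (ContDiffOn.pow (by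
    simp only [div_eq_mul_inv]
    exact (Complex.ofRealCLM.contDiff.comp_contDiffOn (contDiffOn_snd.norm ℝ fun x hx => hx)).mul
      (contDiffOn_snd.inv fun x hx => hx)) m)
  have hQ : ContDiffOn ℝ ∞ Q V := by
    have a : ContDiffOn ℝ ∞ (fun x => -(m * I) * P x) V := contDiffOn_const.mul hP
    have b : ContDiffOn ℝ ∞ (fun x : E => x.1 - P x) V := contDiffOn_fst.sub hP
    exact contDiffOn_const.add (((Complex.reCLM.contDiff.comp_contDiffOn a).mul
      (Complex.imCLM.contDiff.comp_contDiffOn b)).sub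
      ((Complex.imCLM.contDiff.comp_contDiffOn a).mul (Complex.reCLM.contDiff.comp_contDiffOn b)))
  let S : Set E := {x | r ≤ ‖x.2‖} ∩ Metric.closedBall 0 ((3 + 8 * m) * r)
  have hS : S ⊆ V := fun x hx => norm_pos_iff.1 (hr.trans_le hx.1)
  obtain ⟨l, h1, h2, h3⟩ := mod_len_aux (f := fun x => Real.log (2 * Q x / r ^ 2) / 2)
    ((hQ.continuousOn.mono hS).preimage_isClosed_of_isClosed ((isClosed_le continuous_const
      continuous_snd.norm).inter Metric.isClosed_closedBall) (isClosed_Ici (a := r ^ 2 / 2)))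
    (hQ.continuousOn.isOpen_inter_preimage hV (isOpen_Ioi (a := (0 : ℝ))))
    (fun x hx => ⟨hS hx.1, lt_of_lt_of_le (half_pos (pow_pos hr 2)) hx.2⟩)
    (fun x hx => Metric.closedBall_subset_ball (lt_add_one _) hx.1.2)
    ((((contDiffOn_const.mul (hQ.mono inter_subset_left)).div_const _).log fun x hx => by
      have : 0 < Q x := hx.2
      positivity).div_const _)
  refine ⟨l, h1, h2, fun θ ρ w hw h4 h5 => ?_⟩
  have h0 := hr.trans_le h4
  have hn : ‖ρ * Complex.exp (θ * I)‖ = ρ := by simp [abs_of_pos h0]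
  have e : P (w + pm r m θ, ρ * Complex.exp (θ * I)) = pm r m θ := by
    simp only [P, hn, pm]
    rw [div_mul_cancel_left₀ (Complex.ofReal_ne_zero.2 h0.ne'), ← Complex.exp_neg,
      ← Complex.exp_nat_mul, mul_neg, mul_assoc (m : ℂ)]
  have e' : Q (w + pm r m θ, ρ * Complex.exp (θ * I)) = km r m θ w := by
    simp only [Q, e, km, add_sub_cancel_right]
  have hm : (0 : ℝ) ≤ m * r := by positivity
  rw [h3 ⟨⟨hn.ge.trans' h4, ?_⟩, show _ ≤ Q _ from e' ▸ (km_mem hr θ hw).1⟩, ← e']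
  rw [mem_closedBall_zero_iff, Prod.norm_def, max_le_iff, hn]
  have hp : ‖pm r m θ‖ = 2 * r := by simp [pm, Complex.norm_exp, abs_of_pos hr]
  exact ⟨(norm_add_le _ _).trans (by rw [hw, hp]; linarith),
    abs_le_of_sq_le_sq' (by nlinarith [mul_nonneg hm hr.le, sq_nonneg (m * r)]) (by positivity) |>.2⟩

end Pool.Agent.Lib.MP_7ed551_gt.Cy.FA
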