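import Pool.Agent.Lib.MP_7ed551_gt.Cy.A.Mod1
import Pool.Agent.Lib.MP_7ed551_gt.Cy.A.Mod2
import Pool.Agent.Lib.MP_7ed551_gt.Cy.A.Ham

/-! The models as fibred forms. -/

open scoped ContDiff Topology
open Set Real Filter
open Complex (I)

noncomputable section

namespace Pool.Agent.Lib.MP_7ed551_gt.Cy.FA

open Pool.Agent.Lib.MP_ccffa6_gt (Form1 Bil dF pb dF_apply dF_add dF_smul dF_pb dF_fderiv
  contDiff_dF contDiff_pb)

variable {r : ℝ}

theorem mod_map (hr : 0 < r) (m : ℕ) : ∃ A A' B B' : E → E, Dif A A' ∧ Dif B B' ∧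
    (∀ x, (A x).2 = x.2) ∧ (∀ x, (B x).1 = x.1) ∧ (∀ x, w1 x.2 (B x).2 = 0) ∧
    (∀ v, B (v, 0) = (v, 0)) ∧ (∀ x, B (A (std r x)) = Tm r m x) ∧
    ∀ θ : ℝ, A (-pm r m θ, r * Complex.exp (θ * I)) = (0, r * Complex.exp (θ * I)) := by
  let b : ContDiffBump (0 : ℂ) := ⟨r, 2 * r, hr, by linarith⟩
  have n1 : ∀ θ : ℝ, ‖r * Complex.exp (θ * I)‖ = r := fun θ => by simp [abs_of_pos hr]
  obtain ⟨A, A', a1, a2, a3⟩ := shear (p := fun z => b z • (2 * r * (Complex.conjCLE z / r) ^ m))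
    (b.contDiff.smul (by fun_prop)) b.hasCompactSupport.smul_right (2 * r)
  have hp : ∀ θ : ℝ, b (r * Complex.exp (θ * I)) •
      (2 * r * (Complex.conjCLE (r * Complex.exp (θ * I)) / r) ^ m) = pm r m θ := fun θ => by
    rw [b.one_of_mem_closedBall (mem_closedBall_zero_iff.2 (n1 θ).le), one_smul, pm,
      Complex.conjCLE_apply, map_mul, Complex.conj_ofReal,
      mul_div_cancel_left₀ _ (Complex.ofReal_ne_zero.2 hr.ne'), ← Complex.exp_conj,
      ← Complex.exp_nat_mul]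
    simp [mul_assoc]
  obtain ⟨l, l1, l2, l3⟩ := mod_len hr m
  obtain ⟨B, B', b1, b2, b3, b4⟩ := stretch l1 l2
  refine ⟨A, A', B, B', a1, b1, a2, b2, b3, fun v => ?_, fun x => ?_, fun θ => ?_⟩
  · simpa using b4 (v, 0) (l (v, 0)) fun t _ => by simp
  · obtain ⟨k1, k2⟩ := km_mem (m := m) hr x.1 (n1 x.2)
    obtain ⟨k, hk⟩ : ∃ k, k = Real.log (2 * km r m x.1 (r * Complex.exp (x.2 * I)) / r ^ 2) / 2 :=
      ⟨_, rfl⟩
    have r2 : 0 < r ^ 2 := by positivity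
    have k0 : 0 ≤ k := hk ▸ div_nonneg (log_nonneg ((one_le_div r2).2 (by linarith))) zero_le_two
    have k3 : (Real.exp k * r) ^ 2 = 2 * km r m x.1 (r * Complex.exp (x.2 * I)) := by
      rw [mul_pow, sq (Real.exp k), ← Real.exp_add, hk, add_halves,
        exp_log (div_pos (by linarith) r2), div_mul_cancel₀ _ r2.ne']
    rw [a3 _ ((n1 x.2).le.trans (by linarith)), std, hp, b4 _ k fun t ht => ?_, Tm, ← k3,
      sqrt_sq (by positivity), Complex.real_smul, ← mul_assoc, Complex.ofReal_mul]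
    rw [Complex.real_smul, ← mul_assoc, ← Complex.ofReal_mul, hk]
    refine l3 _ _ _ (n1 _) (le_mul_of_one_le_left hr.le (one_le_exp (hk ▸ mul_nonneg ht.1 k0)))
      (le_trans (pow_le_pow_left₀ (by positivity) (mul_le_mul_of_nonneg_right
        (exp_le_exp.2 (hk ▸ mul_le_of_le_one_left k0 ht.2)) hr.le) 2) (k3.le.trans (by linarith)))
  · rw [a3 _ (by rw [norm_neg, norm_pm hr]), hp, neg_add_cancel]

theorem onL_lam0 (hr : 0 < r) : OnL r (π * r ^ 2) lam0 := by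
  have h : ∀ z : ℂ, ‖z‖ = r → w1 z (I * z) = r ^ 2 := fun z e => by
    rw [← e, sq_nrm]
    simp [w1, sq]
  refine ⟨fun y _ => by simp [dF_lam0, om, w1], ?_, ?_⟩
  · simp only [perB, lam0_apply, om, h _ (std_mem hr _).2]
    simp [w1]
    ring
  · simp only [perF, lam0_apply, om, h _ (std_mem hr _).1]
    simp [w1]
    ring

theorem model (hr : 0 < r) {lam : ℝ} (hl : π * r ^ 2 = 2 * lam) (m : ℕ) :
    ∃ (Ψ Ψ' : E → E) (s : ℂ → ℂ), Dif Ψ Ψ' ∧ Dt r m (pb Ψ lam0) s (fun _ => 0) ∧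
      PreG r (pb Ψ lam0) s (fun _ => 0) ∧
      ∀ L, HamIso L (Ψ '' Ls r) → HamIso L (clifford lam) ∨ HamIso L (chekanov lam) := by
  have hd : ∀ {Λ : Form1 E} {s : ℂ → ℂ}, Fb r Λ → ContDiff ℝ ∞ s →
      (∃ R : ℝ, ∀ z, R ≤ ‖z‖ → s z = 0) → Pos r m s → Dt r m Λ s fun _ => 0 := fun a b c d =>
    ⟨a, b, c, d, contDiff_const, HasCompactSupport.zero, fun _ => by norm_num, by simp,
      fun x => by simpa using a.pf x⟩
  rcases m.eq_zero_or_pos with hm | hm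
  · have e : pb id lam0 = lam0 := funext fun x => by simp [pb]
    refine ⟨id, id, fun _ => 0, ⟨contDiff_id, contDiff_id, fun _ => rfl, fun _ => rfl, 0,
      fun _ _ => rfl⟩, hd (e.symm ▸ ⟨far_lam0, onL_lam0 hr, fun x => ?_, fun x => ?_⟩) contDiff_const
      ⟨0, fun _ _ => rfl⟩ (Or.inl ⟨hm, fun _ _ => by simpa using hr⟩), fun z _ => ?_,
      fun L h => Or.inl ?_⟩
    · simp [dF_lam0', fib_omL]
    · simp [dF_lam0', pf_omL]
    · simp [e, dF_lam0', gr_omL, w1]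
    · have h1 : ∀ x : ℝ, 0 ≤ x → (π * x ^ 2 = 2 * lam ↔ x = r) := fun x hx => by
        rw [← hl, mul_right_inj' pi_ne_zero, sq_eq_sq₀ hx hr.le]
      simpa only [image_id, Ls, clifford, h1 _ (norm_nonneg _)] using h
  obtain ⟨A, A', B, B', a1, b1, a2, b2, b3, b4, t1, t2⟩ := mod_map hr m
  have d := b1.comp a1
  have s1 : ∀ θ : ℝ, (A' (0, r * Complex.exp (θ * I))).1 = -pm r m θ := fun θ => by
    rw [← t2, a1.left]
  refine ⟨fun y => B (A y), _, fun z => (A' (0, z)).1, d, hd ⟨far_lam0.pb d, mod_onL hr d.sm t1,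
    mod_fib a1 b1 a2 b2 b3 b4, far_lam0.pf_pb (fun x => by simp [dF_lam0', pf_omL]) d⟩
    (a1.sm'.comp (contDiff_const.prodMk contDiff_id)).fst ?_
    (Or.inr ⟨hm, fun z hz => ?_, fun _ => Real.log (2 * r) + π * I, continuous_const,
      fun _ => rfl, fun θ => ?_⟩), fun z _ => by simpa using mod_gr a1 b1 a2 b2 z, fun L h => ?_⟩
  · obtain ⟨R, hR⟩ := a1.symm.far
    exact ⟨R, fun z hz => by rw [hR _ (hz.trans (norm_snd_le (0, z)))]⟩
  · beta_reduce
    rw [← Complex.norm_mul_exp_arg_mul_I z, hz, s1, norm_neg, norm_pm hr]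
    linarith
  · beta_reduce
    rw [s1, sub_eq_add_neg, Complex.exp_add, Complex.exp_add, Complex.exp_pi_mul_I,
      ← Complex.ofReal_exp, exp_log (by positivity), pm]
    simp
  · rw [← range_std hr, ← range_comp, show (fun y => B (A y)) ∘ std r = Tm r m from funext t1] at h
    exact (mod_ham hr hl).imp (ham_trans h) (ham_trans h)

end Pool.Agent.Lib.MP_7ed551_gt.Cy.FA
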