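import Pool.Agent.Lib.MP_7ed551_gt.Cy.A.Inf
import Pool.Agent.Lib.MP_7ed551_gt.Cy.A.Mod3

/-! Fibred tori are Clifford or Chekanov tori. -/

open scoped ContDiff Topology
open Set Real Filter
open Complex (I)

noncomputable section

namespace Pool.Agent.Lib.MP_7ed551_gt.Cy.FA

open Pool.Agent.Lib.MP_ccffa6_gt (Form1 Bil dF pb dF_apply dF_add dF_smul dF_pb dF_fderiv
  contDiff_dF contDiff_pb)

variable {r : ℝ} {Φ Φ' : E → E} {β : Form1 E}

theorem small_far (h : Small β) (k : ℝ) : Far fun x => lam0 x + k • β x := by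
  obtain ⟨R, -, hR⟩ := h.cpt.exists_pos_le_norm
  exact ⟨contDiff_lam0.add (h.sm.const_smul k), R, fun x hx => by rw [hR x hx, smul_zero, add_zero]⟩

theorem small_nd_aux (h : Small β) (k : ℝ) (x u v : E) :
    dF (fun x => lam0 x + k • β x) x u v = om u v + k * dF β x u v := by
  have d := h.sm.differentiable (by simp) x
  rw [dF_add (contDiff_lam0.differentiable (by simp) x) (d.fun_const_smul k), add_apply, add_apply,
    dF_lam0, dF_smul (differentiableAt_const k) d]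
  simp

theorem small_nd (h : Small β) {k : ℝ} (hk : k ∈ Icc (0 : ℝ) 1) (x : E) :
    Pf (dF (fun x => lam0 x + k • β x) x) ≠ 0 := by
  refine pf_ne_of_tame (alt_dF _ _) fun v hv => ?_
  have h1 := (abs_le.1 (h.le x v (J0 v))).1
  rw [small_nd_aux h, om_J0]
  rw [norm_J0] at h1
  nlinarith [sq_norm_le v, norm_pos_iff.2 hv, hk.1, hk.2, mul_self_nonneg ‖v‖]

theorem small_rel_aux (hΦ : Dif Φ Φ') (h : Small β)
    (h0 : ∀ y ∈ Ls r, β (Φ y) = 0 ∧ dF β (Φ y) = 0) (hl : LagS r (pb Φ lam0)) (k : ℝ) :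
    LagS r (pb Φ fun x => lam0 x + k • β x) := fun y hy => by
  have d : ContDiffAt ℝ 2 Φ y := hΦ.sm.contDiffAt.of_le (WithTop.coe_le_coe.2 (le_top (a := 2)))
  have := hl y hy
  rw [dF_pb d (contDiff_lam0.differentiable (by simp) _), dF_lam0] at this
  rw [dF_pb d ((small_far h k).sm.differentiable (by simp) _), small_nd_aux h, this, (h0 y hy).2]
  simp

theorem small_rel (hr : 0 < r) (hΦ : Dif Φ Φ') (h : Small β)
    (h0 : ∀ y ∈ Ls r, β (Φ y) = 0 ∧ dF β (Φ y) = 0) (hl : LagS r (pb Φ lam0)) :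
    Rel r (pb Φ lam0) (pb Φ fun x => lam0 x + β x) := by
  obtain ⟨R, -, hR⟩ := h.cpt.exists_pos_le_norm
  obtain ⟨R', hR'⟩ := hΦ.far
  have s : ContDiff ℝ ∞ fun p : ℝ × E => Φ p.2 := hΦ.sm.comp contDiff_snd
  have s1 : ContDiff ℝ ∞ fun p : ℝ × E => lam0 (Φ p.2) + smoothTransition p.1 • β (Φ p.2) :=
    (contDiff_lam0.comp s).add ((smoothTransition.contDiff.comp contDiff_fst).smul (h.sm.comp s))
  have s2 : ContDiff ℝ ∞ fun p : ℝ × E => fderiv ℝ Φ p.2 :=
    (hΦ.sm.fderiv_right (m := ∞) (by simp)).comp contDiff_snd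
  obtain ⟨F, hF, e⟩ : ∃ F : ℝ × E → E →L[ℝ] ℝ, ContDiff ℝ ∞ F ∧
      ∀ t, (fun y => F (t, y)) = pb Φ fun x => lam0 x + smoothTransition t • β x :=
    ⟨_, s1.clm_comp s2, fun _ => rfl⟩
  have e' := fun t => congrFun (e t)
  simpa [e] using iso0 hr hF (fun t x => e t ▸ ((small_far h _).pf_pb (small_nd h
      ⟨smoothTransition.nonneg t, smoothTransition.le_one t⟩) hΦ x).ne')
    ⟨max R R', fun t x hx => by
      simp [e', pb, hR' x (le_of_max_le_right hx), hR x (le_of_max_le_left hx)]⟩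
    (fun t => e t ▸ small_rel_aux hΦ h h0 hl _) fun t y hy => by simp [e', pb, (h0 y hy).1]

theorem small_onL (hr : 0 < r) (hΦ : Dif Φ Φ') (h : Small β)
    (h0 : ∀ y ∈ Ls r, β (Φ y) = 0 ∧ dF β (Φ y) = 0) {b : ℝ} (hl : OnL r b (pb Φ lam0)) :
    OnL r b (pb Φ fun x => lam0 x + β x) := by
  have e : ∀ x, pb Φ (fun x => lam0 x + β x) (std r x) = pb Φ lam0 (std r x) := fun x => by
    simp [pb, (h0 _ (std_mem hr x)).1]
  exact ⟨by simpa using small_rel_aux hΦ h h0 hl.lag 1, by simpa only [perB, e] using hl.pB,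
    by simpa only [perF, e] using hl.pF⟩

theorem fib_of (hD : DichStmt) : FibStmt := by
  intro lam r Φ Φ' β hr hl hΦ hβ h0 fp lag pB pF
  have f1 : Far fun x => lam0 x + β x := by simpa using small_far hβ 1
  have f2 : Fb r (pb Φ fun x => lam0 x + β x) :=
    ⟨f1.pb hΦ, small_onL hr hΦ hβ h0 ⟨lag, pB.trans hl.symm, pF.trans hl.symm⟩, fp,
      f1.pf_pb (by simpa using small_nd hβ (right_mem_Icc.2 zero_le_one)) hΦ⟩
  obtain ⟨m, s, c, d1, d2⟩ := exists_pre hD hr f2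
  obtain ⟨Ψ, Ψ', s', e1, e2, e3, e4⟩ := model hr hl m
  exact e4 _ (ham_of_rel hΦ e1 ((small_rel hr hΦ hβ h0 lag).trans (rel_of_pre hr d1 d2 e2 e3)))

end Pool.Agent.Lib.MP_7ed551_gt.Cy.FA
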