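import Pool.Agent.Lib.MP_7ed551_gt.Cy.A.Per
import Pool.Agent.Lib.MP_7ed551_gt.Cy.A.Cut

/-! Linear families of inflated forms. -/

open scoped ContDiff Topology
open Set Real Filter
open Complex (I)

noncomputable section

namespace Pool.Agent.Lib.MP_7ed551_gt.Cy.FA

open Pool.Agent.Lib.MP_ccffa6_gt (Form1 Bil dF pb dF_apply dF_add dF_smul dF_pb dF_fderiv
  contDiff_dF contDiff_pb)

variable {η η' α : Form1 ℂ} {c c' f : ℝ → ℝ} {ε r t t' : ℝ} {m : ℕ} {s : ℝ × ℂ → ℂ}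
  {Λ Λ' : Form1 E}

theorem Fam.bound (h : Fam r m ε s) : ∃ R M : ℝ, ∀ u ∈ Icc (0 : ℝ) 1, ∀ z,
    ‖s (u, z)‖ ≤ M ∧ ‖fderiv ℝ (fun z => s (u, z)) z‖ ≤ M ∧
      (R ≤ ‖z‖ → fderiv ℝ (fun z => s (u, z)) z = 0) := by
  obtain ⟨R, hR⟩ := h.far
  have e : ∀ u z, fderiv ℝ (fun z => s (u, z)) z =
      (fderiv ℝ s (u, z)).comp (ContinuousLinearMap.inr ℝ ℝ ℂ) := fun u z =>
    ((h.sm.differentiable (by simp) (u, z)).hasFDerivAt.comp z (hasFDerivAt_prodMk_right u z)).fderiv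
  have h0 : ∀ u z, R + 1 ≤ ‖z‖ → fderiv ℝ (fun z => s (u, z)) z = 0 := fun u z hz => by
    have e0 : (fun z => s (u, z)) =ᶠ[𝓝 z] fun _ => 0 :=
      ((isOpen_lt continuous_const continuous_norm).eventually_mem
        (show R < ‖z‖ by linarith)).mono fun y hy => hR u y (le_of_lt hy)
    rw [e0.fderiv_eq, fderiv_fun_const, Pi.zero_apply]
  have hK := (isCompact_Icc (a := (0 : ℝ)) (b := 1)).prod (isCompact_closedBall (0 : ℂ) (R + 1))
  obtain ⟨A, hA⟩ := hK.exists_bound_of_continuousOn h.sm.continuous.continuousOn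
  obtain ⟨B, hB⟩ := hK.exists_bound_of_continuousOn
    ((h.sm.continuous_fderiv (by simp)).clm_comp
      (continuous_const (y := ContinuousLinearMap.inr ℝ ℝ ℂ))).continuousOn
  refine ⟨R + 1, max (max A B) 0, fun u hu z => ?_⟩
  rcases le_total (R + 1) ‖z‖ with hz | hz
  · rw [hR u z (by linarith), h0 u z hz]
    simp
  · have hm : (u, z) ∈ Icc (0 : ℝ) 1 ×ˢ Metric.closedBall (0 : ℂ) (R + 1) :=
      ⟨hu, mem_closedBall_zero_iff.2 hz⟩
    exact ⟨(hA _ hm).trans ((le_max_left _ _).trans (le_max_left _ _)),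
      e u z ▸ (hB _ hm).trans ((le_max_right _ _).trans (le_max_left _ _)), h0 u z⟩

theorem tot_far (h : Fam r m ε s) (hα : Bump α f ε) (R₀ M₀ T : ℝ) : ∃ R M : ℝ,
    ∀ u ∈ Icc (0 : ℝ) 1, ∀ (Λ₁ : Form1 E) (η₁ : Form1 ℂ) (c₁ : ℝ → ℝ) (t₁ : ℝ), ContDiff ℝ ∞ Λ₁ →
      (∀ x, R₀ ≤ ‖x‖ → Λ₁ x = lam0 x ∧ dF Λ₁ x = omL) → Rad η₁ c₁ → (∀ z, ‖η₁ z‖ ≤ M₀) →
      (∀ y, -(1 / 2) ≤ c₁ y) → 0 ≤ t₁ → t₁ ≤ T → ∀ x, R ≤ ‖x‖ →
        ‖Tot Λ₁ η₁ α (fun z => s (u, z)) t₁ x - lam0 x‖ ≤ M ∧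
          ∀ v, nq v / 2 ≤ dF (Tot Λ₁ η₁ α (fun z => s (u, z)) t₁) x v (J0 v) := by
  obtain ⟨R, M, hb⟩ := h.bound
  obtain ⟨N, hN⟩ := hα.rad.bd
  refine ⟨max R₀ (max R (M + ε)), M₀ + T * (N * (1 + M)),
    fun u hu Λ₁ η₁ c₁ t₁ h1 h2 h3 h4 h5 h6 h7 x hx => ?_⟩
  have hs : ContDiff ℝ ∞ fun z => s (u, z) := h.sm.comp (contDiff_const.prodMk contDiff_id)
  obtain ⟨e1, e2⟩ := h2 x ((le_max_left _ _).trans hx)
  obtain ⟨b1, b2, b3⟩ := hb u hu x.2
  have hM := (norm_nonneg _).trans b1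
  have hM₀ := (norm_nonneg _).trans (h4 0)
  have hN₀ := (norm_nonneg _).trans (hN 0)
  refine ⟨?_, fun v => ?_⟩
  · rw [Tot, e1, add_assoc, add_sub_cancel_left]
    refine (norm_add_le _ _).trans (add_le_add ?_ ?_)
    · refine ContinuousLinearMap.opNorm_le_bound _ hM₀ fun v => ?_
      rw [bas_apply]
      exact (η₁ x.2).le_of_opNorm_le_of_le (h4 _) (norm_snd_le v)
    · rw [norm_smul, Real.norm_of_nonneg h6]
      refine mul_le_mul h7 ?_ (norm_nonneg _) (h6.trans h7)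
      refine ContinuousLinearMap.opNorm_le_bound _ (by positivity) fun v => ?_
      rw [sec_apply hs, mul_assoc]
      refine (α _).le_of_opNorm_le_of_le (hN _) ((norm_sub_le _ _).trans ?_)
      rw [add_mul, one_mul]
      exact add_le_add (norm_fst_le v) (ContinuousLinearMap.le_of_opNorm_le_of_le _ b2 (norm_snd_le v))
  · have hw : ∀ a : ℂ, w1 a (I * a) = ‖a‖ ^ 2 := fun a => by
      simp [w1, Complex.sq_norm, Complex.normSq_apply]
    rw [dF_tot h1 h3 hα.rad hs, e2, omL_apply, om_J0, J0_apply, Prod.smul_snd, Prod.smul_fst,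
      smul_eq_mul, smul_eq_mul, hw]
    have h8 : 0 ≤ t₁ * f (‖x.1 - s (u, x.2)‖ ^ 2) *
        w1 (v.1 - fderiv ℝ (fun z => s (u, z)) x.2 v.2)
          (I * v.1 - fderiv ℝ (fun z => s (u, z)) x.2 (I * v.2)) := by
      rcases le_or_gt R ‖x.2‖ with hz | hz
      · rw [b3 hz, zero_apply, zero_apply, sub_zero, sub_zero, hw]
        exact mul_nonneg (mul_nonneg h6 (hα.nn _)) (sq_nonneg _)
      · have h9 := (le_max_right _ _).trans hx
        rw [Prod.norm_def, max_le_iff, le_max_iff, le_max_iff] at h9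
        have h10 : M + ε ≤ ‖x.1‖ := h9.2.elim id fun e =>
          e.trans (hz.le.trans (h9.1.resolve_right hz.not_ge))
        rw [hα.out _ (pow_le_pow_left₀ hα.pos.le
          (by linarith [norm_sub_norm_le x.1 (s (u, x.2))]) 2), mul_zero, zero_mul]
    have h11 := mul_le_mul_of_nonneg_right (h5 (‖x.2‖ ^ 2)) (sq_nonneg ‖v.2‖)
    unfold nq
    nlinarith [sq_nonneg ‖v.1‖]

theorem dF_mix (h : ContDiff ℝ ∞ Λ) (h' : ContDiff ℝ ∞ Λ') (u : ℝ) (x : E) :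
    dF (fun x => (1 - u) • Λ x + u • Λ' x) x = mix u Λ Λ' x := by
  have a := h.differentiable (by simp) x
  have b := h'.differentiable (by simp) x
  refine ContinuousLinearMap.ext fun v => ContinuousLinearMap.ext fun w => ?_
  rw [dF_add (a.fun_const_smul _) (b.fun_const_smul _), add_apply, add_apply,
    dF_smul (differentiableAt_const _) a, dF_smul (differentiableAt_const _) b]
  simp [mix]

theorem ext_mem (m : ℕ) (h : 0 ≤ t) : ext m t ∈ Icc 0 t := by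
  unfold ext
  split_ifs
  exacts [⟨h, le_rfl⟩, ⟨le_rfl, h⟩]

theorem master (hr : 0 < r) (f1 : Far Λ) (f2 : Far Λ') (l1 : OnL r (π * r ^ 2) Λ)
    (l2 : OnL r (π * r ^ 2) Λ') (r1 : Rad η c) (r2 : Rad η' c') (hα : Bump α f ε) (t1 : 0 ≤ t)
    (t2 : 0 ≤ t') (c1 : ∀ y, -(1 / 2) ≤ c y) (c2 : ∀ y, -(1 / 2) ≤ c' y)
    (m1 : (π * ∫ y in (0 : ℝ)..r ^ 2, c y) = mas m * t)
    (m2 : (π * ∫ y in (0 : ℝ)..r ^ 2, c' y) = mas m * t') (hs : Fam r m ε s)
    (pf : ∀ u ∈ Icc (0 : ℝ) 1, ∀ x : E, 0 < Pf (mix u Λ Λ' x) +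
      ((1 - u) * c (‖x.2‖ ^ 2) + u * c' (‖x.2‖ ^ 2)) * fib (mix u Λ Λ' x) +
      ((1 - u) * t + u * t') * f (‖x.1 - s (u, x.2)‖ ^ 2) *
        (gr (mix u Λ Λ' x) (fderiv ℝ (fun z => s (u, z)) x.2) +
          ((1 - u) * c (‖x.2‖ ^ 2) + u * c' (‖x.2‖ ^ 2)))) :
    RR r (kap r m t) (Tot Λ η α (fun z => s (0, z)) t) (kap r m t')
      (Tot Λ' η' α (fun z => s (1, z)) t') := by
  have hσ : ContDiff ℝ ∞ smoothTransition := smoothTransition.contDiff
  have hu : ∀ τ, smoothTransition τ ∈ Icc (0 : ℝ) 1 := fun τ =>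
    ⟨smoothTransition.nonneg τ, smoothTransition.le_one τ⟩
  have a6 := hs.sm
  have su : ∀ u, ContDiff ℝ ∞ fun z => s (u, z) := fun u => by fun_prop
  have g : ContDiff ℝ ∞ (Function.uncurry fun (p : ℝ × E) (y : E) => y.1 - s (p.1, y.2)) := by
    unfold Function.uncurry
    fun_prop
  have σ0 : ContDiff ℝ ∞ fun p : ℝ × E => 1 - p.1 := by fun_prop
  have hκ : ContDiff ℝ ∞ fun u : ℝ => π * r ^ 2 + ext m ((1 - u) * t + u * t') := by
    unfold ext
    split_ifs <;> fun_prop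
  have a1 := f1.sm
  have a2 := f2.sm
  have Lu : ∀ u : ℝ, ContDiff ℝ ∞ fun x => (1 - u) • Λ x + u • Λ' x := fun u =>
    (a1.const_smul _).add (a2.const_smul _)
  have p0 : 0 < π * r ^ 2 := by positivity
  have tu : ∀ u ∈ Icc (0 : ℝ) 1, (1 - u) * t + u * t' ∈ Icc 0 (t + t') := fun u hu =>
    ⟨add_nonneg (mul_nonneg (sub_nonneg.2 hu.2) t1) (mul_nonneg hu.1 t2), by
      linarith [mul_nonneg hu.1 t1, mul_nonneg (sub_nonneg.2 hu.2) t2]⟩
  have ru := fun u : ℝ => (r1.smul (1 - u)).add (r2.smul u)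
  obtain ⟨R1, -, h1⟩ := f1.dF_far
  obtain ⟨R2, -, h2⟩ := f2.dF_far
  obtain ⟨M1, b1⟩ := r1.bd
  obtain ⟨M2, b2⟩ := r2.bd
  obtain ⟨R, M, far⟩ := tot_far hs hα (max R1 R2) (M1 + M2) (t + t')
  obtain ⟨G, hG⟩ : ∃ G : ℝ → Form1 E, ∀ u, G u = Tot (fun x => (1 - u) • Λ x + u • Λ' x)
    (fun z => (1 - u) • η z + u • η' z) α (fun z => s (u, z)) ((1 - u) * t + u * t') :=
    ⟨_, fun _ => rfl⟩
  have g0 : ContDiff ℝ ∞ fun p : ℝ × E => G p.1 p.2 := by
    simp only [hG]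
    exact (((σ0.smul a1.snd').add (contDiff_fst.smul a2.snd')).add (((σ0.smul r1.sm.snd'.snd').add
      (contDiff_fst.smul r2.sm.snd'.snd')).clm_comp
        (contDiff_snd.fderiv_right (m := ∞) (n := ∞) (by simp)).snd')).add
      (((σ0.mul contDiff_const).add (contDiff_fst.mul contDiff_const)).smul ((hα.rad.sm.comp
        (g.comp (contDiff_id.prodMk contDiff_snd))).clm_comp (g.fderiv contDiff_snd (by simp))))
  have g1 : ∀ u ∈ Icc (0 : ℝ) 1, ∀ x, Pf (dF (G u) x) ≠ 0 := fun u hu x => by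
    rw [hG, pf_tot (Lu u) (ru u) hα.rad (su u), dF_mix a1 a2]
    exact (pf u hu x).ne'
  have g2 : ∀ u ∈ Icc (0 : ℝ) 1, OnL r (π * r ^ 2 + ext m ((1 - u) * t + u * t')) (G u) :=
    fun u hu => by
      rw [hG]
      refine onL_tot hr (Lu u) ?_ (ru u) hα (su u) (hs.pos u hu) (hs.off u hu) ?_
      · have := (l1.smul a1 (1 - u)).add (l2.smul a2 u) (a1.const_smul _) (a2.const_smul _)
        rwa [← add_mul, sub_add_cancel, one_mul] at this
      · rw [intervalIntegral.integral_add ((r1.cont.const_mul _).intervalIntegrable _ _)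
          ((r2.cont.const_mul _).intervalIntegrable _ _), intervalIntegral.integral_const_mul,
          intervalIntegral.integral_const_mul]
        linear_combination (1 - u) * m1 + u * m2
  have g3 : ∀ u ∈ Icc (0 : ℝ) 1, ∀ x, R ≤ ‖x‖ →
      ‖G u x - lam0 x‖ ≤ M ∧ ∀ v, nq v / 2 ≤ dF (G u) x v (J0 v) := fun u hu => by
    rw [hG]
    refine far u hu _ _ _ _ (Lu u) (fun x hx => ?_) (ru u) (fun z => ?_) (fun y => ?_)
      (tu u hu).1 (tu u hu).2
    · obtain ⟨e1, e2⟩ := h1 x (le_of_max_le_left hx)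
      obtain ⟨e3, e4⟩ := h2 x (le_of_max_le_right hx)
      rw [dF_mix a1 a2, mix, e1, e2, e3, e4, ← add_smul, sub_add_cancel, one_smul]
      refine ⟨rfl, ContinuousLinearMap.ext fun v => ContinuousLinearMap.ext fun w => ?_⟩
      simp only [add_apply, smul_apply, smul_eq_mul]
      ring
    · refine (norm_add_le _ _).trans (add_le_add ?_ ?_) <;> rw [norm_smul, Real.norm_of_nonneg]
      exacts [(mul_le_of_le_one_left (norm_nonneg _) (by linarith [hu.1])).trans (b1 z),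
        sub_nonneg.2 hu.2, (mul_le_of_le_one_left (norm_nonneg _) hu.2).trans (b2 z), hu.1]
    · nlinarith [c1 y, c2 y, hu.1, hu.2]
  have e0 := fun τ => ext_mem m (tu _ (hu τ)).1
  have key := cut_rr hr (F := fun p => G (smoothTransition p.1) p.2)
    (g0.comp (hσ.fst'.prodMk contDiff_snd))
    (κ := fun τ => kap r m ((1 - smoothTransition τ) * t + smoothTransition τ * t'))
    (contDiff_const.div (hκ.comp hσ) fun τ => (add_pos_of_pos_of_nonneg p0 (e0 τ).1).ne')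
    (κ₀ := π * r ^ 2 / (π * r ^ 2 + (t + t'))) (by positivity)
    (fun τ => ⟨div_le_div_of_nonneg_left p0.le (by linarith [(e0 τ).1])
      (by linarith [(tu _ (hu τ)).2, (e0 τ).2]),
      (div_le_one (by linarith [(e0 τ).1])).2 (by linarith [(e0 τ).1])⟩)
    (fun τ => by dsimp only; exact g1 _ (hu τ)) (fun τ => by dsimp only; exact g2 _ (hu τ))
    (b := fun τ => π * r ^ 2 + ext m ((1 - smoothTransition τ) * t + smoothTransition τ * t'))
    (fun τ => div_mul_cancel₀ _ (by linarith [(e0 τ).1]))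
    ⟨R, M, fun τ => by dsimp only; exact g3 _ (hu τ)⟩
  simpa [hG] using key

end Pool.Agent.Lib.MP_7ed551_gt.Cy.FA
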