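import Pool.Agent.Lib.MP_7ed551_gt.Cy.A.Defs
import Pool.Agent.Lib.MP_45f3cb_gt.FlowC
import Pool.Agent.Lib.MP_45f3cb_gt.FlowD

/-! Flows of compactly supported fields. -/

open scoped ContDiff Topology
open Set Real Filter
open Complex (I)

noncomputable section

namespace Pool.Agent.Lib.MP_7ed551_gt.Cy.FA

open Pool.Agent.Lib.MP_ccffa6_gt (Form1 Bil dF pb dF_apply dF_add dF_smul dF_pb dF_fderiv
  contDiff_dF contDiff_pb)

open Pool.Agent.Lib.MP_45f3cb_gt (IsFlow exists_isFlow lin_ode_zero)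

variable {V : Type} [NormedAddCommGroup V] [NormedSpace ℝ V] [FiniteDimensional ℝ V]

theorem flow0 {Y : V → V} (hY : ContDiff ℝ ∞ Y) (hc : ∃ R : ℝ, ∀ x, R ≤ ‖x‖ → Y x = 0) :
    ∃ Φ : ℝ → V → V, IsFlow Y Φ ∧ Dif (Φ 1) (Φ (-1)) := by
  obtain ⟨R, hR⟩ := hc
  have : ProperSpace V := FiniteDimensional.proper_real V
  obtain ⟨Φ, h⟩ := exists_isFlow hY (HasCompactSupport.intro (isCompact_closedBall 0 R)
    fun x hx => hR x (not_le.1 (mt mem_closedBall_zero_iff.2 hx)).le)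
  refine ⟨Φ, h, h.sm_t _, h.sm_t _, fun x => ?_, fun x => ?_, R, fun x hx => h.fix (hR x hx) 1⟩
  · rw [← h.add, neg_add_cancel, h.zero]
  · rw [← h.add, add_neg_cancel, h.zero]

theorem gron {F : Type} [NormedAddCommGroup F] [NormedSpace ℝ F] {y y' : ℝ → F} {C t₀ : ℝ}
    (hy : ∀ t ∈ Icc (0 : ℝ) 1, HasDerivAt y (y' t) t) (hC : ∀ t ∈ Icc (0 : ℝ) 1, ‖y' t‖ ≤ C * ‖y t‖)
    (h0 : t₀ ∈ Icc (0 : ℝ) 1) (h1 : y t₀ = 0) : ∀ t ∈ Icc (0 : ℝ) 1, y t = 0 := by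
  intro t ht
  rcases le_total t₀ t with h | h
  · have m : ∀ x ∈ Icc t₀ t, x ∈ Icc (0 : ℝ) 1 := fun x hx => ⟨h0.1.trans hx.1, hx.2.trans ht.2⟩
    exact eq_zero_of_abs_deriv_le_mul_abs_self_of_eq_zero_right (f' := y') (K := C)
      (fun x hx => (hy x (m x hx)).continuousAt.continuousWithinAt)
      (fun x hx => (hy x (m x (Ico_subset_Icc_self hx))).hasDerivWithinAt) h1
      (fun x hx => hC x (m x (Ico_subset_Icc_self hx))) t ⟨h, le_rfl⟩
  · have m : ∀ x ∈ Icc (-t₀) (-t), -x ∈ Icc (0 : ℝ) 1 := fun x hx =>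
      ⟨by linarith [hx.2, ht.1], by linarith [hx.1, h0.2]⟩
    have d : ∀ x ∈ Icc (-t₀) (-t), HasDerivAt (fun r => y (-r)) (-y' (-x)) x := fun x hx => by
      simpa [Function.comp_def] using (hy _ (m x hx)).scomp x (hasDerivAt_neg x)
    simpa using eq_zero_of_abs_deriv_le_mul_abs_self_of_eq_zero_right (f := fun r => y (-r))
      (f' := fun x => -y' (-x)) (K := C) (fun x hx => (d x hx).continuousAt.continuousWithinAt)
      (fun x hx => (d x (Ico_subset_Icc_self hx)).hasDerivWithinAt) (by simpa using h1)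
      (fun x hx => by simpa using hC _ (m x (Ico_subset_Icc_self hx))) (-t) ⟨by linarith, le_rfl⟩

theorem tflow {X : ℝ × V → V} (hX : ContDiff ℝ ∞ X) (hc : ∃ R : ℝ, ∀ t x, R ≤ ‖x‖ → X (t, x) = 0) :
    ∃ (ψ : ℝ × V → V) (ψ' : V → V), ContDiff ℝ ∞ ψ ∧ (∀ x, ψ (0, x) = x) ∧
      (∀ x, ∀ t ∈ Icc (0 : ℝ) 1, HasDerivAt (fun t => ψ (t, x)) (X (t, ψ (t, x))) t) ∧
      Dif (fun x => ψ (1, x)) ψ' := by
  obtain ⟨R, hR⟩ := hc
  let b : ContDiffBump (0 : ℝ × V) := ⟨max R 2, max R 2 + 1, by positivity, by linarith⟩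
  obtain ⟨Φ, h⟩ := exists_isFlow (Y := fun p : ℝ × V => b p • ((1 : ℝ), X p))
    (b.contDiff.smul (contDiff_const.prodMk hX)) b.hasCompactSupport.smul_right
  obtain ⟨K, hK⟩ := h.lip
  have d1 : ∀ p t, HasDerivAt (fun t => (Φ t p).1) (b (Φ t p) • (1 : ℝ)) t := fun p t =>
    (ContinuousLinearMap.fst ℝ ℝ V).hasFDerivAt.comp_hasDerivAt t (h.der p t)
  have d2 : ∀ p t, HasDerivAt (fun t => (Φ t p).2) (b (Φ t p) • X (Φ t p)) t := fun p t =>
    (ContinuousLinearMap.snd ℝ ℝ V).hasFDerivAt.comp_hasDerivAt t (h.der p t)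
  have inv : ∀ s p, Φ (-s) (Φ s p) = p := fun s p => by rw [← h.add, neg_add_cancel, h.zero]
  have far : ∀ p : ℝ × V, R ≤ ‖p.2‖ → ∀ t, (Φ t p).2 = p.2 := fun p hp t => by
    have := MP_45f3cb_gt.flowC_gron (K := K) (fun t => (d2 p t).sub_const p.2) (fun t => by
      have h1 := (norm_snd_le _).trans (hK.norm_sub_le (Φ t p) ((Φ t p).1, p.2))
      simpa [hR _ _ hp, Prod.norm_def] using h1) t
    simpa [h.zero, sub_eq_zero] using this
  have near : ∀ p : ℝ × V, ‖p.2‖ < R → ∀ t, ‖(Φ t p).2‖ < R := fun p hp t => not_le.1 fun a => by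
    have := far _ a (-t)
    rw [inv] at this
    exact hp.not_ge (this ▸ a)
  have one : ∀ p : ℝ × V, ‖p.2‖ < R → |p.1| ≤ 1 → ∀ t ∈ Icc (-1 : ℝ) 1, b (Φ t p) = 1 :=
    fun p hp h1 t ht => by
    have h2 := convex_univ.norm_image_sub_le_of_norm_hasDerivWithin_le (C := 1)
      (fun t _ => (d1 p t).hasDerivWithinAt) (fun t _ => by
        simpa [abs_of_nonneg b.nonneg] using b.le_one) (mem_univ 0) (mem_univ t)
    rw [h.zero, sub_zero, one_mul, norm_eq_abs, norm_eq_abs] at h2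
    refine b.one_of_mem_closedBall (mem_closedBall_zero_iff.2 (max_le ?_ ?_))
    · refine le_trans ?_ (le_max_right R 2)
      linarith [abs_sub_abs_le_abs_sub (Φ t p).1 p.1, abs_le.2 ht, norm_eq_abs (Φ t p).1]
    · exact (near p hp t).le.trans (le_max_left R 2)
  have tim : ∀ p : ℝ × V, ‖p.2‖ < R → |p.1| ≤ 1 → ∀ t ∈ Icc (-1 : ℝ) 1,
      Φ t p = (p.1 + t, (Φ t p).2) := fun p hp h1 t ht => by
    have h2 := (convex_Icc (-1 : ℝ) 1).norm_image_sub_le_of_norm_hasDerivWithin_le (C := 0)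
      (fun t _ => ((d1 p t).fun_sub (hasDerivAt_id' t)).hasDerivWithinAt)
      (fun t ht => by simp [one p hp h1 t ht]) ⟨by norm_num, zero_le_one⟩ ht
    rw [h.zero, zero_mul, norm_le_zero_iff] at h2
    exact Prod.ext (by linarith) rfl
  have hs := h.sm
  refine ⟨fun p => (Φ p.1 (0, p.2)).2, fun y => (Φ (-1) (1, y)).2,
    (hs.comp (contDiff_fst.prodMk (contDiff_const.prodMk contDiff_snd))).snd,
    fun x => by simp only [h.zero], fun x t ht => ?_,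
    ((h.sm_t 1).comp (contDiff_const.prodMk contDiff_id)).snd,
    ((h.sm_t (-1)).comp (contDiff_const.prodMk contDiff_id)).snd, fun x => ?_, fun x => ?_,
    R, fun x hx => far (0, x) hx 1⟩
  · have ht' : t ∈ Icc (-1 : ℝ) 1 := ⟨by linarith [ht.1], ht.2⟩
    refine (d2 (0, x) t).congr_deriv ?_
    rcases lt_or_ge ‖x‖ R with hx | hx
    · rw [one (0, x) hx (by simp) t ht', one_smul, tim (0, x) hx (by simp) t ht', zero_add]
    · have h1 := hx.trans_eq (congrArg norm (far (0, x) hx t).symm)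
      rw [hR t _ h1, hR (Φ t (0, x)).1 _ h1, smul_zero]
  · rcases lt_or_ge ‖x‖ R with hx | hx
    · have h1 := inv 1 (0, x)
      rw [tim (0, x) hx (by simp) 1 ⟨by norm_num, le_rfl⟩, zero_add] at h1
      exact congrArg Prod.snd h1
    · simp only [far (0, x) hx, far (1, x) hx]
  · rcases lt_or_ge ‖x‖ R with hx | hx
    · have h1 := inv (-1) (1, x)
      rw [tim (1, x) hx (by simp) (-1) ⟨le_rfl, by norm_num⟩, add_neg_cancel, neg_neg] at h1
      exact congrArg Prod.snd h1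
    · simp only [far (0, x) hx, far (1, x) hx]

theorem tor_inv_aux1 {r : ℝ} (hr : 0 < r) (w : ℂ) :
    ∃ v : ℂ, ‖v‖ = r ∧ ‖w - v‖ ≤ |‖w‖ ^ 2 - r ^ 2| / r := by
  obtain ⟨c, h1, h2⟩ := Complex.exists_norm_mul_eq_self w
  refine ⟨c * r, by simp [h1, hr.le], ?_⟩
  have e : w - c * r = c * ((‖w‖ - r : ℝ) : ℂ) := by
    rw [Complex.ofReal_sub, mul_sub, h2]
  rw [e, norm_mul, h1, one_mul, Complex.norm_real, Real.norm_eq_abs, le_div_iff₀ hr, sq_sub_sq,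
    abs_mul, mul_comm, abs_of_pos (by positivity : 0 < ‖w‖ + r)]
  exact mul_le_mul_of_nonneg_right (le_add_of_nonneg_left (norm_nonneg _)) (abs_nonneg _)

theorem tor_inv {r : ℝ} (hr : 0 < r) {X : ℝ × E → E} (hX : ContDiff ℝ ∞ X)
    (hc : ∃ R : ℝ, ∀ t x, R ≤ ‖x‖ → X (t, x) = 0)
    (ht : ∀ t, ∀ y ∈ Ls r, ∃ a b : ℝ, X (t, y) = (a * (I * y.1), b * (I * y.2))) {γ : ℝ → E}
    (hγ : ∀ t ∈ Icc (0 : ℝ) 1, HasDerivAt γ (X (t, γ t)) t) : γ 0 ∈ Ls r ↔ γ 1 ∈ Ls r := by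
  let g : ℝ × E → ℝ × ℝ := fun p => (2 * inner ℝ p.2.1 (X p).1, 2 * inner ℝ p.2.2 (X p).2)
  have hg : ContDiff ℝ ∞ g :=
    (contDiff_const.mul (contDiff_snd.fst.inner ℝ hX.fst)).prodMk
      (contDiff_const.mul (contDiff_snd.snd.inner ℝ hX.snd))
  obtain ⟨ρ, hρ⟩ := isCompact_Icc.exists_bound_of_continuousOn (HasDerivAt.continuousOn hγ)
  obtain ⟨K, hK⟩ := hg.contDiffOn.exists_lipschitzOnWith (by simp)
    ((convex_Icc (0 : ℝ) 1).prod (convex_closedBall (0 : E) (max ρ r)))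
    (isCompact_Icc.prod (isCompact_closedBall _ _))
  have g0 : ∀ t, ∀ y ∈ Ls r, g (t, y) = 0 := fun t y hy => by
    obtain ⟨a, b, e⟩ := ht t y hy
    simp only [g, e, Complex.inner, Prod.mk_eq_zero]
    constructor <;> simp <;> ring
  have key := fun t₀ => gron (y := fun t => (‖(γ t).1‖ ^ 2 - r ^ 2, ‖(γ t).2‖ ^ 2 - r ^ 2))
    (y' := fun t => g (t, γ t)) (C := K / r) (t₀ := t₀)
    (fun t h => ((HasDerivAt.norm_sq ((ContinuousLinearMap.fst ℝ ℂ ℂ).hasFDerivAt.comp_hasDerivAt t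
      (hγ t h))).sub_const _).prodMk ((HasDerivAt.norm_sq
        ((ContinuousLinearMap.snd ℝ ℂ ℂ).hasFDerivAt.comp_hasDerivAt t (hγ t h))).sub_const _))
    fun t h => by
      obtain ⟨v, a1, a2⟩ := tor_inv_aux1 hr (γ t).1
      obtain ⟨w, b1, b2⟩ := tor_inv_aux1 hr (γ t).2
      have := hK.dist_le_mul (t, γ t)
        ⟨h, mem_closedBall_zero_iff.2 ((hρ t h).trans (le_max_left _ _))⟩ (t, v, w)
        ⟨h, mem_closedBall_zero_iff.2 (by simp [Prod.norm_def, a1, b1])⟩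
      rw [g0 t (v, w) ⟨a1, b1⟩, dist_zero_right, dist_prod_same_left, dist_eq_norm] at this
      rw [div_mul_eq_mul_div, mul_div_assoc]
      refine this.trans (mul_le_mul_of_nonneg_left (max_le (a2.trans ?_) (b2.trans ?_)) K.2)
      · exact div_le_div_of_nonneg_right (le_max_left _ _) hr.le
      · exact div_le_div_of_nonneg_right (le_max_right _ _) hr.le
  have m : ∀ y : E, y ∈ Ls r ↔ (‖y.1‖ ^ 2 - r ^ 2, ‖y.2‖ ^ 2 - r ^ 2) = 0 := fun y => by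
    rw [Prod.mk_eq_zero, sub_eq_zero, sub_eq_zero, sq_eq_sq₀ (norm_nonneg _) hr.le,
      sq_eq_sq₀ (norm_nonneg _) hr.le]
    rfl
  rw [m, m]
  exact ⟨fun h => key 0 (by simp) h 1 (by simp), fun h => key 1 (by simp) h 0 (by simp)⟩

end Pool.Agent.Lib.MP_7ed551_gt.Cy.FA
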