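import Pool.Agent.Lib.MP_7ed551_gt.Cy.A.Lin
import Pool.Agent.Lib.MP_7ed551_gt.Cy.A.TFlow

/-! Shears and stretches. -/

open scoped ContDiff Topology
open Set Real Filter
open Complex (I)

noncomputable section

namespace Pool.Agent.Lib.MP_7ed551_gt.Cy.FA

open Pool.Agent.Lib.MP_ccffa6_gt (Form1 Bil dF pb dF_apply dF_add dF_smul dF_pb dF_fderiv
  contDiff_dF contDiff_pb)

open Pool.Agent.Lib.MP_45f3cb_gt (IsFlow lin_ode_zero)

theorem shear_aux {Y : E → E} {Φ : ℝ → E → E} (h : IsFlow Y Φ) (L : E →L[ℝ] ℂ)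
    (e : ∀ x, L (Y x) = 0) (x : E) : L (Φ 1 x) = L x := by
  have k (t : ℝ) : HasDerivAt (fun t => L (Φ t x)) 0 t :=
    e (Φ t x) ▸ L.hasFDerivAt.comp_hasDerivAt t (h.der x t)
  rw [is_const_of_deriv_eq_zero (fun t => (k t).differentiableAt) (fun t => (k t).deriv) 1 0, h.zero]

theorem shear {p : ℂ → ℂ} (hp : ContDiff ℝ ∞ p) (hc : HasCompactSupport p) (ρ : ℝ) :
    ∃ A A' : E → E, Dif A A' ∧ (∀ x, (A x).2 = x.2) ∧
      ∀ x : E, ‖x.1‖ ≤ ρ → A x = (x.1 + p x.2, x.2) := by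
  obtain ⟨M, hM⟩ := hp.continuous.bounded_above_of_compact_support hc
  obtain ⟨R, -, hR⟩ := hc.exists_pos_le_norm
  let b : ContDiffBump (0 : ℂ) := ⟨|ρ| + |M| + 1, |ρ| + |M| + 2, by positivity, by linarith⟩
  obtain ⟨Φ, h1, h2⟩ := flow0 (Y := fun x : E => (b x.1 • p x.2, 0))
    (((b.contDiff.comp contDiff_fst).smul (hp.comp contDiff_snd)).prodMk contDiff_const)
    ⟨max R b.rOut, fun x hx => by
      rcases le_max_iff.1 (hx.trans_eq (Prod.norm_def x)) with h | h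
      · rw [b.zero_of_le_dist (by simpa using (le_max_right _ _).trans h), zero_smul]
        rfl
      · rw [hR _ ((le_max_left _ _).trans h), smul_zero]
        rfl⟩
  refine ⟨_, _, h2, shear_aux h1 (ContinuousLinearMap.snd ℝ ℂ ℂ) fun _ => rfl, fun x hx => ?_⟩
  have := h1.uniq (c := fun t => (x.1 + t • p x.2, x.2)) (T := 1) (fun t ht => by
    rw [b.one_of_mem_closedBall (by
      rw [mem_closedBall_zero_iff]
      refine (norm_add_le _ _).trans ?_
      rw [norm_smul, Real.norm_of_nonneg ht.1]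
      change _ ≤ |ρ| + |M| + 1
      nlinarith [hM x.2, norm_nonneg (p x.2), le_abs_self ρ, le_abs_self M, ht.1, ht.2])]
    exact (((hasDerivAt_id t).smul_const _).const_add _).prodMk (hasDerivAt_const _ _)) 1
    ⟨zero_le_one, le_rfl⟩
  simpa using this.symm

theorem stretch {l : E → ℝ} (hl : ContDiff ℝ ∞ l) (hc : HasCompactSupport l) :
    ∃ B B' : E → E, Dif B B' ∧ (∀ x, (B x).1 = x.1) ∧ (∀ x, w1 x.2 (B x).2 = 0) ∧
      ∀ (x : E) (k : ℝ), (∀ t ∈ Icc (0 : ℝ) 1, l (x.1, Real.exp (t * k) • x.2) = k) →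
        B x = (x.1, Real.exp k • x.2) := by
  obtain ⟨M, hM⟩ := hl.continuous.bounded_above_of_compact_support hc
  obtain ⟨R, -, hR⟩ := hc.exists_pos_le_norm
  obtain ⟨Φ, h1, h2⟩ := flow0 (Y := fun x : E => (0, l x • x.2))
    (contDiff_const.prodMk (hl.smul contDiff_snd))
    ⟨R, fun x hx => by rw [hR x hx, zero_smul]; rfl⟩
  refine ⟨_, _, h2, shear_aux h1 (ContinuousLinearMap.fst ℝ ℂ ℂ) fun _ => rfl, fun x => ?_,
    fun x k hk => ?_⟩
  · refine gron (y := fun t => w1 x.2 (Φ t x).2) (y' := fun t => l (Φ t x) * w1 x.2 (Φ t x).2)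
      (C := M) (fun t _ => ?_) (fun t _ => ?_) ⟨le_rfl, zero_le_one⟩ ?_ 1 ⟨zero_le_one, le_rfl⟩
    · refine (hd_w1 (hasDerivAt_const t x.2)
        ((ContinuousLinearMap.snd ℝ ℂ ℂ).hasFDerivAt.comp_hasDerivAt t (h1.der x t))).congr_deriv ?_
      simp [w1]
      ring
    · rw [norm_mul]
      exact mul_le_mul_of_nonneg_right (hM _) (norm_nonneg _)
    · simp [h1.zero, w1, mul_comm]
  · have := h1.uniq (c := fun t => (x.1, Real.exp (t * k) • x.2)) (T := 1) (fun t ht => by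
      rw [hk t ht, smul_smul, mul_comm k]
      exact (hasDerivAt_const _ _).prodMk ((hasDerivAt_mul_const k).exp.smul_const _)) 1
      ⟨zero_le_one, le_rfl⟩
    simpa using this.symm

variable {A A' B B' : E → E}

theorem mod_fib_aux1 {g : E →L[ℝ] ℂ} {F G : E → E} (hF : ContDiff ℝ ∞ F) (hG : ContDiff ℝ ∞ G)
    (e : ∀ x, g (F x) = g (G x)) (x u : E) : g (fderiv ℝ F x u) = g (fderiv ℝ G x u) := by
  have h1 := g.hasFDerivAt.comp x (hF.differentiable (by simp) x).hasFDerivAt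
  rw [show g ∘ F = g ∘ G from funext e] at h1
  exact DFunLike.congr_fun
    (h1.unique (g.hasFDerivAt.comp x (hG.differentiable (by simp) x).hasFDerivAt)) u

theorem mod_fib_aux2 {F F' : E → E} (hF : Dif F F') {g g' : E →L[ℝ] ℂ} {i : ℂ →L[ℝ] E} {c : E}
    (hg : ∀ u v, g u = g v → g' u = g' v → u = v) (e : ∀ x, g' (F x) = g' x)
    (h1 : ∀ w, g (i w + c) = w) (h2 : ∀ w, g' (i w) = 0) (h3 : ∀ x, ‖g x‖ ≤ ‖x‖) (w : ℂ) :
    0 < w1 (g (fderiv ℝ F (i w + c) (i 1))) (g (fderiv ℝ F (i w + c) (i I))) := by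
  have hd : ∀ w, fderiv ℝ (fun w => g (F (i w + c))) w =
      g.comp ((fderiv ℝ F (i w + c)).comp i) := fun w =>
    (g.hasFDerivAt.comp w ((hF.sm.differentiable (by simp) _).hasFDerivAt.comp w
      (i.hasFDerivAt.add_const c))).fderiv
  obtain ⟨R, hR⟩ := hF.far
  have := jac_pos (h := fun w => g (F (i w + c)))
    (g.contDiff.comp (hF.sm.comp (i.contDiff.add contDiff_const))) (fun z a b h => ?_)
    ⟨R, fun z hz => by rw [hR _ (hz.trans ((congrArg norm (h1 z)).ge.trans (h3 _))), h1]⟩ w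
  · rwa [hd] at this
  · rw [hd] at h
    have h4 := fun u => mod_fib_aux1 hF.sm contDiff_id e (i z + c) u
    simp only [fderiv_id, ContinuousLinearMap.id_apply] at h4
    have h5 : i a = i b := hF.inj_fderiv _ (hg _ _ h (by rw [h4, h4, h2, h2]))
    rw [← h1 a, h5, h1]

theorem mod_fib (hA : Dif A A') (hB : Dif B B') (a2 : ∀ x, (A x).2 = x.2) (b1 : ∀ x, (B x).1 = x.1)
    (b2 : ∀ x, w1 x.2 (B x).2 = 0) (b3 : ∀ v, B (v, 0) = (v, 0)) (x : E) :
    0 < fib (dF (pb (fun y => B (A y)) lam0) x) := by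
  obtain ⟨w, z⟩ := x
  have hs := (hB.comp hA).sm
  have h1 := mod_fib_aux2 hA (g := .fst ℝ ℂ ℂ) (g' := .snd ℝ ℂ ℂ) (i := .inl ℝ ℂ ℂ) (c := (0, z))
    (fun _ _ => Prod.ext) a2 (by simp) (by simp) norm_fst_le w
  have h2 := mod_fib_aux1 (g := .fst ℝ ℂ ℂ) hs hA.sm (fun x => b1 _) (w, z)
  have h3 := (ContinuousLinearMap.snd ℝ ℂ ℂ).hasFDerivAt.comp w
    ((hs.differentiable (by simp) (w, z)).hasFDerivAt.comp w (hasFDerivAt_prodMk_left w z))
  have h4 : ∀ (V : Type) [NormedAddCommGroup V] [NormedSpace ℝ V] (g : ℂ →L[ℝ] V),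
      (∀ w, g (B (A (w, z))).2 = 0) → ∀ u, g (fderiv ℝ (fun y => B (A y)) (w, z) (u, 0)).2 = 0 :=
    fun V _ _ g e u => DFunLike.congr_fun ((g.hasFDerivAt.comp w h3).unique
      ((hasFDerivAt_const 0 w).congr_of_eventuallyEq (.of_forall e))) u
  rw [fib, dF_pb (hs.contDiffAt.of_le (by norm_cast)) (contDiff_lam0.differentiable (by simp) _),
    dF_lam0, om]
  simp only [ContinuousLinearMap.coe_fst', ContinuousLinearMap.inl_apply, Prod.mk_add_mk, add_zero,
    zero_add] at h1 h2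
  rw [h2, h2]
  refine h1.trans_le (le_add_of_nonneg_right (ge_of_eq ?_))
  by_cases c : z = 0
  · have h5 := h4 ℂ (.id ℝ ℂ) (fun w => by
      rw [show A (w, z) = ((A (w, z)).1, 0) from Prod.ext rfl ((a2 _).trans c), b3]; rfl) 1
    rw [ContinuousLinearMap.id_apply] at h5
    simp [h5, w1]
  · have h5 := h4 ℝ (w1L z) fun w => by simpa [w1L, w1, a2] using b2 (A (w, z))
    have h6 := h5 1
    have h7 := h5 I
    generalize (fderiv ℝ (fun y => B (A y)) (w, z) (1, 0)).2 = a at h6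
    generalize (fderiv ℝ (fun y => B (A y)) (w, z) (I, 0)).2 = b at h7
    simp only [w1L, sub_apply, ContinuousLinearMap.smulRight_apply, smul_apply, smul_eq_mul,
      Complex.reCLM_apply, Complex.imCLM_apply] at h6 h7
    refine mul_left_cancel₀ (Complex.normSq_pos.2 c).ne' ?_
    rw [Complex.normSq_apply, w1]
    linear_combination (z.re * a.re + z.im * a.im) * h7 - (z.re * b.re + z.im * b.im) * h6

theorem mod_gr (hA : Dif A A') (hB : Dif B B') (a2 : ∀ x, (A x).2 = x.2) (b1 : ∀ x, (B x).1 = x.1)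
    (z : ℂ) : 0 < gr (dF (pb (fun y => B (A y)) lam0) ((A' (0, z)).1, z))
      (fderiv ℝ (fun z => (A' (0, z)).1) z) := by
  have hs := (hB.comp hA).sm
  have h1 := mod_fib_aux2 hB (g := .snd ℝ ℂ ℂ) (g' := .fst ℝ ℂ ℂ) (i := .inr ℝ ℂ ℂ) (c := 0)
    (fun _ _ h h' => Prod.ext h' h) b1 (by simp) (by simp) norm_snd_le z
  have h2 := mod_fib_aux1 (g := .fst ℝ ℂ ℂ) hB.sm contDiff_id b1 (0, z)
  have h3 : DifferentiableAt ℝ (fun z => (A' (0, z)).1) z :=
    (hA.sm'.comp (contDiff_const.prodMk contDiff_id)).fst.differentiable (by simp) z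
  have h4 := (hs.differentiable (by simp) _).hasFDerivAt.comp z
    (h3.hasFDerivAt.prodMk (hasFDerivAt_id z))
  have h5 := (hB.sm.differentiable (by simp) (0, z)).hasFDerivAt.comp z
    (hasFDerivAt_prodMk_right 0 z)
  have h6 := DFunLike.congr_fun (h4.unique (h5.congr_of_eventuallyEq (.of_forall fun y =>
    congrArg B ((congrArg A (Prod.ext (x := (_, y)) (y := A' (0, y)) rfl ((a2 _).symm.trans
      (congrArg Prod.snd (hA.right (0, y)))).symm)).trans (hA.right _)))))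
  rw [gr, dF_pb (hs.contDiffAt.of_le (by norm_cast)) (contDiff_lam0.differentiable (by simp) _),
    dF_lam0, om]
  simp only [ContinuousLinearMap.coe_fst', ContinuousLinearMap.coe_snd',
    ContinuousLinearMap.inr_apply, add_zero, fderiv_id, ContinuousLinearMap.id_apply,
    ContinuousLinearMap.comp_apply, ContinuousLinearMap.prod_apply, id] at h1 h2 h6
  rw [h6, h6, h2, h2]
  simpa [w1] using h1

end Pool.Agent.Lib.MP_7ed551_gt.Cy.FA
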