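import Pool.Agent.Lib.MP_7ed551_gt.Cy.A.Lin
import Pool.Agent.Lib.MP_7ed551_gt.Cy.A.TFlow

/-! The argument of Moser. -/

open scoped ContDiff Topology
open Set Real Filter
open Complex (I)

noncomputable section

namespace Pool.Agent.Lib.MP_7ed551_gt.Cy.FA

open Pool.Agent.Lib.MP_ccffa6_gt (Form1 Bil dF pb dF_apply dF_add dF_smul dF_pb dF_fderiv
  contDiff_dF contDiff_pb)

theorem dd_zero {V : Type} [NormedAddCommGroup V] [NormedSpace ℝ V] [FiniteDimensional ℝ V]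
    {θ : Form1 V} (h : ContDiff ℝ ∞ θ) (x a b c : V) :
    fderiv ℝ (fun y => dF θ y b c) x a + fderiv ℝ (fun y => dF θ y c a) x b +
      fderiv ℝ (fun y => dF θ y a b) x c = 0 := by
  have d := ((h.fderiv_right (m := ∞) (by simp)).differentiable (by simp) x).hasFDerivAt
  have s := (h.contDiffAt (x := x)).isSymmSndFDerivAt (by simp; norm_cast)
  have e : ∀ a b c, fderiv ℝ (fun y => dF θ y b c) x a =
      fderiv ℝ (fderiv ℝ θ) x a b c - fderiv ℝ (fderiv ℝ θ) x a c b := fun a b c => by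
    simp only [dF_apply]
    rw [(((d.clm_apply (hasFDerivAt_const b x)).clm_apply (hasFDerivAt_const c x)).fun_sub
      ((d.clm_apply (hasFDerivAt_const c x)).clm_apply (hasFDerivAt_const b x))).fderiv]
    simp
  rw [e, e, e, s a b, s a c, s b c]
  ring

theorem moser_field {F : ℝ × E → E →L[ℝ] ℝ} (hF : ContDiff ℝ ∞ F)
    (nd : ∀ t x, Pf (dF (fun y => F (t, y)) x) ≠ 0) :
    ∃ X : ℝ × E → E, ContDiff ℝ ∞ X ∧ ∀ t x v,
      dF (fun y => F (t, y)) x (X (t, x)) v = -fderiv ℝ F (t, x) (1, 0) v := by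
  obtain ⟨W, hW⟩ : ∃ W : ℝ × E → Bil E, W = fun p => dF (fun y => F (p.1, y)) p.2 := ⟨_, rfl⟩
  have hD : ContDiff ℝ ∞ (fderiv ℝ F) := hF.fderiv_right (by simp)
  have h1 : ContDiff ℝ ∞ W := by
    refine contDiff_clm_apply_iff.2 fun u => contDiff_clm_apply_iff.2 fun v => ?_
    have e : ∀ (p : ℝ × E) u, fderiv ℝ (fun y => F (p.1, y)) p.2 u = fderiv ℝ F p (0, u) :=
      fun p u => (DFunLike.congr_fun ((hF.differentiable (by simp) (p.1, p.2)).hasFDerivAt.comp p.2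
        (hasFDerivAt_prodMk_right p.1 p.2)).fderiv u :)
    simp only [hW, dF_apply, e]
    exact ((hD.clm_apply contDiff_const).clm_apply contDiff_const).sub
      ((hD.clm_apply contDiff_const).clm_apply contDiff_const)
  have h2 : ∀ p, (W p).IsInvertible := fun p =>
    ⟨((W p : E →ₗ[ℝ] E →L[ℝ] ℝ).linearEquivOfInjective
      (by rw [hW]; exact (pf_ne_iff (alt_dF _ _)).1 (nd _ _)) (Subspace.dual_finrank_eq.symm.trans
        LinearMap.toContinuousLinearMap.finrank_eq)).toContinuousLinearEquiv, rfl⟩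
  refine ⟨fun p => (W p).inverse (-fderiv ℝ F p (1, 0)), contDiff_iff_contDiffAt.2 fun p =>
    ((h2 p).contDiffAt_map_inverse.comp p h1.contDiffAt).clm_apply
      (hD.clm_apply contDiff_const).neg.contDiffAt, fun t x v => ?_⟩
  subst hW
  exact DFunLike.congr_fun ((h2 (t, x)).self_apply_inverse _) v

theorem moser_pull_aux {W : Type} [NormedAddCommGroup W] [NormedSpace ℝ W] {g : ℝ × E → W}
    (hg : ContDiff ℝ ∞ g) (t : ℝ) (x : E) :
    (∀ u, fderiv ℝ (fun y => g (t, y)) x u = fderiv ℝ g (t, x) (0, u)) ∧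
      HasDerivAt (fun t => g (t, x)) (fderiv ℝ g (t, x) (1, 0)) t :=
  have d := (hg.differentiable (by simp) (t, x)).hasFDerivAt
  ⟨fun u => DFunLike.congr_fun (d.comp x (hasFDerivAt_prodMk_right t x)).fderiv u,
    d.comp_hasDerivAt t ((hasDerivAt_id t).prodMk (hasDerivAt_const t x))⟩

theorem moser_pull {F : ℝ × E → E →L[ℝ] ℝ} (hF : ContDiff ℝ ∞ F) {X : ℝ × E → E}
    (hX : ∀ t x v, dF (fun y => F (t, y)) x (X (t, x)) v = -fderiv ℝ F (t, x) (1, 0) v)
    {ψ : ℝ × E → E} (hψ : ContDiff ℝ ∞ ψ) (h0 : ∀ x, ψ (0, x) = x)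
    (hd : ∀ x, ∀ t ∈ Icc (0 : ℝ) 1, HasDerivAt (fun t => ψ (t, x)) (X (t, ψ (t, x))) t) (x u v : E) :
    dF (fun y => F (1, y)) (ψ (1, x)) (fderiv ℝ (fun y => ψ (1, y)) x u)
      (fderiv ℝ (fun y => ψ (1, y)) x v) = dF (fun y => F (0, y)) x u v := by
  have hG : ContDiff ℝ ∞ fun p => (F p).comp (ContinuousLinearMap.snd ℝ ℝ E) :=
    hF.clm_comp contDiff_const
  have hΓ : ContDiff ℝ ∞ fun p : ℝ × E => (p.1, ψ p) := contDiff_fst.prodMk hψ
  have hθ := contDiff_pb hΓ hG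
  set θ := pb (fun p : ℝ × E => (p.1, ψ p)) fun p => (F p).comp (ContinuousLinearMap.snd ℝ ℝ E)
  have e : ∀ p a b, dF θ p a b = fderiv ℝ F (p.1, ψ p) (a.1, fderiv ℝ ψ p a) (fderiv ℝ ψ p b) -
      fderiv ℝ F (p.1, ψ p) (b.1, fderiv ℝ ψ p b) (fderiv ℝ ψ p a) := fun p a b => by
    rw [dF_pb (hΓ.contDiffAt.of_le (by norm_cast)) (hG.differentiable (by simp) _), dF_apply,
      (hasFDerivAt_fst.prodMk (hψ.differentiable (by simp) p).hasFDerivAt).fderiv,
      ((hF.differentiable (by simp) _).hasFDerivAt.clm_comp (hasFDerivAt_const _ _)).fderiv]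
    simp
  have sm : ∀ a b, ContDiff ℝ ∞ fun p => dF θ p a b := fun a b =>
    ((contDiff_dF hθ).clm_apply contDiff_const).clm_apply contDiff_const
  have z : ∀ t ∈ Icc (0 : ℝ) 1, ∀ y w, dF θ (t, y) (1, 0) (0, w) = 0 := fun t ht y w => by
    have := hX t (ψ (t, y)) (fderiv ℝ ψ (t, y) (0, w))
    rw [dF_apply, (moser_pull_aux hF _ _).1, (moser_pull_aux hF _ _).1] at this
    rw [e, (moser_pull_aux hψ t y).2.unique (hd y t ht), show ((1 : ℝ), X (t, ψ (t, y))) =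
      (1, 0) + (0, X (t, ψ (t, y))) by simp, map_add, add_apply]
    linarith
  have c := constant_of_has_deriv_right_zero (f := fun t => dF θ (t, x) (0, u) (0, v))
    ((sm _ _).continuous.comp (Continuous.prodMk_left x)).continuousOn (fun t ht =>
      ((moser_pull_aux (sm _ _) t x).2.congr_deriv ?_).hasDerivWithinAt) 1 ⟨zero_le_one, le_rfl⟩
  · simpa only [e, dF_apply, ← (moser_pull_aux hψ _ _).1, (moser_pull_aux hF _ _).1, h0,
      fderiv_fun_id, ContinuousLinearMap.id_apply] using c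
  · have := dd_zero hθ (t, x) (1, 0) (0, u) (0, v)
    have a : ∀ y, dF θ (t, y) (0, v) (1, 0) = 0 := fun y => by
      rw [dF_apply, ← neg_sub, ← dF_apply, z t (Ico_subset_Icc_self ht), neg_zero]
    simpa only [← (moser_pull_aux (sm _ _) t x).1, a, z t (Ico_subset_Icc_self ht),
      fderiv_fun_const, Pi.zero_apply, zero_apply, add_zero] using this

theorem iso0 {r : ℝ} (hr : 0 < r) {F : ℝ × E → E →L[ℝ] ℝ} (hF : ContDiff ℝ ∞ F)
    (nd : ∀ t x, Pf (dF (fun y => F (t, y)) x) ≠ 0)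
    (far : ∃ R : ℝ, ∀ t x, R ≤ ‖x‖ → F (t, x) = F (0, x))
    (lag : ∀ t, LagS r fun y => F (t, y))
    (cst : ∀ t, ∀ y ∈ Ls r, F (t, y) (0, I * y.2) = F (0, y) (0, I * y.2) ∧
      F (t, y) (I * y.1, 0) = F (0, y) (I * y.1, 0)) :
    Rel r (fun y => F (0, y)) fun y => F (1, y) := by
  obtain ⟨X, h1, h2⟩ := moser_field hF nd
  have h3 : ∀ t x v, (∀ t, F (t, x) v = F (0, x) v) →
      dF (fun y => F (t, y)) x (X (t, x)) v = 0 := fun t x v h => by
    have e := ((hF.differentiable (by simp) (t, x)).hasFDerivAt.comp_hasDerivAt t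
      ((hasDerivAt_id t).prodMk (hasDerivAt_const t x))).clm_apply (hasDerivAt_const t v)
    simp only [Function.comp, id, h, map_zero, add_zero] at e
    rw [h2, e.unique (hasDerivAt_const t _), neg_zero]
  have h4 : ∃ R : ℝ, ∀ t x, R ≤ ‖x‖ → X (t, x) = 0 := far.imp fun R h t x hx =>
    (pf_ne_iff (alt_dF _ _)).1 (nd t x) ((ContinuousLinearMap.ext fun v =>
      h3 t x v fun t => by rw [h t x hx]).trans (map_zero _).symm)
  obtain ⟨ψ, ψ', h5, h6, h7, h8⟩ := tflow h1 h4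
  have h9 : ∀ x, x ∈ Ls r ↔ ψ (1, x) ∈ Ls r := fun x => by
    simpa only [h6] using tor_inv hr h1 h4 (fun t y hy => lag_perp (alt_dF _ _) (nd t y)
      (norm_pos_iff.1 (hy.1 ▸ hr)) (norm_pos_iff.1 (hy.2 ▸ hr)) (lag t y hy)
      (h3 t y _ fun t => (cst t y hy).1) (h3 t y _ fun t => (cst t y hy).2)) (h7 x)
  refine ⟨_, ψ', h8, Subset.antisymm (image_subset_iff.2 fun x => (h9 x).1) fun y hy =>
    ⟨ψ' y, (h9 _).2 ?_, h8.right y⟩, moser_pull hF h2 h5 h6 h7⟩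
  rwa [h8.right y]

theorem Rel.refl (r : ℝ) (Λ : Form1 E) : Rel r Λ Λ := by
  exact ⟨id, id, ⟨contDiff_id, contDiff_id, fun _ => rfl, fun _ => rfl, 0, fun _ _ => rfl⟩,
    image_id _, by simp⟩

theorem Rel.symm {r : ℝ} {Λ Λ' : Form1 E} (h : Rel r Λ Λ') : Rel r Λ' Λ := by
  obtain ⟨ψ, ψ', h1, h2, h3⟩ := h
  refine ⟨ψ', ψ, h1.symm, ?_, fun x u v => ?_⟩
  · conv_lhs => rw [← h2, Function.LeftInverse.image_image h1.left]
  have e : ∀ u, fderiv ℝ ψ (ψ' x) (fderiv ℝ ψ' x u) = u := fun u => by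
    rw [← ContinuousLinearMap.comp_apply, ← fderiv_comp _ (h1.sm.differentiable (by simp) _)
      (h1.sm'.differentiable (by simp) _), show ψ ∘ ψ' = id from funext h1.right, fderiv_id]
    rfl
  rw [← h3, e, e, h1.right]

theorem Rel.trans {r : ℝ} {Λ Λ' Λ'' : Form1 E} (h : Rel r Λ Λ') (h' : Rel r Λ' Λ'') :
    Rel r Λ Λ'' := by
  obtain ⟨ψ, ψ', h1, h2, h3⟩ := h
  obtain ⟨φ, φ', h4, h5, h6⟩ := h'
  refine ⟨_, _, h4.comp h1, by rw [← image_image, h2, h5], fun x u v => ?_⟩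
  rw [fderiv_fun_comp _ (h4.sm.differentiable (by simp) _) (h1.sm.differentiable (by simp) _)]
  exact (h6 _ _ _).trans (h3 x u v)

end Pool.Agent.Lib.MP_7ed551_gt.Cy.FA
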