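import Pool.Agent.Lib.MP_7ed551_gt.Cy.A.Moser
import Pool.Agent.Lib.MP_42bfd7_mp.ParInt

/-! Primitives on the torus. -/

open scoped ContDiff Topology
open Set Real Filter
open Complex (I)

noncomputable section

namespace Pool.Agent.Lib.MP_7ed551_gt.Cy.FA

open Pool.Agent.Lib.MP_ccffa6_gt (Form1 Bil dF pb dF_apply dF_add dF_smul dF_pb dF_fderiv
  contDiff_dF contDiff_pb)

theorem arg_ext {V W : Type} [NormedAddCommGroup V] [NormedSpace ℝ V] [NormedAddCommGroup W]
    [NormedSpace ℝ W] {r : ℝ} (hr : 0 < r) {F : V × ℝ → W} (hF : ContDiff ℝ ∞ F)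
    (hp : ∀ v θ, F (v, θ + 2 * π) = F (v, θ)) :
    ∃ G : V × ℂ → W, ContDiff ℝ ∞ G ∧ (∀ v (θ : ℝ), G (v, r * Complex.exp (θ * I)) = F (v, θ)) ∧
      (∀ v z, 2 * r ≤ ‖z‖ → G (v, z) = 0) ∧ (∀ v z, (∀ θ, F (v, θ) = 0) → G (v, z) = 0) ∧
      ∀ v v' z, (∀ θ, F (v, θ) = F (v', θ)) → G (v, z) = G (v', z) := by
  have h2 : 0 < r ^ 2 := by positivity
  let χ : ContDiffBump (r ^ 2) := ⟨r ^ 2 / 4, r ^ 2 / 2, by positivity, by linarith⟩
  have h0 : ∀ t : ℝ, r ^ 2 / 2 ≤ |t - r ^ 2| → χ t = 0 := fun t ht => χ.zero_of_le_dist ht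
  refine ⟨fun y => χ (‖y.2‖ ^ 2) • F (y.1, Complex.arg y.2), contDiff_iff_contDiffAt.2 fun y => ?_,
    fun v θ => ?_, fun v z hz => ?_, fun v z h => by simp only [h, smul_zero],
    fun v v' z h => by simp only [h]⟩
  · by_cases hy : y.2 = 0
    · refine (contDiffAt_const (c := 0)).congr_of_eventuallyEq ?_
      have hU : IsOpen {x : V × ℂ | ‖x.2‖ ^ 2 < r ^ 2 / 2} := isOpen_lt (by fun_prop) (by fun_prop)
      filter_upwards [hU.mem_nhds (show ‖y.2‖ ^ 2 < r ^ 2 / 2 by simpa [hy] using h2)] with x hx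
      rw [h0 _ (le_abs.2 (Or.inr (by linarith))), zero_smul]
    refine (χ.contDiff.comp ((contDiff_norm_sq ℝ).comp contDiff_snd)).contDiffAt.smul ?_
    have hU : IsOpen {x : V × ℂ | x.2 ≠ 0} := isOpen_ne_fun (by fun_prop) (by fun_prop)
    have h1 := pol_mem (θ := Complex.arg y.2) (norm_pos_iff.2 hy)
    rw [Complex.norm_mul_exp_arg_mul_I] at h1
    have h3 : ContDiffAt ℝ ∞ (fun x : V × ℂ =>
        (Complex.log (x.2 * Complex.exp (-Complex.arg y.2 * I))).im) y :=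
      Complex.imCLM.contDiff.contDiffAt.comp y (((Complex.contDiffAt_log h1).restrict_scalars ℝ).comp
        y (f := fun x : V × ℂ => x.2 * Complex.exp (-Complex.arg y.2 * I)) (by fun_prop))
    refine (hF.contDiffAt.comp y (contDiffAt_fst.prodMk
      ((contDiffAt_const (c := Complex.arg y.2)).add h3))).congr_of_eventuallyEq ?_
    filter_upwards [hU.mem_nhds hy] with x hx
    refine per_of_exp (f := fun a => F (x.1, a)) (hp _) ?_
    have h4 : ‖x.2 * Complex.exp (-Complex.arg y.2 * I)‖ = ‖x.2‖ := by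
      rw [norm_mul, ← Complex.ofReal_neg, Complex.norm_exp_ofReal_mul_I, mul_one]
    refine mul_left_cancel₀ (show (‖x.2‖ : ℂ) ≠ 0 by simpa using hx) ?_
    rw [Complex.norm_mul_exp_arg_mul_I, Complex.log_im, Complex.ofReal_add, add_mul,
      Complex.exp_add, mul_left_comm, ← h4, Complex.norm_mul_exp_arg_mul_I, mul_left_comm,
      ← Complex.exp_add]
    simp
  · have h1 : ‖r * Complex.exp (θ * I)‖ = r := by
      rw [norm_mul, Complex.norm_exp_ofReal_mul_I, mul_one, Complex.norm_of_nonneg hr.le]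
    have h3 := Complex.norm_mul_exp_arg_mul_I (r * Complex.exp (θ * I))
    rw [h1] at h3
    simp only [h1, χ.one_of_mem_closedBall (Metric.mem_closedBall_self χ.rIn_pos.le), one_smul]
    exact per_of_exp (f := fun a => F (v, a)) (hp v)
      (mul_left_cancel₀ (Complex.ofReal_ne_zero.2 hr.ne') h3)
  · exact (congrArg (· • _) (h0 _ (le_abs.2 (Or.inl (by nlinarith))))).trans (zero_smul _ _)

theorem poinc {V : Type} [NormedAddCommGroup V] [NormedSpace ℝ V] [FiniteDimensional ℝ V]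
    {β : ℝ × V → V →L[ℝ] ℝ} (hβ : ContDiff ℝ ∞ β) (hd : ∀ t x, dF (fun y => β (t, y)) x = 0) :
    ∃ P : ℝ × V → ℝ, ContDiff ℝ ∞ P ∧ ∀ t x, HasFDerivAt (fun y => P (t, y)) (β (t, x)) x := by
  refine ⟨fun p => ∫ s in (0 : ℝ)..1, β (p.1, s • p.2) p.2, contDiffOn_univ.1
    (MP_42bfd7_mp.contDiffOn_parInt (g := fun q : (ℝ × V) × ℝ => β (q.1.1, q.2 • q.1.2) q.1.2)
      isOpen_univ isOpen_univ (subset_univ _) (ContDiff.contDiffOn (by fun_prop))), fun t x => ?_⟩
  have hb : ContDiff ℝ ∞ fun y => β (t, y) := by fun_prop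
  have hg : ContDiff ℝ ∞ fun q : V × ℝ => β (t, q.2 • q.1) q.1 := by fun_prop
  obtain ⟨h1, h2⟩ := MP_42bfd7_mp.hasFDerivAt_parInt (a := 0) (b := 1) isOpen_univ isOpen_univ
    (subset_univ _) hg.contDiffOn (mem_univ x)
  refine h1.hasFDerivAt.congr_fderiv (ContinuousLinearMap.ext fun v => ?_)
  have h3 : ∀ s : ℝ, HasDerivAt (fun s : ℝ => s * β (t, s • x) v)
      (fderiv ℝ (fun q : V × ℝ => β (t, q.2 • q.1) q.1) (x, s) (v, 0)) s := fun s => by
    have d := (hb.differentiable (by simp) (s • x)).hasFDerivAt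
    have e1 := (hasDerivAt_id s).mul ((d.comp_hasDerivAt s
      ((hasDerivAt_id s).smul_const x)).clm_apply (hasDerivAt_const s v))
    have e2 := ((d.comp (x, s) (f := fun q : V × ℝ => q.2 • q.1)
      (hasFDerivAt_snd.smul hasFDerivAt_fst)).clm_apply hasFDerivAt_fst).fderiv
    have e3 := dF_apply (fun y => β (t, y)) (s • x) x v
    rw [hd, zero_apply, zero_apply, eq_comm,
      sub_eq_zero] at e3
    refine e1.congr_deriv (((DFunLike.congr_fun e2 (v, 0)).trans ?_).symm)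
    simp [e3]
  rw [h2, intervalIntegral.integral_eq_sub_of_hasDerivAt (fun s _ => h3 s)
    (Continuous.intervalIntegrable (((hg.continuous_fderiv (by simp)).comp
      (by fun_prop)).clm_apply continuous_const) _ _)]
  simp

theorem prim_tor_aux1 {W : Type} [NormedAddCommGroup W] [NormedSpace ℝ W] {f : ℝ × ℝ → W}
    {L : ℝ × ℝ →L[ℝ] W} {θ φ : ℝ} (h : HasFDerivAt f L (θ, φ)) :
    HasDerivAt (fun s => f (s, φ)) (L (1, 0)) θ ∧ HasDerivAt (fun s => f (θ, s)) (L (0, 1)) φ :=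
  ⟨h.comp_hasDerivAt θ ((hasDerivAt_id θ).prodMk (hasDerivAt_const θ φ)),
    h.comp_hasDerivAt φ ((hasDerivAt_const φ θ).prodMk (hasDerivAt_id φ))⟩

theorem prim_tor_aux2 (r : ℝ) (x : ℝ × ℝ) : fderiv ℝ (std r) x (1, 0) = (0, I * (std r x).2) ∧
    fderiv ℝ (std r) x (0, 1) = (I * (std r x).1, 0) :=
  have h := prim_tor_aux1 ((contDiff_std r).differentiable (by simp) (x.1, x.2)).hasFDerivAt
  ⟨h.1.unique (hd_stdB r x.1 x.2), h.2.unique (hd_stdF r x.1 x.2)⟩

theorem prim_tor_aux3 {r : ℝ} {Λ : Form1 E} {p : ℝ × ℝ → ℝ} {c : ℝ × ℝ}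
    (hp : ∀ x, HasFDerivAt p (pb (std r) Λ x) x) (hc : ∀ x, std r (x + c) = std r x)
    (h0 : p c - p 0 = 0) (x : ℝ × ℝ) : p (x + c) = p x := by
  have h1 : ∀ x, HasFDerivAt (fun y => p (y + c) - p y) (0 : ℝ × ℝ →L[ℝ] ℝ) x := fun x => by
    have e : pb (std r) Λ (x + c) = pb (std r) Λ x := by
      rw [pb, pb, hc, ← fderiv_comp_add_right, funext hc]
    have h2 := (hasFDerivAt_comp_add_right c).2 (hp (x + c))
    rw [e] at h2
    exact (h2.sub (hp x)).congr_fderiv (sub_self _)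
  have h3 := is_const_of_fderiv_eq_zero (fun x => (h1 x).differentiableAt)
    (fun x => (h1 x).fderiv) x 0
  rwa [zero_add, h0, sub_eq_zero] at h3

theorem prim_tor_aux4 (r : ℝ) {Λ : E → E →L[ℝ] ℝ} (s : ContDiff ℝ ∞ Λ) :
    IntervalIntegrable (fun θ => Λ (std r (θ, 0)) (0, I * (std r (θ, 0)).2)) MeasureTheory.volume
      0 (2 * π) ∧ IntervalIntegrable (fun φ => Λ (std r (0, φ)) (I * (std r (0, φ)).1, 0))
      MeasureTheory.volume 0 (2 * π) := by
  have c0 := (contDiff_std r).continuous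
  have c1 := s.continuous
  exact ⟨Continuous.intervalIntegrable (by fun_prop) _ _,
    Continuous.intervalIntegrable (by fun_prop) _ _⟩


theorem prim_tor {r : ℝ} (hr : 0 < r) {G : ℝ × E → E →L[ℝ] ℝ} (hG : ContDiff ℝ ∞ G)
    (h : ∀ t, OnL r 0 fun y => G (t, y)) :
    ∃ K : ℝ × E → ℝ, ContDiff ℝ ∞ K ∧ (∀ t x, 2 * r ≤ ‖x‖ → K (t, x) = 0) ∧ ∀ t, ∀ y ∈ Ls r,
      fderiv ℝ (fun x => K (t, x)) y (0, I * y.2) = G (t, y) (0, I * y.2) ∧
      fderiv ℝ (fun x => K (t, x)) y (I * y.1, 0) = G (t, y) (I * y.1, 0) := by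
  have hs := contDiff_std r
  have g1 : ∀ t, ContDiff ℝ ∞ fun y => G (t, y) := fun t => hG.comp (contDiff_prodMk_right t)
  obtain ⟨P, p1, p2⟩ := poinc (β := fun p : ℝ × ℝ × ℝ => pb (std r) (fun y => G (p.1, y)) p.2)
    ((hG.comp (contDiff_fst.prodMk (hs.comp contDiff_snd))).clm_comp
      ((hs.fderiv_right (m := ∞) (by simp)).comp contDiff_snd)) fun t x => by
      have a := alt_dF (fun y => G (t, y)) (std r x)
      have a1 := (h t).lag _ (std_mem hr x)
      have a2 := a (I * (std r x).1, 0) (0, I * (std r x).2)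
      have a0 : ∀ u, dF (fun y => G (t, y)) (std r x) u u = 0 := fun u => by linarith [a u u]
      have e : ∀ u : ℝ × ℝ, fderiv ℝ (std r) x u =
          u.1 • (0, I * (std r x).2) + u.2 • (I * (std r x).1, 0) := fun u => by
        rw [← (prim_tor_aux2 r x).1, ← (prim_tor_aux2 r x).2, ← map_smul, ← map_smul, ← map_add]
        simp
      refine ContinuousLinearMap.ext fun u => ContinuousLinearMap.ext fun v => ?_
      refine (dF_pb (hs.contDiffAt.of_le (by norm_cast)) ((g1 t).differentiable (by simp) _)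
        u v).trans ?_
      simp only [e, map_add, map_smul, add_apply, smul_apply, a0, a1, a2, neg_zero, smul_zero,
        add_zero, zero_apply]
  have q1 : ∀ t x, P (t, x + (2 * π, 0)) = P (t, x) := fun t => by
    refine prim_tor_aux3 (r := r) (Λ := fun y => G (t, y)) (c := (2 * π, 0)) (p2 t)
      (fun x => by simp [std, add_mul, Complex.exp_add]) ?_
    exact (intervalIntegral.integral_eq_sub_of_hasDerivAt (fun θ _ =>
      (prim_tor_aux1 (p2 t (θ, 0))).1.congr_deriv (congrArg (G (t, std r (θ, 0)))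
        (prim_tor_aux2 r _).1)) (prim_tor_aux4 r (g1 t)).1).symm.trans (h t).pB
  have q2 : ∀ t x, P (t, x + (0, 2 * π)) = P (t, x) := fun t => by
    refine prim_tor_aux3 (r := r) (Λ := fun y => G (t, y)) (c := (0, 2 * π)) (p2 t)
      (fun x => by simp [std, add_mul, Complex.exp_add]) ?_
    exact (intervalIntegral.integral_eq_sub_of_hasDerivAt (fun φ _ =>
      (prim_tor_aux1 (p2 t (0, φ))).2.congr_deriv (congrArg (G (t, std r (0, φ)))
        (prim_tor_aux2 r _).2)) (prim_tor_aux4 r (g1 t)).2).symm.trans (h t).pF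
  obtain ⟨A, a1, a2, a3, -, a4⟩ := arg_ext hr
    (F := fun q : (ℝ × ℝ) × ℝ => P (q.1.1, q.1.2, q.2)) (p1.comp (by fun_prop))
    fun v θ => by simpa using q2 v.1 (v.2, θ)
  obtain ⟨B, b1, b2, b3, b4, -⟩ := arg_ext hr
    (F := fun q : (ℝ × ℂ) × ℝ => A ((q.1.1, q.2), q.1.2)) (a1.comp (by fun_prop))
    fun v θ => a4 _ _ _ fun φ => by simpa using q1 v.1 (θ, φ)
  have k1 : ContDiff ℝ ∞ fun q : ℝ × E => B ((q.1, q.2.1), q.2.2) := b1.comp (by fun_prop)
  refine ⟨_, k1, fun t x hx => ?_, fun t y hy => ?_⟩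
  · rcases le_max_iff.1 (hx.trans_eq (Prod.norm_def x)) with hx | hx
    · exact b4 _ _ fun θ => a3 _ _ hx
    · exact b3 _ _ hx
  · obtain ⟨x, rfl⟩ := range_std hr ▸ hy
    have e : (fun y : E => B ((t, y.1), y.2)) ∘ std r = fun x => P (t, x) :=
      funext fun x => (b2 _ _).trans (a2 _ _)
    have d := ((k1.comp (contDiff_prodMk_right t)).differentiable (by simp) _).hasFDerivAt.comp x
      (hs.differentiable (by simp) x).hasFDerivAt
    have u := (e ▸ d : HasFDerivAt (fun x => P (t, x)) _ x).unique (p2 t x)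
    rw [← (prim_tor_aux2 r x).1, ← (prim_tor_aux2 r x).2]
    exact ⟨congrArg (fun L => L (1, 0)) u, congrArg (fun L => L (0, 1)) u⟩

theorem OnL.add {r b b' : ℝ} {Λ Λ' : Form1 E} (h : OnL r b Λ) (h' : OnL r b' Λ')
    (s : ContDiff ℝ ∞ Λ) (s' : ContDiff ℝ ∞ Λ') : OnL r (b + b') fun x => Λ x + Λ' x := by
  refine ⟨fun y hy => ?_, ?_, ?_⟩
  · rw [dF_add (s.differentiable (by simp) y) (s'.differentiable (by simp) y), add_apply, add_apply,
      h.lag y hy, h'.lag y hy, add_zero]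
  · rw [← h.pB, ← h'.pB]
    exact intervalIntegral.integral_add (prim_tor_aux4 r s).1 (prim_tor_aux4 r s').1
  · rw [← h.pF, ← h'.pF]
    exact intervalIntegral.integral_add (prim_tor_aux4 r s).2 (prim_tor_aux4 r s').2

theorem OnL.smul {r b : ℝ} {Λ : Form1 E} (h : OnL r b Λ) (s : ContDiff ℝ ∞ Λ) (k : ℝ) :
    OnL r (k * b) fun x => k • Λ x := by
  refine ⟨fun y hy => ?_, ?_, ?_⟩
  · rw [dF_smul (differentiableAt_const k) (s.differentiable (by simp) y), h.lag y hy]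
    simp
  · rw [← h.pB]
    exact intervalIntegral.integral_const_mul k _
  · rw [← h.pF]
    exact intervalIntegral.integral_const_mul k _

theorem OnL.congr {r b : ℝ} (hr : 0 < r) {Λ Λ' : Form1 E} (h : OnL r b Λ)
    (e : ∀ y ∈ Ls r, Λ' =ᶠ[𝓝 y] Λ) : OnL r b Λ' := by
  have e' : ∀ x, Λ' (std r x) = Λ (std r x) := fun x => (e _ (std_mem hr x)).self_of_nhds
  refine ⟨fun y hy => ?_, ?_, ?_⟩
  · rw [← h.lag y hy, dF, dF, (e y hy).fderiv_eq]
  · simp only [← h.pB, perB, e']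
  · simp only [← h.pF, perF, e']

theorem iso {r b : ℝ} (hr : 0 < r) {F : ℝ × E → E →L[ℝ] ℝ} (hF : ContDiff ℝ ∞ F)
    (nd : ∀ t x, Pf (dF (fun y => F (t, y)) x) ≠ 0)
    (far : ∃ R : ℝ, ∀ t x, R ≤ ‖x‖ → F (t, x) = F (0, x)) (h : ∀ t, OnL r b fun y => F (t, y)) :
    Rel r (fun y => F (0, y)) fun y => F (1, y) := by
  have f1 : ∀ t, ContDiff ℝ ∞ fun y => F (t, y) := fun t => hF.comp (contDiff_prodMk_right t)
  obtain ⟨K, k1, k2, k3⟩ := prim_tor hr (G := fun p => F p + (-1 : ℝ) • F (0, p.2))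
    (hF.add (((f1 0).comp contDiff_snd).const_smul _)) fun t => by
      simpa using (h t).add ((h 0).smul (f1 0) (-1)) (f1 t) ((f1 0).const_smul _)
  have k4 : ∀ t, ContDiff ℝ ∞ fun y => K (t, y) := fun t => k1.comp (contDiff_prodMk_right t)
  have e : ∀ t x, dF (fun y => F (t, y) + (-1 : ℝ) • fderiv ℝ (fun x => K (t, x)) y) x =
      dF (fun y => F (t, y)) x := fun t x => by
    have d := ((k4 t).fderiv_right (m := ∞) (by simp)).differentiable (by simp) x
    refine ContinuousLinearMap.ext fun u => ContinuousLinearMap.ext fun v => ?_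
    rw [dF_add ((f1 t).differentiable (by simp) x) (d.fun_const_smul _), add_apply, add_apply,
      dF_smul (differentiableAt_const _) d, dF_fderiv ((k4 t).contDiffAt.of_le (by norm_cast))]
    simp
  obtain ⟨R, hR⟩ := far
  obtain ⟨ψ, ψ', a1, a2, a3⟩ := iso0 hr
    (F := fun p => F p + (-1 : ℝ) • fderiv ℝ (fun x => K (p.1, x)) p.2)
    (hF.add ((ContDiff.fderiv (f := fun (p : ℝ × E) x => K (p.1, x)) (m := ∞)
      (k1.comp (contDiff_fst.fst.prodMk contDiff_snd)) contDiff_snd (by simp)).const_smul _))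
    (fun t x => by rw [e]; exact nd t x) ⟨max R (2 * r + 1), fun t x hx => by
      have z : ∀ t, fderiv ℝ (fun x => K (t, x)) x = 0 := fun t => by
        have z1 : (fun x => K (t, x)) =ᶠ[𝓝 x] fun _ => 0 :=
          ((isOpen_lt continuous_const continuous_norm).eventually_mem
            (show 2 * r < ‖x‖ by linarith [le_max_right R (2 * r + 1)])).mono fun y hy =>
            k2 t y (le_of_lt hy)
        rw [z1.fderiv_eq, fderiv_fun_const, Pi.zero_apply]
      simp only [z, hR t x ((le_max_left _ _).trans hx)]⟩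
    (fun t y hy => by rw [e]; exact (h t).lag y hy) fun t y hy => by
      simp [(k3 t y hy).1, (k3 t y hy).2, (k3 0 y hy).1, (k3 0 y hy).2]
  exact ⟨ψ, ψ', a1, a2, fun x u v => by rw [← e, ← e]; exact a3 x u v⟩

end Pool.Agent.Lib.MP_7ed551_gt.Cy.FA
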