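import Pool.Agent.Lib.MP_7ed551_gt.Cy.A.Rad
import Pool.Agent.Lib.MP_7ed551_gt.Cy.A.Prim

/-! Periods. -/

open scoped ContDiff Topology
open Set Real Filter
open Complex (I)

noncomputable section

namespace Pool.Agent.Lib.MP_7ed551_gt.Cy.FA

open Pool.Agent.Lib.MP_ccffa6_gt (Form1 Bil dF pb dF_apply dF_add dF_smul dF_pb dF_fderiv
  contDiff_dF contDiff_pb)

variable {η α : Form1 ℂ} {c f : ℝ → ℝ} {ε r : ℝ} {m : ℕ} {s : ℂ → ℂ}

theorem contDiff_of_exp {g : ℝ → ℂ} (hg : Continuous g) (h : ContDiff ℝ ∞ fun θ => Complex.exp (g θ)) :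
    ContDiff ℝ ∞ g := by
  refine contDiff_iff_contDiffAt.2 fun x => ?_
  have h1 : ContDiffAt ℝ ∞ (fun y => g x + Complex.log (Complex.exp (g y) / Complex.exp (g x))) x :=
    contDiffAt_const.add (((Complex.contDiffAt_log (by
      simp [Complex.exp_ne_zero])).restrict_scalars ℝ).comp x (h.contDiffAt.div_const _))
  have h2 : ∀ᶠ y in 𝓝 x, |(g y - g x).im| < π :=
    (by fun_prop : Continuous fun y => |(g y - g x).im|).continuousAt.eventually_lt
      continuousAt_const (by simpa using pi_pos)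
  refine h1.congr_of_eventuallyEq (h2.mono fun y hy => ?_)
  simp only
  rw [← Complex.exp_sub, Complex.log_exp (abs_lt.1 hy).1 (abs_lt.1 hy).2.le, add_sub_cancel]

theorem wind_exp {G : ℝ → ℂ} (hG : ContDiff ℝ 1 G) :
    ∫ θ in (0 : ℝ)..2 * π, w1 (Complex.exp (G θ)) (Complex.exp (G θ) * deriv G θ) / (2 * π * ‖Complex.exp (G θ)‖ ^ 2) =
      (G (2 * π) - G 0).im / (2 * π) := by
  have e : ∀ θ, w1 (Complex.exp (G θ)) (Complex.exp (G θ) * deriv G θ) /
      (2 * π * ‖Complex.exp (G θ)‖ ^ 2) = (deriv G θ).im / (2 * π) := fun θ => by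
    have := norm_ne_zero_iff.2 (Complex.exp_ne_zero (G θ))
    rw [show w1 (Complex.exp (G θ)) (Complex.exp (G θ) * deriv G θ) =
      ‖Complex.exp (G θ)‖ ^ 2 * (deriv G θ).im by
        simp only [w1, Complex.sq_norm, Complex.normSq_apply, Complex.mul_re, Complex.mul_im]; ring]
    field_simp
  simp only [e]
  rw [intervalIntegral.integral_div, Complex.sub_im, intervalIntegral.integral_eq_sub_of_hasDerivAt
    (f := fun θ => (G θ).im) (f' := fun θ => (deriv G θ).im) (fun θ _ => Complex.imCLM.hasFDerivAt.comp_hasDerivAt θ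
      (hG.differentiable one_ne_zero θ).hasDerivAt)
    ((Complex.continuous_im.comp (hG.continuous_deriv le_rfl)).intervalIntegrable _ _)]

theorem Rad.onB (h : Rad η c) (hr : 0 < r) : LagS r (bas η) ∧
    perB r (bas η) = (π * ∫ y in (0 : ℝ)..r ^ 2, c y) ∧ perF r (bas η) = 0 := by
  refine ⟨fun y _ => by rw [h.dF_bas]; simp [w1], ?_, by simp [perF, bas_apply]⟩
  have k (z : ℂ) (hz : ‖z‖ = r) : η z (I * z) = (∫ y in (0 : ℝ)..r ^ 2, c y) / 2 := by
    have e : w1 z (I * z) = r ^ 2 := by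
      rw [← hz, Complex.sq_norm, Complex.normSq_apply]
      simp [w1]
    have := h.val z (I * z)
    rw [hz, e] at this
    exact mul_left_cancel₀ (pow_pos hr 2).ne' (this.trans (by ring))
  simp only [perB, bas_apply, k _ (std_mem hr _).2, intervalIntegral.integral_const, smul_eq_mul]
  ring

theorem perB_sec_aux (h : Bump α f ε) (hr : 0 < r) (hs : ContDiff ℝ ∞ s)
    (ho : ∀ y ∈ Ls r, ε ≤ ‖y.1 - s y.2‖) {G : ℝ → ℂ} (hG : Continuous G)
    (e : ∀ θ : ℝ, Complex.exp (G θ) = r - s (r * Complex.exp (θ * I))) :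
    perB r (sec s α) = (G (2 * π) - G 0).im / (2 * π) := by
  have h1 : ContDiff ℝ 1 G := (contDiff_of_exp hG (by
    simp only [e]
    exact contDiff_const.sub (hs.comp ((contDiff_std r).comp
      (contDiff_id.prodMk (contDiff_const (c := 0)))).snd))).of_le (by simp)
  rw [← wind_exp h1, perB]
  refine intervalIntegral.integral_congr fun θ _ => ?_
  have h2 := (h1.differentiable one_ne_zero θ).hasDerivAt.cexp
  simp only [e] at h2
  have h3 := ((hs.differentiable (by simp) _).hasFDerivAt.comp_hasDerivAt θ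
    (hd_stdB r θ 0).snd).const_sub (r : ℂ)
  rw [sec_apply hs, h.val (ho _ (std_mem hr _)), e, h2.unique h3]
  simp [std]

theorem Bump.perB_sec (h : Bump α f ε) (hr : 0 < r) (hs : ContDiff ℝ ∞ s) (hp : Pos r m s)
    (ho : ∀ y ∈ Ls r, ε ≤ ‖y.1 - s y.2‖) : perB r (sec s α) = -m := by
  have n : ∀ θ : ℝ, ‖r * Complex.exp (θ * I)‖ = r := fun θ => (std_mem hr (θ, 0)).2
  have c : Continuous fun θ : ℝ => s (r * Complex.exp (θ * I)) := hs.continuous.comp (by fun_prop)
  have p : Complex.exp ((2 * π : ℝ) * I) = Complex.exp ((0 : ℝ) * I) := by simp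
  rcases hp with ⟨rfl, h1⟩ | ⟨-, h1, g, cg, pg, eg⟩
  · have sl : ∀ θ : ℝ, r - s (r * Complex.exp (θ * I)) ∈ Complex.slitPlane := fun θ =>
      Or.inl (by simpa using (Complex.re_le_norm _).trans_lt (h1 _ (n θ)))
    rw [perB_sec_aux h hr hs ho (G := fun θ => Complex.log (r - s (r * Complex.exp (θ * I))))
      ((continuous_const.sub c).clog sl)
      fun θ => Complex.exp_log (Complex.slitPlane_ne_zero (sl θ)), p]
    simp
  · have ne : ∀ θ : ℝ, s (r * Complex.exp (θ * I)) ≠ 0 := fun θ =>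
      norm_pos_iff.1 (hr.trans (h1 _ (n θ)))
    have sl : ∀ θ : ℝ, 1 - r / s (r * Complex.exp (θ * I)) ∈ Complex.slitPlane := fun θ =>
      sub_eq_add_neg (1 : ℂ) _ ▸ Complex.mem_slitPlane_of_norm_lt_one (by
        rw [norm_neg, norm_div, Complex.norm_real, Real.norm_of_nonneg hr.le, div_lt_one (norm_pos_iff.2 (ne θ))]
        exact h1 _ (n θ))
    rw [perB_sec_aux h hr hs ho (G := fun θ => g θ - m * θ * I + π * I +
      Complex.log (1 - r / s (r * Complex.exp (θ * I)))) (((cg.sub (by fun_prop)).add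
        continuous_const).add ((continuous_const.sub (continuous_const.div c ne)).clog sl)) fun θ => by
      rw [Complex.exp_add, Complex.exp_add, Complex.exp_log (Complex.slitPlane_ne_zero (sl θ)),
        Complex.exp_pi_mul_I, ← eg]
      have := ne θ
      field_simp
      ring, p, ← pg 0, zero_add]
    simp
    field_simp

theorem Bump.perF_sec_aux (h : Bump α f ε) (hr : 0 < r) (hs : ContDiff ℝ ∞ s)
    (ho : ∀ y ∈ Ls r, ε ≤ ‖y.1 - s y.2‖) {G : ℝ → ℂ} (hG : Continuous G)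
    (e : ∀ φ : ℝ, Complex.exp (G φ) = r * Complex.exp (φ * I) - s r) :
    perF r (sec s α) = (G (2 * π) - G 0).im / (2 * π) := by
  have h1 : ContDiff ℝ 1 G := (contDiff_of_exp hG (by simp only [e]; fun_prop)).of_le (by simp)
  rw [← wind_exp h1]
  refine intervalIntegral.integral_congr fun φ _ => ?_
  have k := (h1.differentiable one_ne_zero φ).hasDerivAt.cexp
  simp only [e] at k
  have k2 := k.unique (((hd_exp φ).const_mul (r : ℂ)).sub_const _)
  have e2 : (std r (0, φ)).1 - s (std r (0, φ)).2 = r * Complex.exp (φ * I) - s r := by simp [std]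
  simp only [sec_apply hs, e2, h.val (e2 ▸ ho _ (std_mem hr _)), e, k2, map_zero, sub_zero]
  simp only [std, mul_left_comm I, mul_comm I]

theorem Bump.perF_sec (h : Bump α f ε) (hr : 0 < r) (hs : ContDiff ℝ ∞ s) (hp : Pos r m s)
    (ho : ∀ y ∈ Ls r, ε ≤ ‖y.1 - s y.2‖) : perF r (sec s α) = ext m 1 := by
  have n (φ : ℝ) : ‖r * Complex.exp (φ * I)‖ = r := (std_mem hr (0, φ)).1
  have n0 : ‖(r : ℂ)‖ = r := by simpa using n 0
  have r0 : (r : ℂ) ≠ 0 := Complex.ofReal_ne_zero.2 hr.ne'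
  have p : Complex.exp (((2 * π : ℝ) : ℂ) * I) = 1 := by simp
  rcases hp with ⟨rfl, hp⟩ | ⟨hm, hp, -⟩
  · have k (φ : ℝ) : 1 - s r / (r * Complex.exp (φ * I)) ∈ Complex.slitPlane :=
      sub_eq_add_neg (1 : ℂ) _ ▸ Complex.mem_slitPlane_of_norm_lt_one
        (by rw [norm_neg, norm_div, n, div_lt_one hr]; exact hp _ n0)
    rw [h.perF_sec_aux hr hs ho
      (G := fun φ => Complex.log r + φ * I + Complex.log (1 - s r / (r * Complex.exp (φ * I))))
      (Continuous.add (by fun_prop) (Continuous.clog (continuous_const.sub (continuous_const.div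
        (by fun_prop) fun φ => mul_ne_zero r0 (Complex.exp_ne_zero _))) k)) fun φ => by
        rw [Complex.exp_add, Complex.exp_add, Complex.exp_log r0,
          Complex.exp_log (Complex.slitPlane_ne_zero (k φ))]
        field_simp]
    simp only [p]
    simp [ext]
  · have b := hp _ n0
    have b0 : s r ≠ 0 := norm_pos_iff.1 (hr.trans b)
    have k (φ : ℝ) : 1 - r * Complex.exp (φ * I) / s r ∈ Complex.slitPlane :=
      sub_eq_add_neg (1 : ℂ) _ ▸ Complex.mem_slitPlane_of_norm_lt_one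
        (by rw [norm_neg, norm_div, n, div_lt_one (hr.trans b)]; exact b)
    rw [h.perF_sec_aux hr hs ho
      (G := fun φ => Complex.log (-s r) + Complex.log (1 - r * Complex.exp (φ * I) / s r))
      (continuous_const.add (Continuous.clog (by fun_prop) k)) fun φ => by
        rw [Complex.exp_add, Complex.exp_log (neg_ne_zero.2 b0),
          Complex.exp_log (Complex.slitPlane_ne_zero (k φ))]
        field_simp
        ring]
    simp only [p]
    simp [ext, Nat.one_le_iff_ne_zero.1 hm]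

theorem onL_tot_aux {A B C : Form1 E} (hA : ContDiff ℝ ∞ A) (hB : ContDiff ℝ ∞ B)
    (hC : ContDiff ℝ ∞ C) {γ v : ℝ → E} (hγ : Continuous γ) (hv : Continuous v) (t : ℝ) :
    ∫ θ in (0 : ℝ)..2 * π, (A (γ θ) + B (γ θ) + t • C (γ θ)) (v θ) =
      (∫ θ in (0 : ℝ)..2 * π, A (γ θ) (v θ)) + (∫ θ in (0 : ℝ)..2 * π, B (γ θ) (v θ)) +
        t * ∫ θ in (0 : ℝ)..2 * π, C (γ θ) (v θ) := by
  have k {D : Form1 E} (hD : ContDiff ℝ ∞ D) :=
    ((hD.continuous.comp hγ).clm_apply hv).intervalIntegrable (μ := MeasureTheory.volume) 0 (2 * π)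
  rw [← intervalIntegral.integral_const_mul]
  exact (intervalIntegral.integral_add ((k hA).add (k hB)) ((k hC).const_mul t)).trans
    (congrArg (· + _) (intervalIntegral.integral_add (k hA) (k hB)))

theorem onL_tot {Λ : Form1 E} {a t : ℝ} (hr : 0 < r) (hΛ : ContDiff ℝ ∞ Λ) (h0 : OnL r a Λ)
    (h1 : Rad η c) (h : Bump α f ε) (hs : ContDiff ℝ ∞ s) (hp : Pos r m s)
    (ho : ∀ y ∈ Ls r, ε ≤ ‖y.1 - s y.2‖) (hm : (π * ∫ y in (0 : ℝ)..r ^ 2, c y) = mas m * t) :
    OnL r (a + ext m t) (Tot Λ η α s t) := by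
  have c1 := contDiff_bas h1.sm
  have c2 := contDiff_sec hs h.rad.sm
  have c3 := (contDiff_std r).continuous
  obtain ⟨-, b2, b3⟩ := h1.onB hr
  refine ⟨fun y hy => ?_, (onL_tot_aux hΛ c1 c2 (by fun_prop) (by fun_prop) t).trans ?_,
    (onL_tot_aux hΛ c1 c2 (by fun_prop) (by fun_prop) t).trans ?_⟩
  · rw [dF_tot hΛ h1 h.rad hs, h0.lag y hy, h.out _ (pow_le_pow_left₀ h.pos.le (ho y hy) 2)]
    simp [w1]
  · change perB r Λ + perB r (bas η) + t * perB r (sec s α) = _
    rw [h0.pB, b2, hm, h.perB_sec hr hs hp ho, mas, ext]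
    split_ifs with e
    · simp [e]
    · ring
  · change perF r Λ + perF r (bas η) + t * perF r (sec s α) = _
    rw [h0.pF, b3, h.perF_sec hr hs hp ho, ext, ext]
    split_ifs <;> ring

end Pool.Agent.Lib.MP_7ed551_gt.Cy.FA
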