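import Pool.Agent.Lib.MP_7ed551_gt.Cy.A.Lin
import Pool.Agent.Lib.MP_42bfd7_mp.ParInt

/-! Radial forms on the plane and the inflated form. -/

open scoped ContDiff Topology
open Set Real Filter
open Complex (I)

noncomputable section

namespace Pool.Agent.Lib.MP_7ed551_gt.Cy.FA

open Pool.Agent.Lib.MP_ccffa6_gt (Form1 Bil dF pb dF_apply dF_add dF_smul dF_pb dF_fderiv
  contDiff_dF contDiff_pb)

variable {η η' α : Form1 ℂ} {c c' f : ℝ → ℝ} {ε : ℝ}

theorem exists_rad (hc : ContDiff ℝ ∞ c) (hk : HasCompactSupport c) : ∃ η, Rad η c := by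
  obtain ⟨n, h1, h2, B, h3⟩ : ∃ n : ℝ → ℝ, ContDiff ℝ ∞ n ∧
      (∀ q, q * n q = ∫ y in (0 : ℝ)..q, c y) ∧ ∃ B, ∀ q, ‖n q‖ ≤ B := by
    obtain ⟨B, hB⟩ := hk.exists_bound_of_continuous hc.continuous
    refine ⟨fun q => ∫ u in (0 : ℝ)..1, c (u * q), contDiffOn_univ.1
      (Pool.Agent.Lib.MP_42bfd7_mp.contDiffOn_parInt (g := fun p : ℝ × ℝ => c (p.2 * p.1))
        isOpen_univ isOpen_univ (subset_univ _)
        (hc.comp (contDiff_snd.mul contDiff_fst)).contDiffOn), fun q => by simp, B, fun q => ?_⟩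
    simpa using intervalIntegral.norm_integral_le_of_norm_le_const (a := 0) (b := 1)
      fun u _ => hB (u * q)
  have dn : Differentiable ℝ n := h1.differentiable (by simp)
  have h4 : ∀ q, n q + q * deriv n q = c q := fun q => by
    have e := ((hasDerivAt_id' q).fun_mul (dn q).hasDerivAt).unique
      (funext h2 ▸ (hc.continuous.integral_hasStrictDerivAt 0 q).hasDerivAt)
    rwa [one_mul] at e
  have h5 : ∀ u v, w1L u v = w1 u v := fun u v => by simp [w1L, w1]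
  have h6 : ContDiff ℝ ∞ fun z : ℂ => n (‖z‖ ^ 2) / 2 :=
    (h1.comp (contDiff_norm_sq ℝ)).div_const 2
  refine ⟨fun z => (n (‖z‖ ^ 2) / 2) • w1L z, h6.smul w1L.contDiff, hc.continuous,
    fun z u v => ?_, fun z v => ?_, max B (∫ y, ‖c y‖) * ‖w1L‖, fun z => ?_⟩
  · have e := (((dn _).hasDerivAt.comp_hasFDerivAt z
      (hasStrictFDerivAt_norm_sq z).hasFDerivAt).mul_const (2 : ℝ)⁻¹).fderiv
    rw [dF_smul (h6.differentiable (by simp) z) w1L.differentiableAt, dF_apply, w1L.fderiv, ← h4]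
    simp only [div_eq_mul_inv]
    erw [e]
    simp only [h5, w1, smul_apply, innerSL_apply_apply, Complex.inner, Complex.mul_re,
      Complex.conj_re, Complex.conj_im, smul_eq_mul, nsmul_eq_mul, Complex.sq_norm,
      Complex.normSq_apply]
    push_cast
    ring
  · rw [smul_apply, h5, ← h2, smul_eq_mul]
    ring
  · have e1 : ‖n (‖z‖ ^ 2)‖ * ‖z‖ ≤ max B (∫ y, ‖c y‖) := by
      rcases le_total ‖z‖ 1 with h | h
      · exact (mul_le_of_le_one_right (norm_nonneg _) h).trans (le_max_of_le_left (h3 _))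
      · refine le_max_of_le_right (le_trans ?_ ((h2 _ ▸
          intervalIntegral.norm_integral_le_integral_norm_uIoc (f := c) (a := 0)
            (b := ‖z‖ ^ 2)).trans (MeasureTheory.setIntegral_le_integral
          (hc.continuous.integrable_of_hasCompactSupport hk).norm
          (Eventually.of_forall fun y => norm_nonneg _))))
        rw [norm_mul, mul_comm, norm_pow, norm_norm]
        exact mul_le_mul_of_nonneg_right (le_self_pow₀ h two_ne_zero) (norm_nonneg _)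
    have e2 := w1L.le_opNorm z
    have e3 := norm_nonneg (n (‖z‖ ^ 2))
    have e4 := mul_le_mul_of_nonneg_right e1 (norm_nonneg w1L)
    have e5 := mul_nonneg e3 (norm_nonneg (w1L z))
    rw [norm_smul, norm_div, Real.norm_two]
    nlinarith

theorem Rad.add (h : Rad η c) (h' : Rad η' c') :
    Rad (fun z => η z + η' z) fun y => c y + c' y := by
  obtain ⟨M, hM⟩ := h.bd
  obtain ⟨M', hM'⟩ := h'.bd
  refine ⟨h.sm.add h'.sm, h.cont.add h'.cont, fun z u v => ?_, fun z v => ?_, M + M',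
    fun z => norm_add_le_of_le (hM z) (hM' z)⟩
  · rw [dF_add (h.sm.differentiable (by simp) z) (h'.sm.differentiable (by simp) z), add_apply,
      add_apply, h.d, h'.d, add_mul]
  · rw [add_apply, mul_add, h.val, h'.val, intervalIntegral.integral_add
      (h.cont.intervalIntegrable _ _) (h'.cont.intervalIntegrable _ _)]
    ring

theorem Rad.smul (h : Rad η c) (k : ℝ) : Rad (fun z => k • η z) fun y => k * c y := by
  obtain ⟨M, hM⟩ := h.bd
  refine ⟨h.sm.const_smul k, continuous_const.mul h.cont, fun z u v => ?_, fun z v => ?_, ‖k‖ * M,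
    fun z => (norm_smul_le _ _).trans (mul_le_mul_of_nonneg_left (hM z) (norm_nonneg k))⟩
  · rw [dF_smul (differentiableAt_const k) (h.sm.differentiable (by simp) z), h.d]
    simp [mul_assoc]
  · rw [smul_apply, smul_eq_mul, mul_left_comm, h.val, intervalIntegral.integral_const_mul]
    ring

theorem rad_zero : Rad (fun _ => 0) fun _ => 0 :=
  ⟨contDiff_const, continuous_const, fun z u v => by simp [dF_apply], fun z v => by simp, 0,
    fun z => by simp⟩

theorem exists_bump (hε : 0 < ε) : ∃ α f, Bump α f ε := by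
  have h0 : 0 < ε ^ 2 := by positivity
  let b : ContDiffBump (ε ^ 2 / 2) := ⟨ε ^ 2 / 8, ε ^ 2 / 4, by positivity, by linarith⟩
  obtain ⟨α, hα⟩ := exists_rad (c := b) b.contDiff b.hasCompactSupport
  have hm : 0 < ∫ y in (0 : ℝ)..ε ^ 2, b y :=
    intervalIntegral.integral_pos h0 b.continuous.continuousOn (fun y _ => b.nonneg)
      ⟨ε ^ 2 / 2, ⟨by linarith, by linarith⟩,
        b.pos_of_mem_ball (Metric.mem_ball_self b.rOut_pos)⟩
  refine ⟨_, _, hα.smul (π * ∫ y in (0 : ℝ)..ε ^ 2, b y)⁻¹, hε,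
    fun y => mul_nonneg (by positivity) b.nonneg, fun y hy => ?_, ?_⟩
  · rw [b.zero_of_le_dist (le_trans ?_ (le_abs_self (y - ε ^ 2 / 2))), mul_zero]
    show ε ^ 2 / 4 ≤ _
    linarith
  · rw [intervalIntegral.integral_const_mul]
    field_simp

theorem Bump.val (h : Bump α f ε) {u : ℂ} (hu : ε ≤ ‖u‖) (v : ℂ) :
    α u v = w1 u v / (2 * π * ‖u‖ ^ 2) := by
  have h0 : 0 < ‖u‖ := h.pos.trans_le hu
  have h1 := pow_le_pow_left₀ h.pos.le hu 2
  have h2 : ∫ y in ε ^ 2..‖u‖ ^ 2, f y = 0 := by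
    rw [intervalIntegral.integral_congr (g := fun _ => 0) fun y hy => h.out y
      (uIcc_of_le h1 ▸ hy).1, intervalIntegral.integral_zero]
  have h3 := h.rad.val u v
  rw [← intervalIntegral.integral_add_adjacent_intervals (b := ε ^ 2)
    (h.rad.cont.intervalIntegrable _ _) (h.rad.cont.intervalIntegrable _ _), h2, add_zero] at h3
  rw [eq_div_iff (by positivity)]
  linear_combination 2 * π * h3 + w1 u v * h.mass

theorem bas_apply_aux1 (x v : E) : fderiv ℝ (fun y : E => y.2) x v = v.2 := by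
  rw [(hasFDerivAt_snd (𝕜 := ℝ) (p := x)).fderiv]
  rfl

theorem bas_apply (η : Form1 ℂ) (x v : E) : bas η x v = η x.2 v.2 := by
  simp only [bas, pb, ContinuousLinearMap.comp_apply, bas_apply_aux1]

theorem sec_apply_aux1 {s : ℂ → ℂ} (hs : ContDiff ℝ ∞ s) (x v : E) :
    fderiv ℝ (fun y : E => y.1 - s y.2) x v = v.1 - fderiv ℝ s x.2 v.2 := by
  have h := (hasFDerivAt_fst (𝕜 := ℝ) (p := x)).sub
    ((hs.differentiable (by simp) x.2).hasFDerivAt.comp x hasFDerivAt_snd)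
  exact DFunLike.congr_fun h.fderiv v

theorem sec_apply {s : ℂ → ℂ} (hs : ContDiff ℝ ∞ s) (α : Form1 ℂ) (x v : E) :
    sec s α x v = α (x.1 - s x.2) (v.1 - fderiv ℝ s x.2 v.2) := by
  simp only [sec, pb, ContinuousLinearMap.comp_apply, sec_apply_aux1 hs]

theorem contDiff_bas (h : ContDiff ℝ ∞ η) : ContDiff ℝ ∞ (bas η) := by
  exact contDiff_pb contDiff_snd h

theorem contDiff_sec {s : ℂ → ℂ} (hs : ContDiff ℝ ∞ s) (h : ContDiff ℝ ∞ α) :
    ContDiff ℝ ∞ (sec s α) := by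
  exact contDiff_pb (contDiff_fst.sub (hs.comp contDiff_snd)) h

theorem Rad.dF_bas (h : Rad η c) (x u v : E) : dF (bas η) x u v = c (‖x.2‖ ^ 2) * w1 u.2 v.2 := by
  rw [bas, dF_pb contDiff_snd.contDiffAt (h.sm.differentiable (by simp) _), h.d, bas_apply_aux1,
    bas_apply_aux1]

theorem Rad.dF_sec (h : Rad α f) {s : ℂ → ℂ} (hs : ContDiff ℝ ∞ s) (x u v : E) :
    dF (sec s α) x u v = f (‖x.1 - s x.2‖ ^ 2) *
      w1 (u.1 - fderiv ℝ s x.2 u.2) (v.1 - fderiv ℝ s x.2 v.2) := by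
  rw [sec, dF_pb (φ := fun y : E => y.1 - s y.2)
    ((contDiff_fst.sub (hs.comp contDiff_snd)).contDiffAt.of_le (by norm_cast))
    (h.sm.differentiable (by simp) _), h.d, sec_apply_aux1 hs, sec_apply_aux1 hs]

theorem dF_tot {Λ : Form1 E} (hΛ : ContDiff ℝ ∞ Λ) (h : Rad η c) (h' : Rad α f) {s : ℂ → ℂ}
    (hs : ContDiff ℝ ∞ s) (t : ℝ) (x u v : E) :
    dF (Tot Λ η α s t) x u v = dF Λ x u v + c (‖x.2‖ ^ 2) * w1 u.2 v.2 +
      t * f (‖x.1 - s x.2‖ ^ 2) * w1 (u.1 - fderiv ℝ s x.2 u.2) (v.1 - fderiv ℝ s x.2 v.2) := by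
  have h1 := hΛ.differentiable (by simp) x
  have h2 := (contDiff_bas h.sm).differentiable (by simp) x
  have h3 := (contDiff_sec hs h'.sm).differentiable (by simp) x
  have h4 := dF_smul (differentiableAt_const t) h3 u v
  rw [fderiv_fun_const, Pi.zero_apply, zero_apply, zero_apply, h'.dF_sec hs] at h4
  unfold Tot
  rw [dF_add (h1.fun_add h2) (h3.fun_const_smul t), dF_add h1 h2]
  simp only [add_apply]
  rw [h4, h.dF_bas]
  ring

theorem pf_tot {Λ : Form1 E} (hΛ : ContDiff ℝ ∞ Λ) (h : Rad η c) (h' : Rad α f) {s : ℂ → ℂ}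
    (hs : ContDiff ℝ ∞ s) (t : ℝ) (x : E) :
    Pf (dF (Tot Λ η α s t) x) = Pf (dF Λ x) + c (‖x.2‖ ^ 2) * fib (dF Λ x) +
      t * f (‖x.1 - s x.2‖ ^ 2) * (gr (dF Λ x) (fderiv ℝ s x.2) + c (‖x.2‖ ^ 2)) :=
  pf_add (alt_dF Λ x) _ _ _ (dF_tot hΛ h h' hs t x)

theorem tot_zero (Λ : Form1 E) (α : Form1 ℂ) (s : ℂ → ℂ) : Tot Λ (fun _ => 0) α s 0 = Λ := by
  refine funext fun x => ContinuousLinearMap.ext fun v => ?_
  simp only [Tot, zero_smul, add_zero, add_apply, bas_apply, zero_apply]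

theorem exists_plateau_aux1 {a b : ℝ} (hab : a < b) (R : ℝ) :
    ∃ φ : ℝ → ℝ, ContDiff ℝ ∞ φ ∧ HasCompactSupport φ ∧ (∀ y, 0 ≤ φ y) ∧ (∀ y, φ y ≤ 1) ∧
      (∀ y, y ≤ a → φ y = 0) ∧ ∀ y ∈ Icc b R, φ y = 1 := by
  have h := abs_nonneg (R - b)
  let φ : ContDiffBump (b + (|R - b| + 1)) := ⟨|R - b| + 1, |R - b| + 1 + (b - a), by linarith,
    by linarith⟩
  refine ⟨φ, φ.contDiff, φ.hasCompactSupport, fun _ => φ.nonneg, fun _ => φ.le_one,
    fun y hy => φ.zero_of_le_dist ?_, fun y hy => φ.one_of_mem_closedBall ?_⟩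
  · rw [Real.dist_eq]
    refine le_trans ?_ (neg_le_abs _)
    change |R - b| + 1 + (b - a) ≤ _
    linarith
  · rw [Metric.mem_closedBall, Real.dist_eq, abs_le]
    change -(|R - b| + 1) ≤ _ ∧ _ ≤ |R - b| + 1
    constructor <;> linarith [hy.1, hy.2, le_abs_self (R - b)]

theorem exists_plateau {r : ℝ} (hr : 0 < r) (R : ℝ) : ∃ c : ℝ → ℝ, ContDiff ℝ ∞ c ∧
    HasCompactSupport c ∧ (∀ y, 0 ≤ c y) ∧ (π * ∫ y in (0 : ℝ)..r ^ 2, c y) = 1 ∧
    ∀ z : ℂ, ‖z‖ ≤ R → c (‖z‖ ^ 2) = 1 / (π * r ^ 2) := by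
  obtain ⟨φ, h1, h2, h3, -, -, h4⟩ := exists_plateau_aux1 (neg_one_lt_zero (R := ℝ))
    (max (R ^ 2) (r ^ 2))
  refine ⟨fun y => 1 / (π * r ^ 2) * φ y, contDiff_const.mul h1, h2.mul_left,
    fun y => mul_nonneg (by positivity) (h3 y), ?_, fun z hz => ?_⟩
  · rw [intervalIntegral.integral_congr (g := fun _ => 1 / (π * r ^ 2)) fun y hy => by
      rw [uIcc_of_le (sq_nonneg r)] at hy
      simp only [h4 y ⟨hy.1, hy.2.trans (le_max_right _ _)⟩, mul_one],
      intervalIntegral.integral_const, smul_eq_mul]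
    field_simp
    ring
  · simp only [h4 _ ⟨sq_nonneg _, (pow_le_pow_left₀ (norm_nonneg z) hz 2).trans (le_max_left _ _)⟩,
      mul_one]

theorem exists_collar {r ν K : ℝ} (hr : 0 < r) (hν : 0 < ν) (hK : 0 ≤ K) :
    ∃ (c : ℝ → ℝ) (ρ : ℝ), ContDiff ℝ ∞ c ∧ HasCompactSupport c ∧ 0 < ρ ∧ ρ < r ∧
      (∀ y, -ν ≤ c y) ∧ (∫ y in (0 : ℝ)..r ^ 2, c y) = 0 ∧
      ∀ y ∈ Icc (ρ ^ 2) (r ^ 2), K - ν ≤ c y := by
  have hr2 : 0 < r ^ 2 := by positivity
  obtain ⟨t, ht, t1, t2⟩ : ∃ t : ℝ, 0 < t ∧ 2 * t ≤ r ^ 2 ∧ K * (2 * t) ≤ ν * r ^ 2 := by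
    refine ⟨r ^ 2 * ν / (K + ν) / 2, by positivity, ?_, ?_⟩ <;>
      rw [mul_div_cancel₀ _ two_ne_zero]
    · rw [div_le_iff₀ (by positivity)]
      nlinarith [mul_nonneg hr2.le hK]
    · rw [← mul_div_assoc, div_le_iff₀ (by positivity)]
      nlinarith [mul_pos (mul_pos hν hν) hr2]
  obtain ⟨φ, h1, h2, h3, h4, h5, h6⟩ := exists_plateau_aux1
    (show r ^ 2 - 2 * t < r ^ 2 - t by linarith) (r ^ 2)
  obtain ⟨ψ, k1, k2, k3, k4, -, k6⟩ := exists_plateau_aux1 (neg_one_lt_zero (R := ℝ)) (r ^ 2)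
  have i1 := h1.continuous.intervalIntegrable (μ := MeasureTheory.volume)
  have i2 : (∫ y in (0 : ℝ)..r ^ 2, φ y) ≤ 2 * t := by
    rw [← intervalIntegral.integral_add_adjacent_intervals (i1 0 (r ^ 2 - 2 * t)) (i1 _ _),
      intervalIntegral.integral_congr (g := fun _ => 0) fun y hy => h5 y (by
        rw [uIcc_of_le (by linarith)] at hy
        exact hy.2)]
    have := intervalIntegral.integral_mono_on (by linarith) (i1 (r ^ 2 - 2 * t) (r ^ 2))
      (intervalIntegrable_const (c := (1 : ℝ))) fun y _ => h4 y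
    simp only [intervalIntegral.integral_const, smul_eq_mul] at this ⊢
    linarith
  have i3 : 0 ≤ ∫ y in (0 : ℝ)..r ^ 2, φ y :=
    intervalIntegral.integral_nonneg hr2.le fun y _ => h3 y
  have i4 : (∫ y in (0 : ℝ)..r ^ 2, ψ y) = r ^ 2 := by
    rw [intervalIntegral.integral_congr (g := fun _ => 1) fun y hy => k6 y (by
      rwa [uIcc_of_le hr2.le] at hy)]
    simp
  set n := K * (∫ y in (0 : ℝ)..r ^ 2, φ y) / r ^ 2 with hn
  have n0 : 0 ≤ n := by positivity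
  have n1 : n ≤ ν := (div_le_iff₀ hr2).2 ((mul_le_mul_of_nonneg_left i2 hK).trans t2)
  have hq : 0 < r ^ 2 - t := by linarith
  refine ⟨fun y => K * φ y + -n * ψ y, √(r ^ 2 - t), (contDiff_const.mul h1).add
    (contDiff_const.mul k1), h2.mul_left.add k2.mul_left, Real.sqrt_pos.2 hq,
    (Real.sqrt_lt' hr).2 (by linarith), fun y => ?_, ?_, fun y hy => ?_⟩
  · linarith [mul_nonneg hK (h3 y), mul_le_mul_of_nonneg_left (k4 y) n0]
  · rw [intervalIntegral.integral_add ((i1 _ _).const_mul _)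
      ((k1.continuous.intervalIntegrable _ _).const_mul _), intervalIntegral.integral_const_mul,
      intervalIntegral.integral_const_mul, i4, hn]
    field_simp
    ring
  · rw [Real.sq_sqrt hq.le] at hy
    simp only [h6 y hy, k6 y ⟨hq.le.trans hy.1, hy.2⟩]
    linarith

theorem exists_outer {a b : ℝ} (hab : a < b) (R : ℝ) {K : ℝ} (hK : 0 ≤ K) :
    ∃ c : ℝ → ℝ, ContDiff ℝ ∞ c ∧ HasCompactSupport c ∧ (∀ y, 0 ≤ c y) ∧ (∀ y, y ≤ a → c y = 0) ∧
      ∀ y ∈ Icc b R, c y = K := by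
  obtain ⟨φ, h1, h2, h3, -, h4, h5⟩ := exists_plateau_aux1 hab R
  exact ⟨fun y => K * φ y, contDiff_const.mul h1, h2.mul_left, fun y => mul_nonneg hK (h3 y),
    fun y hy => by simp only [h4 y hy, mul_zero], fun y hy => by simp only [h5 y hy, mul_one]⟩

end Pool.Agent.Lib.MP_7ed551_gt.Cy.FA
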